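import Pool.Agent.R917.OM.Vexp

set_option autoImplicit false
set_option linter.unusedSectionVars false
set_option linter.unusedSimpArgs false

/-!
# The adjoint action of the exponential of a matrix
-/

open Module Function TensorProduct Filter Topology

noncomputable section

namespace Pool.Agent.R917.BX

section general

/-- The exponential of an operator. -/
theorem exp_sub_mem {E : Type*} [NormedAddCommGroup E] [NormedSpace ℂ E] [FiniteDimensional ℂ E]
    {V : Submodule ℂ E} {T : E →L[ℂ] E} (hT : ∀ y ∈ V, T y ∈ V) {y : E} (hy : T y ∈ V) :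
    NormedSpace.exp T y - y ∈ V := by
  have _ : CompleteSpace E := FiniteDimensional.complete ℂ E
  have h1 := NormedSpace.exp_series_hasSum_exp' (𝕂 := ℂ) T
  have h2 := (ContinuousLinearMap.apply ℂ E y).hasSum h1
  have h3 := h2.tendsto_sum_nat
  have h4 : Tendsto (fun k : ℕ => ∑ i ∈ Finset.range (k + 1),
      (ContinuousLinearMap.apply ℂ E y) (((i.factorial : ℂ)⁻¹) • T ^ i) - y) atTop
      (𝓝 (NormedSpace.exp T y - y)) :=
    ((tendsto_add_atTop_iff_nat 1).2 h3).sub_const y
  have hcl : IsClosed (V : Set E) := V.closed_of_finiteDimensional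
  refine hcl.mem_of_tendsto h4 (Eventually.of_forall fun k => ?_)
  have h5 : ∀ i : ℕ, (T ^ (i + 1)) y ∈ V := by
    intro i
    induction i with
    | zero => simpa using hy
    | succ i ih =>
      rw [pow_succ']
      exact hT _ ih
  rw [Finset.sum_range_succ']
  have h6 : (ContinuousLinearMap.apply ℂ E y) ((((0 : ℕ).factorial : ℂ)⁻¹) • T ^ 0) = y := by
    simp
  rw [h6, add_sub_cancel_right]
  refine Submodule.sum_mem _ fun i _ => ?_
  change (((i + 1).factorial : ℂ)⁻¹ • T ^ (i + 1)) y ∈ V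
  rw [smul_apply]
  exact V.smul_mem _ (h5 i)

variable {M : Type*} [NormedRing M] [NormedAlgebra ℂ M] [FiniteDimensional ℂ M]

/-- left multiplication -/
def lm (X : M) : M →L[ℂ] M := ContinuousLinearMap.mul ℂ M X

/-- right multiplication -/
def rm (X : M) : M →L[ℂ] M := (ContinuousLinearMap.mul ℂ M).flip X

theorem lm_apply (X Y : M) : lm X Y = X * Y := rfl

theorem rm_apply (X Y : M) : rm X Y = Y * X := rfl

theorem exp_lm (X Y : M) : NormedSpace.exp (lm X) Y = NormedSpace.exp X * Y := by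
  have _ : CompleteSpace M := FiniteDimensional.complete ℂ M
  have h1 := NormedSpace.exp_series_hasSum_exp' (𝕂 := ℂ) (lm X)
  have h2 := (ContinuousLinearMap.apply ℂ M Y).hasSum h1
  have h3 := NormedSpace.exp_series_hasSum_exp' (𝕂 := ℂ) X
  have h4 := (rm Y).hasSum h3
  have h5 : ∀ k : ℕ, (lm X ^ k) Y = X ^ k * Y := by
    intro k
    induction k with
    | zero => simp
    | succ k ih =>
      rw [pow_succ', pow_succ', mul_assoc, ← ih]
      rfl
  have h6 : (fun k : ℕ => (ContinuousLinearMap.apply ℂ M Y)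
      (((k.factorial : ℂ)⁻¹) • lm X ^ k)) =
      fun k : ℕ => (rm Y) (((k.factorial : ℂ)⁻¹) • X ^ k) := by
    funext k
    change ((k.factorial : ℂ)⁻¹ • lm X ^ k) Y = (((k.factorial : ℂ)⁻¹) • X ^ k) * Y
    rw [smul_apply, h5, smul_mul_assoc]
  have h7 : HasSum (fun k : ℕ => (rm Y) (((k.factorial : ℂ)⁻¹) • X ^ k))
      (NormedSpace.exp (lm X) Y) := by
    rw [← h6]
    exact h2
  exact h7.unique h4

theorem exp_rm (X Y : M) : NormedSpace.exp (rm X) Y = Y * NormedSpace.exp X := by
  have _ : CompleteSpace M := FiniteDimensional.complete ℂ M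
  have h1 := NormedSpace.exp_series_hasSum_exp' (𝕂 := ℂ) (rm X)
  have h2 := (ContinuousLinearMap.apply ℂ M Y).hasSum h1
  have h3 := NormedSpace.exp_series_hasSum_exp' (𝕂 := ℂ) X
  have h4 := (lm Y).hasSum h3
  have h5 : ∀ k : ℕ, (rm X ^ k) Y = Y * X ^ k := by
    intro k
    induction k with
    | zero => simp
    | succ k ih =>
      rw [pow_succ', pow_succ, ← mul_assoc, ← ih]
      rfl
  have h6 : (fun k : ℕ => (ContinuousLinearMap.apply ℂ M Y)
      (((k.factorial : ℂ)⁻¹) • rm X ^ k)) =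
      fun k : ℕ => (lm Y) (((k.factorial : ℂ)⁻¹) • X ^ k) := by
    funext k
    change ((k.factorial : ℂ)⁻¹ • rm X ^ k) Y = Y * (((k.factorial : ℂ)⁻¹) • X ^ k)
    rw [smul_apply, h5, mul_smul_comm]
  have h7 : HasSum (fun k : ℕ => (lm Y) (((k.factorial : ℂ)⁻¹) • X ^ k))
      (NormedSpace.exp (rm X) Y) := by
    rw [← h6]
    exact h2
  exact h7.unique h4

theorem exp_ad (X Y : M) :
    NormedSpace.exp (lm X + rm (-X)) Y = NormedSpace.exp X * Y * NormedSpace.exp (-X) := by
  have _ : CompleteSpace M := FiniteDimensional.complete ℂ M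
  let _ : NormedAlgebra ℚ (M →L[ℂ] M) := NormedAlgebra.restrictScalars ℚ ℂ (M →L[ℂ] M)
  have hc : Commute (lm X) (rm (-X)) := by
    refine ContinuousLinearMap.ext fun Y => ?_
    change X * (Y * -X) = (X * Y) * -X
    rw [mul_assoc]
  have h1 : NormedSpace.exp (lm X + rm (-X)) =
      NormedSpace.exp (lm X) * NormedSpace.exp (rm (-X)) := NormedSpace.exp_add_of_commute hc
  rw [h1]
  change NormedSpace.exp (lm X) (NormedSpace.exp (rm (-X)) Y) = _
  rw [exp_rm, exp_lm, mul_assoc]

/-- **The adjoint action of an exponential.** -/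
theorem exp_conj_mem' {V : Submodule ℂ M} {X : M}
    (hX : ∀ Y ∈ V, X * Y - Y * X ∈ V) {Y : M} (hY : X * Y - Y * X ∈ V) :
    NormedSpace.exp X * Y * NormedSpace.exp (-X) - Y ∈ V := by
  rw [← exp_ad]
  have h1 : ∀ Y, (lm X + rm (-X)) Y = X * Y - Y * X := by
    intro Y
    change X * Y + Y * -X = _
    rw [mul_neg, ← sub_eq_add_neg]
  exact exp_sub_mem (fun Z hZ => by rw [h1]; exact hX Z hZ) (by rw [h1]; exact hY)

theorem exp_neg_mul_exp' (X : M) :
    NormedSpace.exp (-X) * NormedSpace.exp X = 1 := by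
  have _ : CompleteSpace M := FiniteDimensional.complete ℂ M
  let _ : NormedAlgebra ℚ M := NormedAlgebra.restrictScalars ℚ ℂ M
  have hc : Commute (-X) X := (Commute.refl X).neg_left
  rw [← NormedSpace.exp_add_of_commute hc, neg_add_cancel, NormedSpace.exp_zero]

theorem exp_mul_exp_neg' (X : M) :
    NormedSpace.exp X * NormedSpace.exp (-X) = 1 := by
  have _ : CompleteSpace M := FiniteDimensional.complete ℂ M
  let _ : NormedAlgebra ℚ M := NormedAlgebra.restrictScalars ℚ ℂ M
  have hc : Commute X (-X) := (Commute.refl X).neg_right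
  rw [← NormedSpace.exp_add_of_commute hc, add_neg_cancel, NormedSpace.exp_zero]

end general

section norms

attribute [local instance] Matrix.linftyOpNormedRing Matrix.linftyOpNormedAlgebra

variable {B : Type} [Fintype B] [DecidableEq B]

/-- **The adjoint action of an exponential.** -/
theorem exp_conj_mem {V : Submodule ℂ (Matrix B B ℂ)} {X : Matrix B B ℂ}
    (hX : ∀ Y ∈ V, X * Y - Y * X ∈ V) {Y : Matrix B B ℂ} (hY : X * Y - Y * X ∈ V) :
    NormedSpace.exp X * Y * NormedSpace.exp (-X) - Y ∈ V :=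
  exp_conj_mem' (M := Matrix B B ℂ) hX hY

theorem exp_neg_mul_exp (X : Matrix B B ℂ) : NormedSpace.exp (-X) * NormedSpace.exp X = 1 :=
  exp_neg_mul_exp' (M := Matrix B B ℂ) X

theorem exp_mul_exp_neg (X : Matrix B B ℂ) : NormedSpace.exp X * NormedSpace.exp (-X) = 1 :=
  exp_mul_exp_neg' (M := Matrix B B ℂ) X

end norms

end Pool.Agent.R917.BX
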