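import Pool.Agent.R917.BX.TFin

set_option autoImplicit false
set_option linter.unusedSectionVars false

/-!
# The theta function of the Poincare bundle
-/

open MvPolynomial Filter Topology

noncomputable section

namespace Pool.Agent.R917.BX

open Pool.Agent.W245.EB Pool.Agent.Y102

variable {g : ℕ}

theorem exists_cc (A : AbVar g) : ∃ cc : A.H1 → ℂ, ∀ w ∈ A.lat, ∀ z, A.θ 0 (z + A.per w) =
    Complex.exp (∑ i, A.eta w i * z i + cc w) * A.θ 0 z := by
  classical
  have h1 : ∀ w : A.H1, ∃ c : ℂ, w ∈ A.lat → ∀ z, A.θ 0 (z + A.per w) =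
      Complex.exp (∑ i, A.eta w i * z i + c) * A.θ 0 z := by
    intro w
    by_cases hw : w ∈ A.lat
    · obtain ⟨c, hc⟩ := A.quasi_lat hw
      exact ⟨c, fun _ => hc 0⟩
    · exact ⟨0, fun h => absurd h hw⟩
  choose cc hcc using h1
  exact ⟨cc, hcc⟩

/-- the constants of the quasi-periodicity -/
def cc (A : AbVar g) : A.H1 → ℂ := (exists_cc A).choose

theorem cc_spec (A : AbVar g) {w : A.H1} (hw : w ∈ A.lat) (z : Fin g → ℂ) :
    A.θ 0 (z + A.per w) = Complex.exp (∑ i, A.eta w i * z i + cc A w) * A.θ 0 z :=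
  (exists_cc A).choose_spec w hw z

variable {A : AbVar g}

theorem exp_cc_add {w w' : A.H1} (hw : w ∈ A.lat) (hw' : w' ∈ A.lat) :
    Complex.exp (cc A (w + w')) =
      Complex.exp (cc A w + cc A w' + ∑ i, A.eta w i * A.per w' i) := by
  have h1 := cc_spec A (A.lat.add_mem hw hw') 0
  have h2 := cc_spec A hw (A.per w')
  have h3 := cc_spec A hw' 0
  simp only [Pi.zero_apply, mul_zero, Finset.sum_const_zero, zero_add] at h1 h3
  rw [A.origin.1, mul_one] at h1 h3
  rw [← h1, map_add, add_comm (A.per w), h2, h3, ← Complex.exp_add]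
  congr 1
  ring

/-- the Legendre relation for lattice vectors -/
theorem exp_om {w w' : A.H1} (hw : w ∈ A.lat) (hw' : w' ∈ A.lat) :
    Complex.exp (∑ i, A.eta w i * A.per w' i - ∑ i, A.eta w' i * A.per w i) = 1 := by
  have h1 := exp_cc_add hw hw'
  have h2 := exp_cc_add hw' hw
  rw [add_comm w' w, h1, add_comm (cc A w') (cc A w), Complex.exp_add,
    Complex.exp_add _ (∑ i, A.eta w' i * A.per w i)] at h2
  have h3 := mul_left_cancel₀ (Complex.exp_ne_zero _) h2
  rw [Complex.exp_sub, h3, div_self (Complex.exp_ne_zero _)]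

theorem exp_cc_sub {w w' : A.H1} (hw : w ∈ A.lat) (hw' : w' ∈ A.lat) :
    Complex.exp (cc A (w - w') - cc A w - cc A (-w')) =
      Complex.exp (-∑ i, A.eta w i * A.per w' i) := by
  have h1 := exp_cc_add hw (A.lat.neg_mem hw')
  rw [← sub_eq_add_neg] at h1
  rw [sub_sub, Complex.exp_sub, h1, Complex.exp_add, mul_div_cancel_left₀ _
    (Complex.exp_ne_zero _)]
  congr 1
  rw [← Finset.sum_neg_distrib]
  refine Finset.sum_congr rfl fun i _ => ?_
  rw [map_neg, Pi.neg_apply, mul_neg]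

/-- the section of the Poincare bundle -/
def bt (A : AbVar g) (x y : Fin g → ℂ) : ℂ := A.θ 0 (x - y) / (A.θ 0 x * A.θ 0 (-y))

theorem bt_shift {w w' : A.H1} (hw : w ∈ A.lat) (hw' : w' ∈ A.lat) (x y : Fin g → ℂ) :
    bt A (x + A.per w) (y + A.per w') = bt A x y *
      Complex.exp (-∑ i, A.eta w i * y i - ∑ i, A.eta w' i * x i -
        ∑ i, A.eta w i * A.per w' i) := by
  have e1 : x + A.per w - (y + A.per w') = (x - y) + A.per (w - w') := by
    rw [map_sub]
    abel
  have e2 : -(y + A.per w') = -y + A.per (-w') := by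
    rw [map_neg]
    abel
  have e3 := exp_cc_sub hw hw'
  unfold bt
  rw [e1, e2, cc_spec A (A.lat.sub_mem hw hw'), cc_spec A hw, cc_spec A (A.lat.neg_mem hw')]
  have e4 : Complex.exp (∑ i, A.eta (w - w') i * (x - y) i + cc A (w - w')) * A.θ 0 (x - y) /
      (Complex.exp (∑ i, A.eta w i * x i + cc A w) * A.θ 0 x *
        (Complex.exp (∑ i, A.eta (-w') i * (-y) i + cc A (-w')) * A.θ 0 (-y))) =
      (A.θ 0 (x - y) / (A.θ 0 x * A.θ 0 (-y))) *
      (Complex.exp (∑ i, A.eta (w - w') i * (x - y) i + cc A (w - w')) /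
        (Complex.exp (∑ i, A.eta w i * x i + cc A w) *
          Complex.exp (∑ i, A.eta (-w') i * (-y) i + cc A (-w')))) := by
    rw [div_mul_div_comm]
    congr 1 <;> ring
  rw [e4, ← Complex.exp_add, ← Complex.exp_sub]
  congr 1
  have e5 : ∑ i, A.eta (w - w') i * (x - y) i + cc A (w - w') -
      (∑ i, A.eta w i * x i + cc A w + (∑ i, A.eta (-w') i * (-y) i + cc A (-w'))) =
      (-∑ i, A.eta w i * y i - ∑ i, A.eta w' i * x i) +
        (cc A (w - w') - cc A w - cc A (-w')) := by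
    have e6 : ∑ i, A.eta (w - w') i * (x - y) i = ∑ i, A.eta w i * x i - ∑ i, A.eta w i * y i -
        ∑ i, A.eta w' i * x i + ∑ i, A.eta w' i * y i := by
      rw [← Finset.sum_sub_distrib, ← Finset.sum_sub_distrib, ← Finset.sum_add_distrib]
      refine Finset.sum_congr rfl fun i _ => ?_
      rw [map_sub, Pi.sub_apply, Pi.sub_apply]
      ring
    have e7 : ∑ i, A.eta (-w') i * (-y) i = ∑ i, A.eta w' i * y i := by
      refine Finset.sum_congr rfl fun i _ => ?_
      rw [map_neg, Pi.neg_apply, Pi.neg_apply]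
      ring
    rw [e6, e7]
    ring
  rw [e5, Complex.exp_add, e3, ← Complex.exp_add]
  congr 1

/-- A product of sections of Poincare bundles. -/
structure BT (A : AbVar g) (b : ℕ) (κ : Type) [Fintype κ] where
  X : κ → (Fin b → ℂ) →L[ℂ] (Fin g → ℂ)
  Y : κ → (Fin b → ℂ) →L[ℂ] (Fin g → ℂ)
  Xa : ∀ a k i, IsAlgebraic ℚ (X a (Pi.single k 1) i)
  Ya : ∀ a k i, IsAlgebraic ℚ (Y a (Pi.single k 1) i)
  inj : ∀ z, (∀ a, X a z = 0) → (∀ a, Y a z = 0) → z = 0
  M : κ → ℤ
  s : Fin b → Fin b → ℂ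
  sa : ∀ i j, IsAlgebraic ℚ (s i j)
  ss : ∀ i j, s i j = s j i
  U : Fin b → Fin b → ℂ
  hU : LinearIndependent ℂ U
  x : κ → Fin b → A.H1
  y : κ → Fin b → A.H1
  hx : ∀ a k, x a k ∈ A.lat
  hy : ∀ a k, y a k ∈ A.lat
  XU : ∀ a k, X a (U k) = A.per (x a k)
  YU : ∀ a k, Y a (U k) = A.per (y a k)
  h1 : ∀ k j, ∑ i, s i j * U k i = ∑ a, (M a : ℂ) * ∑ i,
    (A.eta (x a k) i * Y a (Pi.single j 1) i + A.eta (y a k) i * X a (Pi.single j 1) i)

namespace BT

variable {b : ℕ} {κ : Type} [Fintype κ] [DecidableEq κ] (t : BT A b κ)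

theorem vec_exp (z : Fin b → ℂ) : z = ∑ j, z j • (Pi.single j 1 : Fin b → ℂ) := by
  funext i
  rw [Finset.sum_apply]
  simp [Pi.single_apply]

theorem X_exp (a : κ) (z : Fin b → ℂ) (i : Fin g) : t.X a z i =
    ∑ j, z j * t.X a (Pi.single j 1) i := by
  conv_lhs => rw [vec_exp z]
  rw [map_sum, Finset.sum_apply]
  exact Finset.sum_congr rfl fun j _ => by rw [map_smul, Pi.smul_apply, smul_eq_mul]

theorem Y_exp (a : κ) (z : Fin b → ℂ) (i : Fin g) : t.Y a z i =
    ∑ j, z j * t.Y a (Pi.single j 1) i := by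
  conv_lhs => rw [vec_exp z]
  rw [map_sum, Finset.sum_apply]
  exact Finset.sum_congr rfl fun j _ => by rw [map_smul, Pi.smul_apply, smul_eq_mul]

theorem qf_U (k : Fin b) : qf t.s (t.U k) = ∑ a, (t.M a : ℂ) * ∑ i,
    (A.eta (t.x a k) i * A.per (t.y a k) i + A.eta (t.y a k) i * A.per (t.x a k) i) := by
  have e1 : qf t.s (t.U k) = ∑ j, t.U k j * ∑ i, t.s i j * t.U k i := by
    unfold qf
    rw [Finset.sum_comm]
    refine Finset.sum_congr rfl fun j _ => ?_
    rw [Finset.mul_sum]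
    exact Finset.sum_congr rfl fun i _ => by ring
  rw [e1]
  simp only [t.h1, ← t.XU, ← t.YU, t.X_exp _ (t.U k), t.Y_exp _ (t.U k)]
  simp only [Finset.mul_sum, mul_add, Finset.sum_add_distrib]
  congr 1
  · rw [Finset.sum_comm]
    refine Finset.sum_congr rfl fun a _ => ?_
    rw [Finset.sum_comm]
    refine Finset.sum_congr rfl fun i _ => Finset.sum_congr rfl fun j _ => by ring
  · rw [Finset.sum_comm]
    refine Finset.sum_congr rfl fun a _ => ?_
    rw [Finset.sum_comm]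
    refine Finset.sum_congr rfl fun i _ => Finset.sum_congr rfl fun j _ => by ring

/-- the product of theta functions -/
def tp : TP A b (κ ⊕ (κ ⊕ κ)) where
  L := Sum.elim t.X (Sum.elim (fun a => -t.Y a) (fun a => t.X a - t.Y a))
  La := by
    rintro (a | a | a) k i
    · exact t.Xa a k i
    · exact (t.Ya a k i).neg
    · exact (t.Xa a k i).sub (t.Ya a k i)
  Li := by
    intro x hx
    refine t.inj x (fun a => hx (Sum.inl a)) fun a => ?_
    have h1 : -t.Y a x = 0 := hx (Sum.inr (Sum.inl a))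
    exact neg_eq_zero.1 h1
  m := Sum.elim (fun a => -t.M a) (Sum.elim (fun a => -t.M a) t.M)
  s := t.s
  sa := t.sa
  ss := t.ss
  U := t.U
  hU := t.hU
  w := Sum.elim t.x (Sum.elim (fun a k => -t.y a k) (fun a k => t.x a k - t.y a k))
  hw := by
    rintro (a | a | a) k
    · exact t.hx a k
    · exact A.lat.neg_mem (t.hy a k)
    · exact A.lat.sub_mem (t.hx a k) (t.hy a k)
  LU := by
    rintro (a | a | a) k
    · exact t.XU a k
    · change -t.Y a (t.U k) = A.per (-t.y a k)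
      rw [t.YU, map_neg]
    · change t.X a (t.U k) - t.Y a (t.U k) = A.per (t.x a k - t.y a k)
      rw [t.XU, t.YU, map_sub]
  c := fun a k => cc A (Sum.elim t.x (Sum.elim (fun a k => -t.y a k)
    (fun a k => t.x a k - t.y a k)) a k)
  hc := by
    rintro (a | a | a) k z
    · exact cc_spec A (t.hx a k) z
    · exact cc_spec A (A.lat.neg_mem (t.hy a k)) z
    · exact cc_spec A (A.lat.sub_mem (t.hx a k) (t.hy a k)) z
  h1 := by
    intro k j
    rw [t.h1]
    simp only [Fintype.sum_sum_type, Sum.elim_inl, Sum.elim_inr, neg_apply, sub_apply,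
      Pi.neg_apply, Pi.sub_apply, map_neg, map_sub, Finset.mul_sum, ← Finset.sum_add_distrib,
      ← Finset.sum_neg_distrib]
    refine Finset.sum_congr rfl fun a _ => Finset.sum_congr rfl fun i _ => ?_
    push_cast
    ring
  h2 := by
    intro k
    rw [t.qf_U]
    simp only [Fintype.sum_sum_type, Sum.elim_inl, Sum.elim_inr]
    have e1 : (∑ a, (t.M a : ℂ) * ∑ i, (A.eta (t.x a k) i * A.per (t.y a k) i +
        A.eta (t.y a k) i * A.per (t.x a k) i) + 2 * (∑ a, ((-t.M a : ℤ) : ℂ) * cc A (t.x a k) +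
        (∑ a, ((-t.M a : ℤ) : ℂ) * cc A (-t.y a k) +
          ∑ a, (t.M a : ℂ) * cc A (t.x a k - t.y a k)))) =
        ∑ a, (t.M a : ℂ) * ((∑ i, A.eta (t.x a k) i * A.per (t.y a k) i +
          ∑ i, A.eta (t.y a k) i * A.per (t.x a k) i) +
          2 * (cc A (t.x a k - t.y a k) - cc A (t.x a k) - cc A (-t.y a k))) := by
      rw [← Finset.sum_add_distrib, ← Finset.sum_add_distrib, Finset.mul_sum,
        ← Finset.sum_add_distrib]
      refine Finset.sum_congr rfl fun a _ => ?_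
      rw [← Finset.sum_add_distrib]
      push_cast
      ring
    rw [e1, Complex.exp_sum]
    refine Finset.prod_eq_one fun a _ => ?_
    rw [Complex.exp_int_mul]
    have e2 : Complex.exp ((∑ i, A.eta (t.x a k) i * A.per (t.y a k) i +
          ∑ i, A.eta (t.y a k) i * A.per (t.x a k) i) +
          2 * (cc A (t.x a k - t.y a k) - cc A (t.x a k) - cc A (-t.y a k))) = 1 := by
      have e3 := exp_cc_sub (t.hx a k) (t.hy a k)
      have e4 := exp_om (t.hy a k) (t.hx a k)
      have e5 : ∀ q : ℂ, Complex.exp (2 * q) = Complex.exp q * Complex.exp q := fun q => by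
        rw [← Complex.exp_add, ← two_mul]
      rw [Complex.exp_add, e5, e3, ← Complex.exp_add, ← Complex.exp_add, ← e4]
      congr 1
      ring
    rw [e2, one_zpow]

/-- **Algebraicity.** -/
theorem alg {z : Fin b → ℂ} (hX : ∀ a, A.θ 0 (t.X a z) ≠ 0 ∧
      ∀ i, IsAlgebraic ℚ (A.θ i (t.X a z) / A.θ 0 (t.X a z)))
    (hY : ∀ a, A.θ 0 (-t.Y a z) ≠ 0 ∧
      ∀ i, IsAlgebraic ℚ (A.θ i (-t.Y a z) / A.θ 0 (-t.Y a z)))
    (hXY : ∀ a, A.θ 0 (t.X a z - t.Y a z) ≠ 0 ∧
      ∀ i, IsAlgebraic ℚ (A.θ i (t.X a z - t.Y a z) / A.θ 0 (t.X a z - t.Y a z))) :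
    IsAlgebraic ℚ (Complex.exp (qf t.s z) * ∏ a, bt A (t.X a z) (t.Y a z) ^ (2 * t.M a)) := by
  have h1 := t.tp.alg_T (z₁ := z) (by
    rintro (a | a | a)
    · exact (hX a).1
    · exact (hY a).1
    · exact (hXY a).1) (by
    rintro ⟨a | a | a, i⟩
    · exact (hX a).2 i
    · exact (hY a).2 i
    · exact (hXY a).2 i)
  have h2 : t.tp.T z = Complex.exp (qf t.s z) *
      ∏ a, bt A (t.X a z) (t.Y a z) ^ (2 * t.M a) := by
    change Complex.exp (qf t.s z) * ∏ a, A.θ 0 (t.tp.L a z) ^ (2 * t.tp.m a) = _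
    congr 1
    rw [Fintype.prod_sum_type, Fintype.prod_sum_type, ← Finset.prod_mul_distrib,
      ← Finset.prod_mul_distrib]
    refine Finset.prod_congr rfl fun a _ => ?_
    change A.θ 0 (t.X a z) ^ (2 * (-t.M a)) * (A.θ 0 (-t.Y a z) ^ (2 * (-t.M a)) *
      A.θ 0 (t.X a z - t.Y a z) ^ (2 * t.M a)) = _
    unfold bt
    rw [div_zpow, mul_zpow, mul_neg, zpow_neg, zpow_neg]
    have h3 := (hX a).1
    have h4 := (hY a).1
    field_simp
  rwa [h2] at h1

end BT

end Pool.Agent.R917.BX
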