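import Pool.Agent.R917.OM.Hdg

set_option autoImplicit false
set_option linter.unusedSectionVars false
set_option linter.unusedSimpArgs false

/-!
# Change of the basis of the Betti realization of a 1-motive
-/

open Module Function TensorProduct Matrix

noncomputable section

namespace Pool.Agent.R917.BX

open Pool.Agent.Y102 Pool.Agent.W516.DR Pool.Agent.H204R3.GP Pool.Agent.W516.KC
  Pool.Agent.H204R3.SP Pool.Agent.TH119.MX Pool.Agent.R917.OM

variable {g : ℕ} {A : AbVar g} {n s : ℕ} {𝔤 : Submodule ℚ (Tup A n s)} {d : Dt g n s}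

theorem op_skew {L : Tup A n s} (h : ∀ u v, A.om (L.1 u) v + A.om u (L.1 v) = 0) (x y : A.H1) :
    A.om (op L x) y + A.om x (op L y) = 2 * L.2.1 * A.om x y := by
  have h1 := h x y
  simp only [op_apply, map_add, map_smul, LinearMap.add_apply, LinearMap.smul_apply, smul_eq_mul]
  linear_combination h1

/-- the change of frame -/
def cj (w : (Fin n ⊕ Fin s) → A.H1) : Tup A n s →ₗ[ℚ] Tup A n s where
  toFun L := (L.1, L.2.1, fun p => L.2.2.1 p - op L (w p), fun i l => L.2.2.2 i l +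
    A.om (w (Sum.inr l)) (L.2.2.1 (Sum.inl i)) - A.om (L.2.2.1 (Sum.inr l)) (w (Sum.inl i)) +
    (1 / 2 : ℚ) * (A.om (op L (w (Sum.inr l))) (w (Sum.inl i)) -
      A.om (w (Sum.inr l)) (op L (w (Sum.inl i)))))
  map_add' L L' := by
    refine Prod.ext rfl (Prod.ext rfl (Prod.ext ?_ ?_))
    · funext p
      simp only [op_add, Prod.snd_add, Prod.fst_add, Pi.add_apply, LinearMap.add_apply]
      abel
    · funext i l
      simp only [op_add, Prod.snd_add, Prod.fst_add, Pi.add_apply, LinearMap.add_apply, map_add]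
      ring
  map_smul' c L := by
    refine Prod.ext rfl (Prod.ext rfl (Prod.ext ?_ ?_))
    · funext p
      simp only [op_smul, Prod.smul_snd, Prod.smul_fst, Pi.smul_apply, LinearMap.smul_apply,
        RingHom.id_apply, smul_sub]
    · funext i l
      simp only [op_smul, Prod.smul_snd, Prod.smul_fst, Pi.smul_apply, LinearMap.smul_apply,
        RingHom.id_apply, map_smul, smul_eq_mul]
      ring

variable (w : (Fin n ⊕ Fin s) → A.H1)

theorem cj_z (L : Tup A n s) (p : Fin n ⊕ Fin s) :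
    (cj w L).2.2.1 p = L.2.2.1 p - op L (w p) := rfl

theorem cj_t (L : Tup A n s) (i : Fin n) (l : Fin s) : (cj w L).2.2.2 i l = L.2.2.2 i l +
    A.om (w (Sum.inr l)) (L.2.2.1 (Sum.inl i)) - A.om (L.2.2.1 (Sum.inr l)) (w (Sum.inl i)) +
    (1 / 2 : ℚ) * (A.om (op L (w (Sum.inr l))) (w (Sum.inl i)) -
      A.om (w (Sum.inr l)) (op L (w (Sum.inl i)))) := rfl

theorem op_cj (L : Tup A n s) : op (cj w L) = op L := rfl

theorem cj_inj : Function.Injective (cj w) := by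
  rw [injective_iff_map_eq_zero]
  intro L hL
  have h1 : L.1 = 0 := congrArg (fun L : Tup A n s => L.1) hL
  have h2 : L.2.1 = 0 := congrArg (fun L : Tup A n s => L.2.1) hL
  have h3 : op L = 0 := by
    unfold op
    rw [h1, h2, zero_smul, add_zero]
  have h4 : ∀ p, L.2.2.1 p = 0 := by
    intro p
    have h5 := congrFun (congrArg (fun L : Tup A n s => L.2.2.1) hL) p
    change L.2.2.1 p - op L (w p) = 0 at h5
    rwa [h3, LinearMap.zero_apply, sub_zero] at h5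
  refine Prod.ext h1 (Prod.ext h2 (Prod.ext (funext h4) ?_))
  funext i l
  have h5 := congrFun (congrFun (congrArg (fun L : Tup A n s => L.2.2.2) hL) i) l
  change (cj w L).2.2.2 i l = 0 at h5
  rw [cj_t, h4, h4, h3] at h5
  simpa using h5

theorem cj_br {L L' : Tup A n s} (h : ∀ u v, A.om (L.1 u) v + A.om u (L.1 v) = 0)
    (h' : ∀ u v, A.om (L'.1 u) v + A.om u (L'.1 v) = 0) :
    cj w (br L L') = br (cj w L) (cj w L') := by
  refine Prod.ext rfl (Prod.ext rfl (Prod.ext ?_ ?_))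
  · funext p
    rw [cj_z, op_br]
    change (op L (L'.2.2.1 p) - op L' (L.2.2.1 p)) - (op L (op L' (w p)) - op L' (op L (w p))) =
      op L (L'.2.2.1 p - op L' (w p)) - op L' (L.2.2.1 p - op L (w p))
    rw [map_sub, map_sub]
    abel
  · funext i l
    rw [cj_t]
    simp only [op_br]
    change (A.om (L.2.2.1 (Sum.inr l)) (L'.2.2.1 (Sum.inl i)) -
      A.om (L'.2.2.1 (Sum.inr l)) (L.2.2.1 (Sum.inl i)) + 2 * L.2.1 * L'.2.2.2 i l -
        2 * L'.2.1 * L.2.2.2 i l) +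
      A.om (w (Sum.inr l)) (op L (L'.2.2.1 (Sum.inl i)) - op L' (L.2.2.1 (Sum.inl i))) -
      A.om (op L (L'.2.2.1 (Sum.inr l)) - op L' (L.2.2.1 (Sum.inr l))) (w (Sum.inl i)) +
      (1 / 2 : ℚ) * (A.om (op L (op L' (w (Sum.inr l))) - op L' (op L (w (Sum.inr l))))
        (w (Sum.inl i)) - A.om (w (Sum.inr l)) (op L (op L' (w (Sum.inl i))) -
          op L' (op L (w (Sum.inl i))))) =
      A.om (L.2.2.1 (Sum.inr l) - op L (w (Sum.inr l)))
        (L'.2.2.1 (Sum.inl i) - op L' (w (Sum.inl i))) -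
      A.om (L'.2.2.1 (Sum.inr l) - op L' (w (Sum.inr l)))
        (L.2.2.1 (Sum.inl i) - op L (w (Sum.inl i))) +
      2 * L.2.1 * (cj w L').2.2.2 i l - 2 * L'.2.1 * (cj w L).2.2.2 i l
    rw [cj_t, cj_t]
    have e1 := op_skew h (w (Sum.inr l)) (L'.2.2.1 (Sum.inl i))
    have e2 := op_skew h' (w (Sum.inr l)) (L.2.2.1 (Sum.inl i))
    have e3 := op_skew h' (L.2.2.1 (Sum.inr l)) (w (Sum.inl i))
    have e4 := op_skew h (L'.2.2.1 (Sum.inr l)) (w (Sum.inl i))
    have e5 := op_skew h (op L' (w (Sum.inr l))) (w (Sum.inl i))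
    have e6 := op_skew h' (op L (w (Sum.inr l))) (w (Sum.inl i))
    have e7 := op_skew h (w (Sum.inr l)) (op L' (w (Sum.inl i)))
    have e8 := op_skew h' (w (Sum.inr l)) (op L (w (Sum.inl i)))
    simp only [map_sub, LinearMap.sub_apply]
    linear_combination e1 - e2 + e3 - e4 + (1 / 2 : ℚ) * e5 - (1 / 2 : ℚ) * e6 -
      (1 / 2 : ℚ) * e7 + (1 / 2 : ℚ) * e8

/-- the data in the other frame -/
def fd (d : Dt g n s) : Dt g n s where
  P p c := d.P p c - A.dR c (w p)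
  ℓ i l := d.ℓ i l - thd d A l (w (Sum.inl i)) +
    (1 / 2 : ℂ) * (((A.om (w (Sum.inr l)) (w (Sum.inl i)) : ℚ) : ℂ) * tau)

theorem etaL_ext {z z' : ℂ ⊗[ℚ] A.H1} (h : ∀ c, etaL A.basis c z = etaL A.basis c z') :
    z = z' := by
  have h1 : Module.Dual.eval ℂ _ z = Module.Dual.eval ℂ _ z' :=
    (etaL A.basis).ext fun c => h c
  have h2 : ∀ f : Module.Dual ℂ (ℂ ⊗[ℚ] A.H1), f (z - z') = 0 := by
    intro f
    rw [map_sub, sub_eq_zero]
    exact congrArg (fun F => F f) h1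
  exact sub_eq_zero.1 ((Module.forall_dual_apply_eq_zero_iff ℂ _).1 h2)

theorem lft_D (D : Derivation QBar ℂ ℂ) (x : A.H1) :
    lft A (fun c => D (A.dR c x)) = XX A.basis D ((1 : ℂ) ⊗ₜ[ℚ] x) := by
  refine etaL_ext fun c => ?_
  rw [etaL_lft, etaL_XX_one, A.coe_basis]

theorem lft_sub (P Q : Fin g ⊕ Fin g → ℂ) : lft A (fun c => P c - Q c) = lft A P - lft A Q := by
  refine etaL_ext fun c => ?_
  rw [map_sub, etaL_lft, etaL_lft, etaL_lft]

theorem ex_om' (x : A.H1) (z : ℂ ⊗[ℚ] A.H1) : ex (A.om x) z = -ex (A.om.flip x) z := by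
  induction z with
  | zero => simp only [map_zero, neg_zero]
  | add z z' h h' =>
    rw [map_add, map_add, h, h']
    ring
  | tmul c u =>
    rw [ex_tmul, ex_tmul, LinearMap.flip_apply]
    have h1 := A.om_pairing x u
    have h2 := A.om_pairing u x
    rw [h1, h2, ← mul_neg, ← neg_div, ← Finset.sum_neg_distrib]
    congr 2
    exact Finset.sum_congr rfl fun k _ => by ring

theorem om_tau (x y : A.H1) : ((A.om x y : ℚ) : ℂ) * tau =
    ∑ k, (A.dR (Sum.inr k) x * A.dR (Sum.inl k) y - A.dR (Sum.inl k) x * A.dR (Sum.inr k) y) := by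
  have h1 := ex_om (A := A) y ((1 : ℂ) ⊗ₜ[ℚ] x)
  rw [ex_tmul, LinearMap.flip_apply, one_mul] at h1
  rw [h1]
  simp only [etaL_tmul, A.coe_basis, one_mul]

theorem tD_fd (D : Derivation QBar ℂ ℂ) (i : Fin n) (l : Fin s) : tD (fd w d) D i l =
    tD d D i l + ex (A.om (w (Sum.inr l))) (lft A fun c => D (d.P (Sum.inl i) c)) -
      ex (A.om.flip (w (Sum.inl i))) (lft A fun c => D (d.P (Sum.inr l) c)) +
      (1 / 2 : ℚ) • (ex (A.om.flip (w (Sum.inl i)))
          (XX A.basis D ((1 : ℂ) ⊗ₜ[ℚ] w (Sum.inr l))) -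
        ex (A.om (w (Sum.inr l))) (XX A.basis D ((1 : ℂ) ⊗ₜ[ℚ] w (Sum.inl i)))) := by
  have ht : (tau : ℂ) ≠ 0 := AbVar.tau_ne
  apply mul_right_cancel₀ ht
  rw [Rat.smul_def, ex_om', ex_om']
  have e1 := ex_om (A := A) (w (Sum.inr l)) (lft A fun c => D (d.P (Sum.inl i) c))
  have e2 := ex_om (A := A) (w (Sum.inl i)) (lft A fun c => D (d.P (Sum.inr l) c))
  have e3 := ex_om (A := A) (w (Sum.inl i)) (XX A.basis D ((1 : ℂ) ⊗ₜ[ℚ] w (Sum.inr l)))
  have e4 := ex_om (A := A) (w (Sum.inr l)) (XX A.basis D ((1 : ℂ) ⊗ₜ[ℚ] w (Sum.inl i)))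
  simp only [etaL_lft, etaL_XX_one, A.coe_basis] at e1 e2 e3 e4
  have e5 : tD (fd w d) D i l * tau = D ((fd w d).ℓ i l) -
      ∑ k, ((fd w d).P (Sum.inr l) (Sum.inr k) * D ((fd w d).P (Sum.inl i) (Sum.inl k)) -
        (fd w d).P (Sum.inr l) (Sum.inl k) * D ((fd w d).P (Sum.inl i) (Sum.inr k))) :=
    div_mul_cancel₀ _ ht
  have e6 : tD d D i l * tau = D (d.ℓ i l) -
      ∑ k, (d.P (Sum.inr l) (Sum.inr k) * D (d.P (Sum.inl i) (Sum.inl k)) -
        d.P (Sum.inr l) (Sum.inl k) * D (d.P (Sum.inl i) (Sum.inr k))) :=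
    div_mul_cancel₀ _ ht
  have e7 : D ((fd w d).ℓ i l) = D (d.ℓ i l) -
      ∑ k, (D (d.P (Sum.inr l) (Sum.inr k)) * A.dR (Sum.inl k) (w (Sum.inl i)) +
        d.P (Sum.inr l) (Sum.inr k) * D (A.dR (Sum.inl k) (w (Sum.inl i))) -
        (D (d.P (Sum.inr l) (Sum.inl k)) * A.dR (Sum.inr k) (w (Sum.inl i)) +
        d.P (Sum.inr l) (Sum.inl k) * D (A.dR (Sum.inr k) (w (Sum.inl i))))) +
      (1 / 2 : ℂ) * ∑ k, (D (A.dR (Sum.inr k) (w (Sum.inr l))) * A.dR (Sum.inl k) (w (Sum.inl i)) +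
        A.dR (Sum.inr k) (w (Sum.inr l)) * D (A.dR (Sum.inl k) (w (Sum.inl i))) -
        (D (A.dR (Sum.inl k) (w (Sum.inr l))) * A.dR (Sum.inr k) (w (Sum.inl i)) +
        A.dR (Sum.inl k) (w (Sum.inr l)) * D (A.dR (Sum.inr k) (w (Sum.inl i))))) := by
    change D (d.ℓ i l - thd d A l (w (Sum.inl i)) +
      (1 / 2 : ℂ) * (((A.om (w (Sum.inr l)) (w (Sum.inl i)) : ℚ) : ℂ) * tau)) = _
    rw [om_tau, map_add, map_sub]
    have h2 : D (1 / 2 : ℂ) = 0 := by
      refine der_alg D ?_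
      have h3 : (1 / 2 : ℂ) = algebraMap ℚ ℂ (1 / 2) := by
        rw [map_div₀, map_one, map_ofNat]
      rw [h3]
      exact isAlgebraic_algebraMap _
    rw [Derivation.leibniz, h2, smul_zero, add_zero]
    unfold thd
    rw [map_sum, map_sum]
    simp only [map_sub, Derivation.leibniz, smul_eq_mul]
    congr 1
    · congr 1
      refine Finset.sum_congr rfl fun k _ => by ring
    · congr 1
      refine Finset.sum_congr rfl fun k _ => by ring
  rw [e5, e7]
  have e8 : ∀ p c, D ((fd w d).P p c) = D (d.P p c) - D (A.dR c (w p)) := fun p c => map_sub D _ _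
  have e9 : ∀ p c, (fd w d).P p c = d.P p c - A.dR c (w p) := fun p c => rfl
  simp only [e8]
  simp only [e9]
  have e10 : (tD d D i l + -(ex (A.om.flip (w (Sum.inr l))))
      (lft A fun c => D (d.P (Sum.inl i) c)) - ex (A.om.flip (w (Sum.inl i)))
      (lft A fun c => D (d.P (Sum.inr l) c)) + ((1 / 2 : ℚ) : ℂ) * (ex (A.om.flip (w (Sum.inl i)))
          (XX A.basis D ((1 : ℂ) ⊗ₜ[ℚ] w (Sum.inr l))) -
        -ex (A.om.flip (w (Sum.inr l))) (XX A.basis D ((1 : ℂ) ⊗ₜ[ℚ] w (Sum.inl i))))) * tau =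
      tD d D i l * tau - ex (A.om.flip (w (Sum.inr l)))
      (lft A fun c => D (d.P (Sum.inl i) c)) * tau - ex (A.om.flip (w (Sum.inl i)))
      (lft A fun c => D (d.P (Sum.inr l) c)) * tau + (1 / 2 : ℂ) *
        (ex (A.om.flip (w (Sum.inl i)))
          (XX A.basis D ((1 : ℂ) ⊗ₜ[ℚ] w (Sum.inr l))) * tau +
        ex (A.om.flip (w (Sum.inr l))) (XX A.basis D ((1 : ℂ) ⊗ₜ[ℚ] w (Sum.inl i))) * tau) := by
    push_cast
    ring
  rw [e10, e6, e1, e2, e3, e4]
  have hs : ∀ F G : Fin g → ℂ, ∑ k, (F k - G k) = ∑ k, F k - ∑ k, G k := fun F G =>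
    Finset.sum_sub_distrib _ _
  simp only [mul_sub, sub_mul, Finset.sum_sub_distrib, Finset.sum_add_distrib, mul_comm (D _)]
  ring

theorem LD_fd (D : Derivation QBar ℂ ℂ) (lam : ℂ →ₗ[ℚ] ℚ) :
    LD A (fd w d) D lam = cj w (LD A d D lam) := by
  refine Prod.ext rfl (Prod.ext rfl (Prod.ext ?_ ?_))
  · funext p
    rw [cj_z, op_LD, Pool.Agent.W516.DR.cmpE_apply]
    change Pool.Agent.W516.DR.cmp lam (lft A fun c => D (d.P p c - A.dR c (w p))) = _
    simp only [map_sub]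
    rw [lft_sub, map_sub, lft_D]
    rfl
  · funext i l
    rw [cj_t, op_LD, Pool.Agent.W516.DR.cmpE_apply, Pool.Agent.W516.DR.cmpE_apply]
    change lam (tD (fd w d) D i l) = _
    rw [tD_fd, map_add, map_sub, map_add, map_smul, map_sub, lam_ex, lam_ex, lam_ex, lam_ex,
      smul_eq_mul]
    rfl

theorem map_Lg (h : Lg 𝔤 d) : Lg (𝔤.map (cj w)) (fd w d) where
  na := by
    rintro _ ⟨L, hL, rfl⟩
    exact h.na L hL
  br := by
    rintro _ ⟨L, hL, rfl⟩ _ ⟨L', hL', rfl⟩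
    rw [← cj_br w (A.NA_skew (h.na L hL)) (A.NA_skew (h.na L' hL'))]
    exact ⟨_, h.br L hL L' hL', rfl⟩
  per := fun D lam => ⟨_, h.per D lam, (LD_fd w D lam).symm⟩

theorem cj_unip (z : (Fin n ⊕ Fin s) → A.H1) (t : Fin n → Fin s → ℚ) :
    cj w ((0, 0, z, t) : Tup A n s) = (0, 0, z, fun i l => t i l +
      A.om (w (Sum.inr l)) (z (Sum.inl i)) - A.om (z (Sum.inr l)) (w (Sum.inl i))) := by
  have h0 : op ((0, 0, z, t) : Tup A n s) = 0 := by
    unfold op
    rw [zero_smul, add_zero]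
  refine Prod.ext rfl (Prod.ext rfl (Prod.ext ?_ ?_))
  · funext p
    rw [cj_z, h0]
    simp
  · funext i l
    rw [cj_t, h0]
    simp

theorem cj_tt (t : Fin n → Fin s → ℚ) :
    cj w ((0, 0, 0, t) : Tup A n s) = ((0, 0, 0, t) : Tup A n s) := by
  rw [cj_unip]
  refine Prod.ext rfl (Prod.ext rfl (Prod.ext rfl ?_))
  funext i l
  simp

theorem tt_map : tt (𝔤.map (cj w)) = tt 𝔤 := by
  ext t
  rw [mem_tt, mem_tt]
  constructor
  · rintro ⟨L, hL, h1⟩
    have h2 : L = ((0, 0, 0, t) : Tup A n s) := cj_inj w (h1.trans (cj_tt w t).symm)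
    rwa [← h2]
  · intro h
    exact ⟨_, h, cj_tt w t⟩

theorem uu_map : uu (𝔤.map (cj w)) = uu 𝔤 := by
  ext z
  constructor
  · rintro ⟨t, L, hL, h1⟩
    have h2 : L.1 = 0 := congrArg (fun L : Tup A n s => L.1) h1
    have h3 : L.2.1 = 0 := congrArg (fun L : Tup A n s => L.2.1) h1
    have h4 : op L = 0 := by
      unfold op
      rw [h2, h3, zero_smul, add_zero]
    have h5 : L.2.2.1 = z := by
      funext p
      have h6 := congrFun (congrArg (fun L : Tup A n s => L.2.2.1) h1) p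
      change L.2.2.1 p - op L (w p) = z p at h6
      rwa [h4, LinearMap.zero_apply, sub_zero] at h6
    have h7 : ((0, 0, z, L.2.2.2) : Tup A n s) = L :=
      Prod.ext h2.symm (Prod.ext h3.symm (Prod.ext h5.symm rfl))
    exact ⟨L.2.2.2, by rw [h7]; exact hL⟩
  · rintro ⟨t, ht⟩
    exact ⟨_, _, ht, cj_unip w z t⟩

end Pool.Agent.R917.BX
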