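import Pool.Agent.R917.BX.Fn
import Pool.Agent.R917.OM.Vexp
import Pool.Agent.R917.OM.Spin

set_option autoImplicit false
set_option linter.unusedSectionVars false
set_option linter.unusedSimpArgs false

/-!
# The Hodge structure of a 1-motive is in the Lie algebra of the group
-/

open Module Function TensorProduct Matrix

noncomputable section

namespace Pool.Agent.R917.BX

open Pool.Agent.Y102 Pool.Agent.W516.DR Pool.Agent.H204R3.GP Pool.Agent.W516.KC
  Pool.Agent.H204R3.SP Pool.Agent.TH119.MX Pool.Agent.R917.OM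

variable {g : ℕ} {A : AbVarG g} {n s : ℕ} {d : Dt g n s}
  {H : Set (Matrix (RI g n s) (RI g n s) ℂ)}

/-- **The Hodge structure of the 1-motive is in the Lie algebra of the group.** -/
theorem hodge_stab2 (hpt : PtM A.toAbVar d H) (hd : Good A d)
    {K₁ : IntermediateField ℚ ℂ} [FiniteDimensional ℚ K₁]
    (hu : ∀ p (m : ℕ), IsRat A.toAbVar K₁ (m • pt d p))
    (hmin : ∀ 𝔥, A.toAbVar.Full 𝔥 → A.toAbVar.NA ≤ 𝔥)
    (hperf : A.toAbVar.NA ≤ Submodule.span ℚ {Z | ∃ X ∈ A.toAbVar.NA, ∃ Y ∈ A.toAbVar.NA,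
      Z = X * Y - Y * X}) :
    (∀ k, Stab H k (XJ A.toAbVar d)) ∧ ∀ k, Stab H k (XW A.toAbVar d) := by
  have hLg := gg_Lg hpt
  obtain ⟨u⟩ := main2 hLg hu
  obtain ⟨hNA, hW⟩ := lifts_of hLg (hmin _ hLg.full) hperf
  constructor
  · intro k
    refine stab_of_comp fun lam => ?_
    rw [← mt_tJ]
    exact (u.tJ_mem hLg hNA lam).2 k
  · intro k
    refine stab_of_comp fun lam => ?_
    rw [← mt_tW]
    exact (u.tW_mem hLg hd hW lam).2 k

end Pool.Agent.R917.BX
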