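import Pool.Agent.R917.BX.Lam

set_option autoImplicit false
set_option linter.unusedSectionVars false
set_option linter.unusedSimpArgs false

/-!
# The rational components of the Hodge structure
-/

open Module Function TensorProduct Matrix

noncomputable section

namespace Pool.Agent.R917.BX

open Pool.Agent.Y102 Pool.Agent.W516.DR Pool.Agent.H204R3.GP Pool.Agent.W516.KC
  Pool.Agent.H204R3.SP Pool.Agent.TH119.MX Pool.Agent.R917.OM

variable {g : ℕ} {A : AbVarG g} {n s : ℕ} {𝔤 : Submodule ℚ (Tup A.toAbVar n s)} {d : Dt g n s}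

namespace UD

variable (u : UD 𝔤 d)

/-- the rational constant -/
def kp (φ : (Fin n → Fin s → ℚ) →ₗ[ℚ] ℚ) : ℚ :=
  (1 / 2 : ℚ) * ∑ i, ∑ l, mm φ i l * A.om (u.w (Sum.inr l)) (u.w (Sum.inl i))

theorem term_eq (i : Fin n) (l : Fin s) :
    (1 / 2 : ℂ) * ∑ k, (u.Pn (Sum.inl i) (Sum.inr k) * (pt d - Pe u.w) (Sum.inr l) k +
        u.Pn (Sum.inr l) (Sum.inr k) * (pt d - Pe u.w) (Sum.inl i) k) + GG A d u.w i l =
      (fd (A := A.toAbVar) u.w d).ℓ i l -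
      (1 / 2 : ℂ) * ∑ k, (u.Pn (Sum.inr l) (Sum.inr k) * u.Pn (Sum.inl i) (Sum.inl k) -
        u.Pn (Sum.inr l) (Sum.inl k) * u.Pn (Sum.inl i) (Sum.inr k)) -
      ∑ k, (u.xi (Sum.inr l) (Sum.inr k) * u.PP (Sum.inl i) (Sum.inl k) -
        u.xi (Sum.inr l) (Sum.inl k) * u.PP (Sum.inl i) (Sum.inr k)) +
      (1 / 2 : ℂ) * (((A.om (u.w (Sum.inr l)) (u.w (Sum.inl i)) : ℚ) : ℂ) * tau) := by
  have hx : ∀ p k, u.xi p (Sum.inl k) = 0 := fun p k => congrFun (congrFun u.pr_xi p) k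
  have h1 : ∀ p k, u.Pn p (Sum.inr k) = d.P p (Sum.inr k) - A.eta (u.w p) k -
      u.xi p (Sum.inr k) := fun p k => rfl
  have h2 : ∀ p k, u.Pn p (Sum.inl k) = d.P p (Sum.inl k) - A.per (u.w p) k := by
    intro p k
    have h3 : u.Pn p (Sum.inl k) = d.P p (Sum.inl k) - A.per (u.w p) k -
      u.xi p (Sum.inl k) := rfl
    rw [h3, hx, sub_zero]
  have h4 : ∀ p k, u.PP p (Sum.inl k) = d.P p (Sum.inl k) - A.per (u.w p) k := fun p k => rfl
  have h5 : ∀ p k, u.PP p (Sum.inr k) = d.P p (Sum.inr k) - A.eta (u.w p) k := fun p k => rfl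
  have h6 : ∀ p k, (pt d - Pe u.w) p k = d.P p (Sum.inl k) - A.per (u.w p) k := fun p k => rfl
  have h7 : ∀ p k, pt d p k = d.P p (Sum.inl k) := fun p k => rfl
  have h8 : (fd (A := A.toAbVar) u.w d).ℓ i l = d.ℓ i l - thd d A.toAbVar l (u.w (Sum.inl i)) +
    (1 / 2 : ℂ) * (((A.om (u.w (Sum.inr l)) (u.w (Sum.inl i)) : ℚ) : ℂ) * tau) := rfl
  have h9 : (1 / 2 : ℂ) * ∑ k, (u.Pn (Sum.inl i) (Sum.inr k) * (pt d - Pe u.w) (Sum.inr l) k +
        u.Pn (Sum.inr l) (Sum.inr k) * (pt d - Pe u.w) (Sum.inl i) k) -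
        ∑ k, d.P (Sum.inr l) (Sum.inr k) * pt d (Sum.inl i) k +
      (∑ k, A.eta (u.w (Sum.inl i)) k * pt d (Sum.inr l) k +
      ∑ k, A.eta (u.w (Sum.inr l)) k * pt d (Sum.inl i) k -
      ∑ k, A.eta (u.w (Sum.inl i)) k * A.per (u.w (Sum.inr l)) k) +
      thd d A.toAbVar l (u.w (Sum.inl i)) +
      (1 / 2 : ℂ) * ∑ k, (u.Pn (Sum.inr l) (Sum.inr k) * u.Pn (Sum.inl i) (Sum.inl k) -
        u.Pn (Sum.inr l) (Sum.inl k) * u.Pn (Sum.inl i) (Sum.inr k)) +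
      ∑ k, (u.xi (Sum.inr l) (Sum.inr k) * u.PP (Sum.inl i) (Sum.inl k) -
        u.xi (Sum.inr l) (Sum.inl k) * u.PP (Sum.inl i) (Sum.inr k)) -
      ((A.om (u.w (Sum.inr l)) (u.w (Sum.inl i)) : ℚ) : ℂ) * tau = 0 := by
    have h10 : ((A.om (u.w (Sum.inr l)) (u.w (Sum.inl i)) : ℚ) : ℂ) * tau =
        ∑ k, (A.eta (u.w (Sum.inr l)) k * A.per (u.w (Sum.inl i)) k -
          A.per (u.w (Sum.inr l)) k * A.eta (u.w (Sum.inl i)) k) :=
      om_tau (A := A.toAbVar) _ _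
    have h11 : thd d A.toAbVar l (u.w (Sum.inl i)) =
        ∑ k, (d.P (Sum.inr l) (Sum.inr k) * A.per (u.w (Sum.inl i)) k -
          d.P (Sum.inr l) (Sum.inl k) * A.eta (u.w (Sum.inl i)) k) := rfl
    rw [h10, h11]
    simp only [Finset.mul_sum, ← Finset.sum_add_distrib, ← Finset.sum_sub_distrib]
    refine Finset.sum_eq_zero fun k _ => ?_
    simp only [h1, h2, h4, h5, h6, h7, hx]
    ring
  unfold GG
  rw [h8]
  linear_combination h9

theorem Lm_eq {φ : (Fin n → Fin s → ℚ) →ₗ[ℚ] ℚ} (hm : Sym 𝔤 (mC φ)) :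
    (1 / 2 : ℂ) * u.S (mC φ) (pt d - Pe u.w) (pt d - Pe u.w) +
      ∑ i, ∑ l, mC φ i l * GG A d u.w i l = u.Lm φ + (u.kp φ : ℂ) * tau := by
  have h1 := u.ps_eq hm u.Pn_mem u.pt_mem
  rw [u.pr_Pn] at h1
  rw [← h1]
  unfold ps Lm bh kp
  have h2 : (((1 / 2 : ℚ) * ∑ i, ∑ l, mm φ i l * A.om (u.w (Sum.inr l)) (u.w (Sum.inl i)) : ℚ) : ℂ) *
      tau = ∑ i, ∑ l, mC φ i l * ((1 / 2 : ℂ) *
        (((A.om (u.w (Sum.inr l)) (u.w (Sum.inl i)) : ℚ) : ℂ) * tau)) := by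
    push_cast
    rw [Finset.mul_sum, Finset.sum_mul]
    refine Finset.sum_congr rfl fun i _ => ?_
    rw [Finset.mul_sum, Finset.sum_mul]
    refine Finset.sum_congr rfl fun l _ => ?_
    unfold mC
    ring
  rw [h2]
  push_cast
  simp only [Finset.mul_sum (s := (Finset.univ : Finset (Fin n))),
    Finset.mul_sum (s := (Finset.univ : Finset (Fin s)))]
  simp only [← Finset.sum_add_distrib, ← Finset.sum_sub_distrib]
  refine Finset.sum_congr rfl fun i _ => Finset.sum_congr rfl fun l _ => ?_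
  have h3 := u.term_eq i l
  linear_combination (mC φ i l) * h3

/-- **The relation of logarithms.** -/
theorem Lm_rel (h : Lg 𝔤 d) (hd : Good A d) {φ : (Fin n → Fin s → ℚ) →ₗ[ℚ] ℚ}
    (hφ : ∀ t ∈ tt 𝔤, φ t = 0) {ρ : ℚ}
    (hρ : ∀ L ∈ 𝔤.map (cj u.w), φ L.2.2.2 = 2 * L.2.1 * ρ) : u.Lm φ = (ρ : ℂ) * tau := by
  classical
  have hm := sym_of_phi h hφ
  obtain ⟨x, hx⟩ := mem_of_derivation (u.D_Lm h hφ hρ)
  obtain ⟨α, hα⟩ : ∃ α : ℂ, α = u.Lm φ - (ρ : ℂ) * tau := ⟨_, rfl⟩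
  have hαa : IsAlgebraic ℚ α := by
    rw [hα, ← hx]
    exact QBar.alg x
  obtain ⟨N₁, M, hN₁, hM⟩ := exists_int (mm φ)
  have hMC : ∀ i l, (M i l : ℂ) = N₁ * mC φ i l := by
    intro i l
    have h1 := congrArg (fun q : ℚ => (q : ℂ)) (hM i l)
    push_cast at h1
    exact h1
  have hmM : Sym 𝔤 (fun i l => (M i l : ℂ)) := by
    intro x hx y hy
    have h1 := hm x hx y hy
    simp only [hMC, mul_assoc]
    simp only [← Finset.mul_sum]
    rw [h1]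
  obtain ⟨N, hN, hexp⟩ := u.exp_alg M hmM hd
  have hS : u.S (fun i l => (M i l : ℂ)) (pt d - Pe u.w) (pt d - Pe u.w) =
      N₁ * u.S (mC φ) (pt d - Pe u.w) (pt d - Pe u.w) := by
    unfold S ps
    simp only [hMC, mul_assoc]
    simp only [← Finset.mul_sum]
  have hG : ∑ i, ∑ l, (M i l : ℂ) * GG A d u.w i l =
      N₁ * ∑ i, ∑ l, mC φ i l * GG A d u.w i l := by
    simp only [hMC, mul_assoc]
    simp only [← Finset.mul_sum]
  rw [hS, hG] at hexp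
  obtain ⟨T, hT⟩ : ∃ T : ℕ, T = 2 * N ^ 2 * N₁ := ⟨_, rfl⟩
  have hT0 : (T : ℂ) ≠ 0 := by
    have h1 : T ≠ 0 := by
      rw [hT]
      positivity
    exact_mod_cast h1
  have he : (N : ℂ) ^ 2 * ((N₁ : ℂ) * u.S (mC φ) (pt d - Pe u.w) (pt d - Pe u.w) +
      2 * ((N₁ : ℂ) * ∑ i, ∑ l, mC φ i l * GG A d u.w i l)) =
      (T : ℂ) * (u.Lm φ + (u.kp φ : ℂ) * tau) := by
    rw [← u.Lm_eq hm, hT]
    push_cast
    ring
  rw [he] at hexp
  have h1 := log_zero (ι := Unit) (fun _ => (T : ℂ) * (u.Lm φ + (u.kp φ : ℂ) * tau))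
    (fun _ => hexp) (fun _ => 1) ((T : ℚ) * (ρ + u.kp φ)) (by
      have h2 : ∑ _i : Unit, (((1 : ℚ) : ℂ) * ((T : ℂ) * (u.Lm φ + (u.kp φ : ℂ) * tau))) -
          tau * (((T : ℚ) * (ρ + u.kp φ) : ℚ) : ℂ) = (T : ℂ) * α := by
        rw [hα]
        simp only [Finset.univ_unique, Finset.sum_singleton]
        push_cast
        ring
      rw [h2]
      exact (isAlgebraic_natCast (R := ℚ) (A := ℂ) T).mul hαa)
  have h2 : (T : ℂ) * (u.Lm φ - (ρ : ℂ) * tau) = 0 := by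
    simp only [Finset.univ_unique, Finset.sum_singleton] at h1
    push_cast at h1
    linear_combination h1
  exact sub_eq_zero.1 ((mul_eq_zero.1 h2).resolve_left hT0)

theorem hc_sum (A : AbVar g) (c : Fin g ⊕ Fin g) (y : Fin g → ℂ) :
    ∑ j, ((A.lam.repr y j : ℝ) : ℂ) * A.dR c (eb A j) = hc A c y := by
  conv_rhs => rw [← A.lam.sum_repr y]
  rw [map_sum]
  refine Finset.sum_congr rfl fun j _ => ?_
  rw [map_smul, ← per_ebA, hc_per, Complex.real_smul]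

theorem sum_kap (φ : (Fin n → Fin s → ℚ) →ₗ[ℚ] ℚ) :
    tau * ∑ i, ∑ l, mC φ i l * kap A.toAbVar (fd (A := A.toAbVar) u.w d) i l =
      ∑ i, ∑ l, mC φ i l * (fd (A := A.toAbVar) u.w d).ℓ i l -
        bh (mC φ) u.PP (ht A (pt d - Pe u.w)) := by
  have htau : (tau : ℂ) ≠ 0 := AbVar.tau_ne
  unfold bh
  rw [Finset.mul_sum, ← Finset.sum_sub_distrib]
  refine Finset.sum_congr rfl fun i _ => ?_
  rw [Finset.mul_sum, ← Finset.sum_sub_distrib]
  refine Finset.sum_congr rfl fun l _ => ?_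
  rw [← mul_sub, mul_left_comm]
  congr 1
  unfold kap
  rw [mul_div_cancel₀ _ htau]
  congr 1
  unfold thd
  simp only [Finset.mul_sum]
  rw [Finset.sum_comm]
  refine Finset.sum_congr rfl fun k _ => ?_
  have e1 := hc_sum A.toAbVar (Sum.inl k) ((pt d - Pe u.w) (Sum.inl i))
  have e2 := hc_sum A.toAbVar (Sum.inr k) ((pt d - Pe u.w) (Sum.inl i))
  have e3 : ht A (pt d - Pe u.w) (Sum.inl i) (Sum.inl k) =
      hc A.toAbVar (Sum.inl k) ((pt d - Pe u.w) (Sum.inl i)) := rfl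
  have e4 : ht A (pt d - Pe u.w) (Sum.inl i) (Sum.inr k) =
      hc A.toAbVar (Sum.inr k) ((pt d - Pe u.w) (Sum.inl i)) := rfl
  rw [e3, e4, ← e1, ← e2, Finset.mul_sum, Finset.mul_sum, ← Finset.sum_sub_distrib]
  refine Finset.sum_congr rfl fun j _ => ?_
  change ((A.lam.repr ((pt d - Pe u.w) (Sum.inl i)) j : ℝ) : ℂ) * _ = _
  change _ * (u.PP (Sum.inr l) (Sum.inr k) * _ - u.PP (Sum.inr l) (Sum.inl k) * _) = _
  ring

/-- The sum of the components of the weight. -/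
theorem sum_W {φ : (Fin n → Fin s → ℚ) →ₗ[ℚ] ℚ} (hm : Sym 𝔤 (mC φ)) {ρ : ℚ}
    (hL : u.Lm φ = (ρ : ℂ) * tau) :
    ∑ i, ∑ l, mC φ i l * ((A.E ((pt d - Pe u.w) (Sum.inr l)) ((pt d - Pe u.w) (Sum.inl i)) : ℝ) :
      ℂ) + 2 * ∑ i, ∑ l, mC φ i l * kap A.toAbVar (fd (A := A.toAbVar) u.w d) i l =
      2 * (ρ : ℂ) := by
  have htau : (tau : ℂ) ≠ 0 := AbVar.tau_ne
  apply mul_left_cancel₀ htau
  obtain ⟨x, hx⟩ : ∃ x : VX g n s, x = pt d - Pe u.w := ⟨_, rfl⟩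
  have hxW : x ∈ u.W := by
    rw [hx]
    exact u.pt_mem
  have h1 := bh_ht (A := A) (mC φ) x x
  have h2 := u.sum_kap φ
  rw [← hx] at h2 ⊢
  have e1 : bh (mC φ) u.PP (ht A x) = bh (mC φ) u.Pn (ht A x) + bh (mC φ) u.xi (ht A x) := by
    rw [← bh_add]
    congr 1
    unfold Pn
    abel
  have e2 : bh (mC φ) u.xi u.PP = bh (mC φ) u.xi (ht A x) := by
    have h3 : bh (mC φ) u.xi (u.PP + (-1 : ℂ) • ht A x) = 0 := by
      refine bh_pr_zero u.pr_xi ?_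
      rw [map_add, map_smul, pr_ht, pr_PP, hx, neg_one_smul, add_neg_cancel]
    rw [bh_add', bh_smul'] at h3
    linear_combination h3
  have e3 : bh (mC φ) (ht A x) (ht A x) + bh (mC φ) u.Pn u.Pn =
      2 * bh (mC φ) u.Pn (ht A x) := by
    have h4 : pr (ht A x + (-1 : ℂ) • u.Pn) = 0 := by
      rw [map_add, map_smul, pr_ht, pr_Pn, hx, neg_one_smul, add_neg_cancel]
    have h3 := bh_pr_zero (m := mC φ) h4 h4
    rw [bh_add, bh_add', bh_add', bh_smul, bh_smul', bh_smul, bh_smul',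
      bh_symm hm (u.ht_mem hxW) u.Pn_mem] at h3
    linear_combination h3
  have e4 : ∑ i, ∑ l, mC φ i l * (fd (A := A.toAbVar) u.w d).ℓ i l =
      (ρ : ℂ) * tau + (1 / 2 : ℂ) * bh (mC φ) u.Pn u.Pn + bh (mC φ) u.xi u.PP := by
    rw [← hL]
    unfold Lm
    push_cast
    ring
  rw [mul_add, mul_left_comm, h2, ← h1, e1, e4, e2]
  linear_combination e3

/-! ### Membership -/

theorem hBmap (h : Lg 𝔤 d) (φ : (Fin n → Fin s → ℚ) →ₗ[ℚ] ℚ)
    (hφ : ∀ t ∈ tt (𝔤.map (cj u.w)), φ t = 0) : ∀ L ∈ 𝔤.map (cj u.w), ∀ L' ∈ 𝔤.map (cj u.w),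
      φ (bb L.2.2.1 L'.2.2.1) = 0 := by
  rintro _ ⟨L, hL, rfl⟩ _ ⟨L', hL', rfl⟩
  refine hφ _ ?_
  rw [tt_map]
  exact bb_mem h (u.levi L hL) (u.levi L' hL')

theorem cmp_mem (r : ℝ →ₗ[ℚ] ℚ) {x : VX g n s} (hx : x ∈ u.W) :
    (fun p => A.cmp r (x p)) ∈ uu 𝔤 := by
  rw [← u.π0]
  funext p
  rw [u.fπ]
  simp only [sum_cmp u.fF]
  rw [← map_sum, u.mem_W.1 hx p, map_zero]
  rfl

include u in
/-- **The complex structure is in the Lie algebra.** -/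
theorem tJ_mem (h : Lg 𝔤 d) (hNA : ∀ X ∈ A.NA, ∃ L ∈ 𝔤, L.1 = X ∧ L.2.1 = 0)
    (lam : ℂ →ₗ[ℚ] ℚ) : tJ A.toAbVar d lam ∈ 𝔤 := by
  obtain ⟨L, hL, e1, e2⟩ := hNA _ (A.MA_le_NA (A.J_mem (fr lam)))
  have h1 : tJ A.toAbVar (fd u.w d) lam ∈ 𝔤.map (cj u.w) := by
    refine mem_of_parts' (map_Lg u.w h) (u.hBmap h) (L := cj u.w L) ⟨L, hL, rfl⟩ e1.symm e2.symm
      ?_ fun φ hφ ρ hρ => ?_
    · rw [uu_map]
      have h5 := u.levi L hL
      have h6 := u.cmp_mem (fr lam) (x := Complex.I • (pt d - Pe u.w))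
        (u.W.smul_mem _ u.pt_mem)
      have h7 := (uu 𝔤).sub_mem h6 h5
      exact h7
    · have h5 : (tJ A.toAbVar (fd u.w d) lam).2.1 = 0 := rfl
      rw [h5, mul_zero, zero_mul, phi_eq]
      have hm : Sym 𝔤 (mC φ) := sym_of_phi h fun t ht => hφ t (by rw [tt_map]; exact ht)
      have h6 := u.sum_E_I hm u.pt_mem
      have h7 := congrArg lam h6
      rw [map_zero, map_sum] at h7
      rw [← h7]
      refine Finset.sum_congr rfl fun i _ => ?_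
      rw [map_sum]
      refine Finset.sum_congr rfl fun l _ => ?_
      unfold mC
      rw [← Rat.smul_def, map_smul, smul_eq_mul]
      rfl
  obtain ⟨L', hL', h2⟩ := h1
  rw [← cj_tJ] at h2
  rw [← cj_inj u.w h2]
  exact hL'

include u in
/-- **The weight is in the Lie algebra.** -/
theorem tW_mem (h : Lg 𝔤 d) (hd : Good A d) (hW : ∃ L ∈ 𝔤, L.1 = 0 ∧ L.2.1 = 1)
    (lam : ℂ →ₗ[ℚ] ℚ) : tW A.toAbVar d lam ∈ 𝔤 := by
  obtain ⟨L₁, hL₁, e1', e2'⟩ := hW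
  obtain ⟨L, hLd⟩ : ∃ L : Tup A.toAbVar n s, L = fr lam 1 • L₁ := ⟨_, rfl⟩
  have hL : L ∈ 𝔤 := by
    rw [hLd]
    exact 𝔤.smul_mem _ hL₁
  have e1 : L.1 = 0 := by rw [hLd, Prod.smul_fst, e1', smul_zero]
  have e2 : L.2.1 = fr lam 1 := by
    rw [hLd, Prod.smul_snd, Prod.smul_fst, e2', smul_eq_mul, mul_one]
  have h1 : tW A.toAbVar (fd u.w d) lam ∈ 𝔤.map (cj u.w) := by
    refine mem_of_parts' (map_Lg u.w h) (u.hBmap h) (L := cj u.w L) ⟨L, hL, rfl⟩ e1.symm e2.symm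
      ?_ fun φ hφ ρ hρ => ?_
    · rw [uu_map]
      have h5 := u.levi L hL
      have h6 := u.cmp_mem (fr lam) u.pt_mem
      have h7 := (uu 𝔤).sub_mem h6 h5
      exact h7
    · have hφ' : ∀ t ∈ tt 𝔤, φ t = 0 := fun t ht => hφ t (by rw [tt_map]; exact ht)
      have hm : Sym 𝔤 (mC φ) := sym_of_phi h hφ'
      have hLm := u.Lm_rel h hd hφ' hρ
      have h6 := u.sum_W hm hLm
      have h5 : (tW A.toAbVar (fd u.w d) lam).2.1 = fr lam 1 := rfl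
      have h7 := congrArg lam h6
      have h8 : lam (2 * (ρ : ℂ)) = 2 * fr lam 1 * ρ := by
        have h9 : (2 * (ρ : ℂ)) = (2 * ρ) • (((1 : ℝ) : ℂ)) := by
          rw [Rat.smul_def, Complex.ofReal_one, mul_one]
          push_cast
          ring
        rw [h9, map_smul, smul_eq_mul, fr_apply]
        ring
      rw [h5, phi_eq, ← h8, ← h7, Finset.mul_sum, ← Finset.sum_add_distrib, map_sum]
      refine Finset.sum_congr rfl fun i _ => ?_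
      rw [Finset.mul_sum, ← Finset.sum_add_distrib, map_sum]
      refine Finset.sum_congr rfl fun l _ => ?_
      have h9 : mC φ i l * ((A.E ((pt d - Pe u.w) (Sum.inr l)) ((pt d - Pe u.w) (Sum.inl i)) : ℝ) :
          ℂ) + 2 * (mC φ i l * kap A.toAbVar (fd (A := A.toAbVar) u.w d) i l) =
          (mm φ i l) • ((A.E ((pt d - Pe u.w) (Sum.inr l)) ((pt d - Pe u.w) (Sum.inl i)) : ℝ) :
          ℂ) + (2 * mm φ i l) • kap A.toAbVar (fd (A := A.toAbVar) u.w d) i l := by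
        rw [Rat.smul_def, Rat.smul_def]
        unfold mC
        push_cast
        ring
      rw [h9, map_add, map_smul, map_smul, smul_eq_mul, smul_eq_mul]
      change mm φ i l * (fr lam (A.E (pt (fd u.w d) (Sum.inr l)) (pt (fd u.w d) (Sum.inl i))) +
        2 * lam (kap A.toAbVar (fd u.w d) i l)) = _
      rw [fr_apply]
      have h10 : ∀ p, pt (fd (A := A.toAbVar) u.w d) p = (pt d - Pe u.w) p := fun p => rfl
      rw [h10, h10]
      ring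
  obtain ⟨L', hL', h2⟩ := h1
  rw [← cj_tW] at h2
  rw [← cj_inj u.w h2]
  exact hL'

end UD

end Pool.Agent.R917.BX
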