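import Pool.Agent.Y102.SL
import Pool.Agent.Y102.Line

set_option autoImplicit false
set_option linter.unusedSectionVars false

/-!
# Functions with algebraic differential equations: jets
-/

open MvPolynomial Filter Topology

noncomputable section

namespace Pool.Agent.R917.BX

open Pool.Agent.W245.EB Pool.Agent.Y102

section jets

variable {n : ℕ} {V : Type} [Fintype V] [DecidableEq V]

/-- The derivation of the polynomial ring given by the differential equations. -/
def dv (δ : Fin n → V → MvPolynomial V ℂ) (j : Fin n) :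
    Derivation ℂ (MvPolynomial V ℂ) (MvPolynomial V ℂ) := mkDerivation ℂ (δ j)

theorem dv_X (δ : Fin n → V → MvPolynomial V ℂ) (j : Fin n) (p : V) : dv δ j (X p) = δ j p :=
  mkDerivation_X ℂ _ _

/-- The derivative of a polynomial in the functions. -/
theorem hasFDerivAt_eval (δ : Fin n → V → MvPolynomial V ℂ) (val : V → (Fin n → ℂ) → ℂ)
    {z : Fin n → ℂ} (han : ∀ p, AnalyticAt ℂ (val p) z)
    (hD : ∀ j p, fderiv ℂ (val p) z (Pi.single j 1) = eval (fun q => val q z) (δ j p))
    (G : MvPolynomial V ℂ) : AnalyticAt ℂ (fun z => eval (fun q => val q z) G) z ∧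
      ∀ j, fderiv ℂ (fun z => eval (fun q => val q z) G) z (Pi.single j 1) =
        eval (fun q => val q z) (dv δ j G) := by
  induction G using MvPolynomial.induction_on with
  | C a =>
    refine ⟨?_, fun j => ?_⟩
    · simp only [eval_C]
      exact analyticAt_const
    · simp only [eval_C]
      rw [fderiv_fun_const]
      have h1 : dv δ j (C a) = 0 := by
        rw [← algebraMap_eq, Derivation.map_algebraMap]
      rw [h1, map_zero]
      rfl
  | add p q hp hq =>
    refine ⟨?_, fun j => ?_⟩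
    · simp only [map_add]
      exact hp.1.add hq.1
    · simp only [map_add]
      rw [fderiv_fun_add hp.1.differentiableAt hq.1.differentiableAt, add_apply,
        hp.2 j, hq.2 j]
  | mul_X p i hp =>
    refine ⟨?_, fun j => ?_⟩
    · simp only [map_mul, eval_X]
      exact hp.1.mul (han i)
    · simp only [map_mul, eval_X]
      rw [fderiv_fun_mul hp.1.differentiableAt (han i).differentiableAt, Derivation.leibniz,
        dv_X, add_apply, smul_apply, smul_apply, hp.2 j, hD j i, map_add]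
      simp only [smul_eq_mul, map_mul, eval_X]

/-- The derivative in a direction. -/
def dvv (δ : Fin n → V → MvPolynomial V ℂ) (v : Fin n → ℂ) (G : MvPolynomial V ℂ) :
    MvPolynomial V ℂ := ∑ j, v j • dv δ j G

theorem fderiv_dir {f : (Fin n → ℂ) → ℂ} (z v : Fin n → ℂ) :
    fderiv ℂ f z v = ∑ j, v j * fderiv ℂ f z (Pi.single j 1) := by
  conv_lhs => rw [show v = ∑ j, v j • (Pi.single j 1 : Fin n → ℂ) from by
    funext i
    rw [Finset.sum_apply]
    simp [Pi.single_apply]]
  rw [map_sum]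
  exact Finset.sum_congr rfl fun j _ => by rw [map_smul, smul_eq_mul]

/-- Functions all of whose derivatives vanish at a point vanish. -/
theorem vanish (δ : Fin n → V → MvPolynomial V ℂ) (val : V → (Fin n → ℂ) → ℂ)
    {z₀ : Fin n → ℂ} {r : ℝ} (han : ∀ p, ∀ z ∈ Metric.ball z₀ r, AnalyticAt ℂ (val p) z)
    (hD : ∀ j p, ∀ z ∈ Metric.ball z₀ r,
      fderiv ℂ (val p) z (Pi.single j 1) = eval (fun q => val q z) (δ j p))
    (S : Submodule ℂ (MvPolynomial V ℂ)) (hS : ∀ G ∈ S, ∀ j, dv δ j G ∈ S)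
    (h0 : ∀ G ∈ S, eval (fun q => val q z₀) G = 0) {G : MvPolynomial V ℂ} (hG : G ∈ S)
    {z : Fin n → ℂ} (hz : z ∈ Metric.ball z₀ r) : eval (fun q => val q z) G = 0 := by
  obtain ⟨v, hv⟩ : ∃ v, v = z - z₀ := ⟨_, rfl⟩
  let L : ℂ → (Fin n → ℂ) := fun t => z₀ + t • v
  let W : Set ℂ := L ⁻¹' Metric.ball z₀ r
  have hLc : Continuous L := by fun_prop
  have hW : IsOpen W := Metric.isOpen_ball.preimage hLc
  have hLd : ∀ t, HasDerivAt L v t := by
    intro t
    have h1 : HasDerivAt (fun t : ℂ => t • v) ((1 : ℂ) • v) t :=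
      (hasDerivAt_id t).smul_const v
    rw [one_smul] at h1
    exact h1.const_add z₀
  have hLan : ∀ t, AnalyticAt ℂ L t := by
    intro t
    have h1 : Differentiable ℂ L := fun t => (hLd t).differentiableAt
    exact h1.analyticAt t
  let g : MvPolynomial V ℂ → ℂ → ℂ := fun G t => eval (fun q => val q (L t)) G
  have hgan : ∀ G, ∀ t ∈ W, AnalyticAt ℂ (g G) t := by
    intro G t ht
    exact AnalyticAt.comp (g := fun z => eval (fun q => val q z) G) (f := L)
      (hasFDerivAt_eval δ val (fun p => han p _ ht) (fun j p => hD j p _ ht) G).1 (hLan t)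
  have hgd : ∀ G, ∀ t ∈ W, deriv (g G) t = g (dvv δ v G) t := by
    intro G t ht
    obtain ⟨h1, h2⟩ := hasFDerivAt_eval δ val (fun p => han p _ ht) (fun j p => hD j p _ ht) G
    have h3 : HasDerivAt (g G) (fderiv ℂ (fun z => eval (fun q => val q z) G) (L t) v) t :=
      h1.differentiableAt.hasFDerivAt.comp_hasDerivAt t (hLd t)
    rw [h3.deriv, fderiv_dir]
    simp only [h2, g, dvv, map_sum, smul_eval]
  have hit : ∀ k : ℕ, ∀ G, ∀ t ∈ W, iteratedDeriv k (g G) t = g ((dvv δ v)^[k] G) t := by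
    intro k
    induction k with
    | zero => exact fun G t _ => by rw [iteratedDeriv_zero]; rfl
    | succ k ih =>
      intro G t ht
      rw [iteratedDeriv_succ, Function.iterate_succ_apply']
      have h1 : iteratedDeriv k (g G) =ᶠ[𝓝 t] g ((dvv δ v)^[k] G) := by
        filter_upwards [hW.mem_nhds ht] with t' ht'
        exact ih G t' ht'
      rw [h1.deriv_eq, hgd _ t ht]
  have hmem : ∀ k : ℕ, (dvv δ v)^[k] G ∈ S := by
    intro k
    induction k with
    | zero => exact hG
    | succ k ih =>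
      rw [Function.iterate_succ_apply']
      exact Submodule.sum_mem _ fun j _ => Submodule.smul_mem _ _ (hS _ ih j)
  have hz0 : z₀ ∈ Metric.ball z₀ r := by
    rw [Metric.mem_ball, dist_self]
    exact lt_of_le_of_lt dist_nonneg (Metric.mem_ball.1 hz)
  have hL0 : L 0 = z₀ := by simp [L]
  have hL1 : L 1 = z := by simp [L, hv]
  have h0W : (0 : ℂ) ∈ W := by
    change L 0 ∈ Metric.ball z₀ r
    rw [hL0]
    exact hz0
  have h1W : (1 : ℂ) ∈ W := by
    change L 1 ∈ Metric.ball z₀ r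
    rw [hL1]
    exact hz
  have hzero : ∀ᶠ t in 𝓝 (0 : ℂ), g G t = 0 := by
    rw [← analyticOrderAt_eq_top]
    refine ENat.eq_top_iff_forall_ge.2 fun m => ?_
    rw [natCast_le_analyticOrderAt_iff_iteratedDeriv_eq_zero (hgan G 0 h0W)]
    intro k _
    rw [hit k G 0 h0W]
    change eval (fun q => val q (L 0)) _ = 0
    rw [hL0]
    exact h0 _ (hmem k)
  have hWc : IsPreconnected W := by
    have h1 : Convex ℝ W := by
      have h2 : Convex ℝ (Metric.ball z₀ r) := convex_ball z₀ r
      intro a ha b hb s t hs ht hst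
      change L (s • a + t • b) ∈ Metric.ball z₀ r
      have h3 : L (s • a + t • b) = s • L a + t • L b := by
        simp only [L, smul_add]
        have h4 : z₀ = s • z₀ + t • z₀ := by rw [← add_smul, hst, one_smul]
        conv_lhs => rw [h4]
        rw [add_smul, smul_assoc, smul_assoc]
        abel
      rw [h3]
      exact h2 ha hb hs ht hst
    exact h1.isPreconnected
  have h2 := AnalyticOnNhd.eqOn_zero_of_preconnected_of_eventuallyEq_zero
    (f := g G) (fun t ht => hgan G t ht) hWc h0W hzero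
  have h3 := h2 h1W
  change eval (fun q => val q (L 1)) G = 0 at h3
  rwa [hL1] at h3

/-- The set of polynomials which vanish near a point is stable. -/
theorem dv_eventually (δ : Fin n → V → MvPolynomial V ℂ) (val : V → (Fin n → ℂ) → ℂ)
    {O : Set (Fin n → ℂ)} (hO : IsOpen O) (han : ∀ p, ∀ z ∈ O, AnalyticAt ℂ (val p) z)
    (hD : ∀ j p, ∀ z ∈ O,
      fderiv ℂ (val p) z (Pi.single j 1) = eval (fun q => val q z) (δ j p)) {z₀ : Fin n → ℂ}
    (hz₀ : z₀ ∈ O) {G : MvPolynomial V ℂ}
    (h : ∀ᶠ z in 𝓝 z₀, eval (fun q => val q z) G = 0) (j : Fin n) :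
    ∀ᶠ z in 𝓝 z₀, eval (fun q => val q z) (dv δ j G) = 0 := by
  filter_upwards [h.eventually_nhds, hO.mem_nhds hz₀] with z hz hzO
  rw [← (hasFDerivAt_eval δ val (fun p => han p z hzO) (fun j p => hD j p z hzO) G).2 j]
  have h1 : (fun z => eval (fun q => val q z) G) =ᶠ[𝓝 z] fun _ => (0 : ℂ) := hz
  rw [h1.fderiv_eq, fderiv_fun_const]
  rfl

/-- iterated derivatives -/
def dw (δ : Fin n → V → MvPolynomial V ℂ) : List (Fin n) →
    MvPolynomial V ℂ →ₗ[ℂ] MvPolynomial V ℂ
  | [] => LinearMap.id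
  | (j :: w) => (dw δ w).comp (dv δ j : MvPolynomial V ℂ →ₗ[ℂ] MvPolynomial V ℂ)

theorem dw_cons (δ : Fin n → V → MvPolynomial V ℂ) (j : Fin n) (w : List (Fin n))
    (G : MvPolynomial V ℂ) : dw δ (j :: w) G = dw δ w (dv δ j G) := rfl

/-- The polynomials all of whose derivatives vanish at a point. -/
def zs (δ : Fin n → V → MvPolynomial V ℂ) (x : V → ℂ) : Submodule ℂ (MvPolynomial V ℂ) where
  carrier := {G | ∀ w, eval x (dw δ w G) = 0}
  zero_mem' := fun w => by rw [map_zero, map_zero]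
  add_mem' := fun {G H} hG hH w => by rw [map_add, map_add, hG w, hH w, add_zero]
  smul_mem' := fun c G hG w => by rw [map_smul, smul_eval, hG w, mul_zero]

theorem zs_dv {δ : Fin n → V → MvPolynomial V ℂ} {x : V → ℂ} {G : MvPolynomial V ℂ}
    (hG : G ∈ zs δ x) (j : Fin n) : dv δ j G ∈ zs δ x := fun w => hG (j :: w)

theorem zs_eval {δ : Fin n → V → MvPolynomial V ℂ} {x : V → ℂ} {G : MvPolynomial V ℂ}
    (hG : G ∈ zs δ x) : eval x G = 0 := hG []

theorem mem_zs (δ : Fin n → V → MvPolynomial V ℂ) (val : V → (Fin n → ℂ) → ℂ)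
    {O : Set (Fin n → ℂ)} (hO : IsOpen O) (han : ∀ p, ∀ z ∈ O, AnalyticAt ℂ (val p) z)
    (hD : ∀ j p, ∀ z ∈ O,
      fderiv ℂ (val p) z (Pi.single j 1) = eval (fun q => val q z) (δ j p)) {z₀ : Fin n → ℂ}
    (hz₀ : z₀ ∈ O) {G : MvPolynomial V ℂ}
    (h : ∀ᶠ z in 𝓝 z₀, eval (fun q => val q z) G = 0) : G ∈ zs δ (fun q => val q z₀) := by
  intro w
  induction w generalizing G with
  | nil => exact h.self_of_nhds
  | cons j w ih =>
    rw [dw_cons]
    exact ih (dv_eventually δ val hO han hD hz₀ h j)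

theorem eventually_of_zs (δ : Fin n → V → MvPolynomial V ℂ) (val : V → (Fin n → ℂ) → ℂ)
    {z₀ : Fin n → ℂ} {r : ℝ} (han : ∀ p, ∀ z ∈ Metric.ball z₀ r, AnalyticAt ℂ (val p) z)
    (hD : ∀ j p, ∀ z ∈ Metric.ball z₀ r,
      fderiv ℂ (val p) z (Pi.single j 1) = eval (fun q => val q z) (δ j p))
    {G : MvPolynomial V ℂ} (hG : G ∈ zs δ (fun q => val q z₀)) {z : Fin n → ℂ}
    (hz : z ∈ Metric.ball z₀ r) : eval (fun q => val q z) G = 0 :=
  vanish δ val han hD (zs δ fun q => val q z₀) (fun _ hG j => zs_dv hG j)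
    (fun _ hG => zs_eval hG) hG hz

end jets

/-- the field of algebraic numbers -/
abbrev KA : Type := algebraicClosure ℚ ℂ

/-- Polynomials with algebraic coefficients. -/
def ac (V : Type) : Subring (MvPolynomial V ℂ) := (MvPolynomial.map (algebraMap KA ℂ)).range

theorem C_mem_ac {V : Type} {a : ℂ} (ha : IsAlgebraic ℚ a) : (C a : MvPolynomial V ℂ) ∈ ac V :=
  ⟨C ⟨a, mem_algebraicClosure_iff.2 ha⟩, by rw [map_C]; rfl⟩

theorem X_mem_ac {V : Type} (p : V) : (X p : MvPolynomial V ℂ) ∈ ac V := ⟨X p, map_X _ _⟩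

theorem mem_ac {V : Type} {G : MvPolynomial V ℂ} (h : ∀ m, IsAlgebraic ℚ (G.coeff m)) :
    G ∈ ac V := by
  rw [G.as_sum]
  refine sum_mem fun m _ => ?_
  refine ⟨monomial m ⟨G.coeff m, mem_algebraicClosure_iff.2 (h m)⟩, ?_⟩
  rw [map_monomial]
  rfl

theorem KA_alg (a : KA) : IsAlgebraic ℚ ((a : KA) : ℂ) := mem_algebraicClosure_iff.1 a.2

theorem ac_induction {V : Type} {P : MvPolynomial V ℂ → Prop}
    (h1 : ∀ a, IsAlgebraic ℚ a → P (C a))
    (h2 : ∀ G ∈ ac V, ∀ H ∈ ac V, P G → P H → P (G + H))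
    (h3 : ∀ G ∈ ac V, ∀ p, P G → P (G * X p)) {G : MvPolynomial V ℂ} (hG : G ∈ ac V) : P G := by
  obtain ⟨G, rfl⟩ := hG
  induction G using MvPolynomial.induction_on with
  | C a =>
    rw [map_C]
    exact h1 _ (KA_alg a)
  | add p q hp hq =>
    rw [map_add]
    exact h2 _ ⟨p, rfl⟩ _ ⟨q, rfl⟩ hp hq
  | mul_X p i hp =>
    rw [map_mul, map_X]
    exact h3 _ ⟨p, rfl⟩ _ hp

theorem rename_mem_ac {V V' : Type} (f : V → V') {G : MvPolynomial V ℂ} (hG : G ∈ ac V) :
    rename f G ∈ ac V' := by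
  refine ac_induction (P := fun G => rename f G ∈ ac V') (fun a ha => ?_) (fun G _ H _ h h' => ?_)
    (fun G _ p h => ?_) hG
  · rw [rename_C]
    exact C_mem_ac ha
  · rw [map_add]
    exact add_mem h h'
  · rw [map_mul, rename_X]
    exact mul_mem h (X_mem_ac _)

theorem eval_ac {V : Type} {x : V → ℂ} (hx : ∀ p, IsAlgebraic ℚ (x p)) {G : MvPolynomial V ℂ}
    (hG : G ∈ ac V) : IsAlgebraic ℚ (eval x G) := by
  refine ac_induction (P := fun G => IsAlgebraic ℚ (eval x G)) (fun a ha => ?_)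
    (fun G _ H _ h h' => ?_) (fun G _ p h => ?_) hG
  · rw [eval_C]
    exact ha
  · rw [map_add]
    exact h.add h'
  · rw [map_mul, eval_X]
    exact h.mul (hx p)

theorem dv_mem_ac {n : ℕ} {V : Type} [Fintype V] [DecidableEq V]
    {δ : Fin n → V → MvPolynomial V ℂ} (hδ : ∀ j p, δ j p ∈ ac V) (j : Fin n)
    {G : MvPolynomial V ℂ} (hG : G ∈ ac V) : dv δ j G ∈ ac V := by
  refine ac_induction (P := fun G => dv δ j G ∈ ac V) (fun a ha => ?_) (fun G _ H _ h h' => ?_)
    (fun G hG p h => ?_) hG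
  · have h1 : dv δ j (C a) = 0 := by
      rw [← algebraMap_eq, Derivation.map_algebraMap]
    rw [h1]
    exact zero_mem _
  · rw [map_add]
    exact add_mem h h'
  · rw [Derivation.leibniz, dv_X, smul_eq_mul, smul_eq_mul]
    exact add_mem (mul_mem hG (hδ j p)) (mul_mem (X_mem_ac p) h)

theorem dw_mem_ac {n : ℕ} {V : Type} [Fintype V] [DecidableEq V]
    {δ : Fin n → V → MvPolynomial V ℂ} (hδ : ∀ j p, δ j p ∈ ac V) (w : List (Fin n))
    {G : MvPolynomial V ℂ} (hG : G ∈ ac V) : dw δ w G ∈ ac V := by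
  induction w generalizing G with
  | nil => exact hG
  | cons j w ih =>
    rw [dw_cons]
    exact ih (dv_mem_ac hδ j hG)

/-- the substitution -/
def sb {V : Type} (t : ℂ) (y : V → ℂ) : Option V → ℂ
  | none => t
  | some j => y j

/-- A relation between algebraic numbers and a transcendental number. -/
theorem all_of_transcendental {V : Type} {x : V → ℂ} (hx : ∀ p, IsAlgebraic ℚ (x p)) {c : ℂ}
    (hc : ¬ IsAlgebraic ℚ c) {G : MvPolynomial (Option V) ℂ} (hG : G ∈ ac (Option V))
    (h : eval (sb c x) G = 0) (t : ℂ) : eval (sb t x) G = 0 := by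
  have key : ∃ q : Polynomial KA, ∀ t, eval (sb t x) G = (q.map (algebraMap KA ℂ)).eval t := by
    refine ac_induction (P := fun G => ∃ q : Polynomial KA, ∀ t, eval (sb t x) G =
      (q.map (algebraMap KA ℂ)).eval t) (fun a ha => ?_) (fun G _ H _ h h' => ?_)
      (fun G _ p h => ?_) hG
    · refine ⟨Polynomial.C ⟨a, mem_algebraicClosure_iff.2 ha⟩, fun t => ?_⟩
      rw [eval_C, Polynomial.map_C, Polynomial.eval_C]
      rfl
    · obtain ⟨q, hq⟩ := h
      obtain ⟨q', hq'⟩ := h'
      refine ⟨q + q', fun t => ?_⟩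
      rw [map_add, hq, hq', Polynomial.map_add, Polynomial.eval_add]
    · obtain ⟨q, hq⟩ := h
      rcases p with _ | p
      · refine ⟨q * Polynomial.X, fun t => ?_⟩
        rw [map_mul, hq, eval_X, Polynomial.map_mul, Polynomial.map_X, Polynomial.eval_mul,
          Polynomial.eval_X]
        rfl
      · refine ⟨q * Polynomial.C ⟨x p, mem_algebraicClosure_iff.2 (hx p)⟩, fun t => ?_⟩
        rw [map_mul, hq, eval_X, Polynomial.map_mul, Polynomial.map_C, Polynomial.eval_mul,
          Polynomial.eval_C]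
        rfl
  obtain ⟨q, hq⟩ := key
  have hq0 : q = 0 := by
    by_contra hne
    apply hc
    have h1 : IsAlgebraic KA c := ⟨q, hne, by
      rw [Polynomial.aeval_def, ← Polynomial.eval_map, ← hq, h]⟩
    have _ : Algebra.IsAlgebraic ℚ KA := algebraicClosure.isAlgebraic ℚ ℂ
    exact h1.restrictScalars ℚ
  rw [hq, hq0, Polynomial.map_zero, Polynomial.eval_zero]

end Pool.Agent.R917.BX
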