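import Pool.Agent.R917.OM.Hmem
import Pool.Agent.R917.BX.Cj

set_option autoImplicit false
set_option linter.unusedSectionVars false
set_option linter.unusedSimpArgs false

/-!
# The part of weight minus two in the adapted frame
-/

open Module Function TensorProduct Matrix

noncomputable section

namespace Pool.Agent.R917.BX

open Pool.Agent.Y102 Pool.Agent.W516.DR Pool.Agent.H204R3.GP Pool.Agent.W516.KC
  Pool.Agent.H204R3.SP Pool.Agent.TH119.MX Pool.Agent.R917.OM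

variable {g : ℕ} {A : AbVar g} {n s : ℕ} {𝔤 : Submodule ℚ (Tup A n s)} {d : Dt g n s}

/-- A functional which vanishes on the brackets vanishes on the unipotent part. -/
theorem phi_graded' (h : Lg 𝔤 d) {φ : (Fin n → Fin s → ℚ) →ₗ[ℚ] ℚ} (hφ : ∀ t ∈ tt 𝔤, φ t = 0)
    (hB : ∀ L ∈ 𝔤, ∀ L' ∈ 𝔤, φ (bb L.2.2.1 L'.2.2.1) = 0)
    {z : (Fin n ⊕ Fin s) → A.H1} {t : Fin n → Fin s → ℚ}
    (hz : ((0, 0, z, t) : Tup A n s) ∈ 𝔤) : φ t = 0 := by
  obtain ⟨Z, hZ, hc0, hcen⟩ := exists_central h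
  let T : uu 𝔤 →ₗ[ℚ] uu 𝔤 :=
    { toFun := fun z => ⟨(fun p => op Z (z.1 p)) - (2 * Z.2.1) • z.1,
        (uu 𝔤).sub_mem (uu_stable h hZ z.2) ((uu 𝔤).smul_mem _ z.2)⟩
      map_add' := fun z z' => by
        apply Subtype.ext
        funext p
        simp only [Submodule.coe_add, Pi.sub_apply, Pi.add_apply, Pi.smul_apply, map_add, smul_add]
        abel
      map_smul' := fun c z => by
        apply Subtype.ext
        funext p
        simp only [Submodule.coe_smul, Pi.sub_apply, Pi.smul_apply, map_smul, RingHom.id_apply,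
          smul_sub]
        rw [smul_comm (2 * Z.2.1) c] }
  have hTinj : Function.Injective T := by
    rw [injective_iff_map_eq_zero]
    intro z hz
    apply Subtype.ext
    funext p
    have h1 : op Z (z.1 p) - (2 * Z.2.1) • z.1 p = 0 := congrFun (congrArg Subtype.val hz) p
    refine inj_central h (Z := Z.1) ⟨Z, hZ, rfl⟩ (by
      rintro _ ⟨L, hL, rfl⟩
      exact hcen L hL) (neg_ne_zero.2 hc0) ?_
    have h2 : ∀ (a b : A.H1) (c : ℚ), a + c • b - (2 * c) • b = a + (-c) • b := by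
      intro a b c
      module
    rw [op_apply, h2] at h1
    exact h1
  obtain ⟨z1, hz1⟩ := (LinearMap.injective_iff_surjective.1 hTinj) ⟨z, t, hz⟩
  obtain ⟨t1, ht1⟩ := z1.2
  have hz2 : (fun p => op Z (z1.1 p)) - (2 * Z.2.1) • z1.1 = z := congrArg Subtype.val hz1
  have h2 := h.br Z hZ _ ht1
  have h3 := 𝔤.sub_mem h2 (𝔤.smul_mem (2 * Z.2.1) ht1)
  have h4 := 𝔤.sub_mem hz h3
  have h5 : t - bb Z.2.2.1 z1.1 ∈ tt 𝔤 := by
    rw [mem_tt]
    convert h4 using 1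
    refine Prod.ext ?_ (Prod.ext ?_ (Prod.ext ?_ ?_))
    · simp [OM.br]
    · simp [OM.br]
    · change (0 : (Fin n ⊕ Fin s) → A.H1) = z - ((fun p => op Z (z1.1 p) -
        op ((0, 0, z1.1, t1) : Tup A n s) (Z.2.2.1 p)) - (2 * Z.2.1) • z1.1)
      rw [← hz2]
      funext p
      simp [op]
    · funext i l
      simp only [OM.br, bb, Prod.snd_sub, Prod.smul_snd, Pi.sub_apply, Pi.smul_apply, smul_eq_mul]
      ring
  have h6 := hφ _ h5
  have h7 := hB Z hZ _ ht1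
  rw [map_sub, h7, sub_zero] at h6
  exact h6

/-- The values of such a functional. -/
theorem phi_levi' (h : Lg 𝔤 d) {φ : (Fin n → Fin s → ℚ) →ₗ[ℚ] ℚ} (hφ : ∀ t ∈ tt 𝔤, φ t = 0)
    (hB : ∀ L ∈ 𝔤, ∀ L' ∈ 𝔤, φ (bb L.2.2.1 L'.2.2.1) = 0) :
    ∃ ρ : ℚ, ∀ L ∈ 𝔤, φ L.2.2.2 = 2 * L.2.1 * ρ := by
  obtain ⟨Z, hZ, hc0, hcen⟩ := exists_central h
  refine ⟨φ Z.2.2.2 / (2 * Z.2.1), fun L hL => ?_⟩
  have h1 := h.br Z hZ L hL
  rw [br_levi (hcen L hL)] at h1
  have h2 := phi_graded' h hφ hB h1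
  have h3 : (fun i l => A.om (Z.2.2.1 (Sum.inr l)) (L.2.2.1 (Sum.inl i)) -
        A.om (L.2.2.1 (Sum.inr l)) (Z.2.2.1 (Sum.inl i)) + 2 * Z.2.1 * L.2.2.2 i l -
          2 * L.2.1 * Z.2.2.2 i l) =
      bb Z.2.2.1 L.2.2.1 + (2 * Z.2.1) • L.2.2.2 - (2 * L.2.1) • Z.2.2.2 := by
    funext i l
    simp [bb]
  rw [h3, map_sub, map_add, hB Z hZ L hL, map_smul, map_smul, smul_eq_mul,
    smul_eq_mul, zero_add, sub_eq_zero] at h2
  field_simp
  linear_combination (1 / 2 : ℚ) * h2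

/-- Membership. -/
theorem mem_of_parts' (h : Lg 𝔤 d)
    (hB : ∀ φ : (Fin n → Fin s → ℚ) →ₗ[ℚ] ℚ, (∀ t ∈ tt 𝔤, φ t = 0) → ∀ L ∈ 𝔤, ∀ L' ∈ 𝔤,
      φ (bb L.2.2.1 L'.2.2.1) = 0)
    {L L' : Tup A n s} (hL : L ∈ 𝔤) (e1 : L'.1 = L.1) (e2 : L'.2.1 = L.2.1)
    (hz : (fun p => L'.2.2.1 p - L.2.2.1 p) ∈ uu 𝔤)
    (ht : ∀ φ : (Fin n → Fin s → ℚ) →ₗ[ℚ] ℚ, (∀ t ∈ tt 𝔤, φ t = 0) → ∀ ρ : ℚ,
      (∀ L ∈ 𝔤, φ L.2.2.2 = 2 * L.2.1 * ρ) → φ L'.2.2.2 = 2 * L'.2.1 * ρ) : L' ∈ 𝔤 := by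
  obtain ⟨t', ht'⟩ := hz
  obtain ⟨L'', hL''⟩ : ∃ L'' : Tup A n s, L'' = L + (0, 0, fun p => L'.2.2.1 p - L.2.2.1 p, t') :=
    ⟨_, rfl⟩
  have h1 : L'' ∈ 𝔤 := by
    rw [hL'']
    exact 𝔤.add_mem hL ht'
  have f1 : L''.1 = L'.1 := by
    rw [hL'', Prod.fst_add, e1]
    exact add_zero _
  have f2 : L''.2.1 = L'.2.1 := by
    rw [hL'', Prod.snd_add, Prod.fst_add, e2]
    exact add_zero _
  have f3 : L''.2.2.1 = L'.2.2.1 := by
    rw [hL'', Prod.snd_add, Prod.snd_add, Prod.fst_add]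
    funext p
    rw [Pi.add_apply, add_sub_cancel]
  have h2 : L'.2.2.2 - L''.2.2.2 ∈ tt 𝔤 := by
    by_contra hcon
    obtain ⟨φ, hφ2, hφ1⟩ := Submodule.exists_le_ker_of_notMem hcon
    have h3 : ∀ t ∈ tt 𝔤, φ t = 0 := fun t ht => LinearMap.mem_ker.1 (hφ1 ht)
    obtain ⟨ρ, hρ⟩ := phi_levi' h h3 (hB φ h3)
    apply hφ2
    rw [map_sub, ht φ h3 ρ hρ, hρ L'' h1, f2, sub_self]
  have h3 := 𝔤.add_mem h1 (mem_tt.1 h2)
  convert h3 using 1
  refine Prod.ext ?_ (Prod.ext ?_ (Prod.ext ?_ ?_))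
  · rw [Prod.fst_add, f1]
    exact (add_zero _).symm
  · rw [Prod.snd_add, Prod.fst_add, f2]
    exact (add_zero _).symm
  · rw [Prod.snd_add, Prod.snd_add, Prod.fst_add, f3]
    exact (add_zero _).symm
  · rw [Prod.snd_add, Prod.snd_add, Prod.snd_add, add_sub_cancel]

/-! ### The components in the other frame -/

variable (w : (Fin n ⊕ Fin s) → A.H1)

theorem om_anti (x y : A.H1) : A.om x y = -A.om y x := by
  have h1 := A.om_pairing x y
  have h2 := A.om_pairing y x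
  have h3 : ((A.om x y : ℚ) : ℂ) = ((-A.om y x : ℚ) : ℂ) := by
    push_cast
    rw [h1, h2, ← neg_div, ← Finset.sum_neg_distrib]
    congr 1
    exact Finset.sum_congr rfl fun k _ => by ring
  exact_mod_cast h3

theorem om_cmp' (r : ℝ →ₗ[ℚ] ℚ) (v : A.H1) (x : Fin g → ℂ) :
    A.om v (A.cmp r x) = r (A.E (A.per v) x) := by
  rw [om_anti, AbVar.om_cmp, ← map_neg]
  congr 1
  exact (A.E_anti _ _).symm

theorem pt_fd (p : Fin n ⊕ Fin s) : pt (fd w d) p = pt d p - A.per (w p) := rfl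

theorem cj_tJ (lam : ℂ →ₗ[ℚ] ℚ) : cj w (tJ A d lam) = tJ A (fd w d) lam := by
  have hop : ∀ x, op (tJ A d lam) x = A.cmp (fr lam) (Complex.I • A.per x) := by
    intro x
    rw [op_apply]
    change A.cmpE (fr lam) AbVar.JJ x + (0 : ℚ) • x = _
    rw [zero_smul, add_zero, AbVar.cmpE_apply]
    rfl
  refine Prod.ext rfl (Prod.ext rfl (Prod.ext ?_ ?_))
  · funext p
    rw [cj_z, hop]
    change A.cmp (fr lam) (Complex.I • pt d p) - _ = A.cmp (fr lam) (Complex.I • pt (fd w d) p)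
    rw [pt_fd, smul_sub, map_sub]
  · funext i l
    rw [cj_t, hop, hop]
    change fr lam (A.E (Complex.I • pt d (Sum.inr l)) (pt d (Sum.inl i))) +
      A.om (w (Sum.inr l)) (A.cmp (fr lam) (Complex.I • pt d (Sum.inl i))) -
      A.om (A.cmp (fr lam) (Complex.I • pt d (Sum.inr l))) (w (Sum.inl i)) +
      (1 / 2 : ℚ) * (A.om (A.cmp (fr lam) (Complex.I • A.per (w (Sum.inr l)))) (w (Sum.inl i)) -
        A.om (w (Sum.inr l)) (A.cmp (fr lam) (Complex.I • A.per (w (Sum.inl i))))) =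
      fr lam (A.E (Complex.I • pt (fd w d) (Sum.inr l)) (pt (fd w d) (Sum.inl i)))
    rw [om_cmp', om_cmp', AbVar.om_cmp, AbVar.om_cmp, pt_fd, pt_fd]
    have e1 := (A.E_I (A.per (w (Sum.inr l))) (pt d (Sum.inl i))).2
    have e2 := (A.E_I (A.per (w (Sum.inr l))) (A.per (w (Sum.inl i)))).2
    simp only [smul_sub, map_sub, LinearMap.sub_apply]
    rw [e1, e2]
    simp only [map_neg]
    ring

theorem cj_tW (lam : ℂ →ₗ[ℚ] ℚ) : cj w (tW A d lam) = tW A (fd w d) lam := by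
  have hop : ∀ x, op (tW A d lam) x = fr lam 1 • x := by
    intro x
    rw [op_apply]
    change (0 : Module.End ℚ A.H1) x + fr lam 1 • x = _
    rw [LinearMap.zero_apply, zero_add]
  have h1 : ∀ x, A.cmp (fr lam) (A.per x) = fr lam 1 • x := by
    intro x
    have h8 := A.cmp_smul_per (fr lam) 1 x
    rwa [one_smul] at h8
  refine Prod.ext rfl (Prod.ext rfl (Prod.ext ?_ ?_))
  · funext p
    rw [cj_z, hop]
    change A.cmp (fr lam) (pt d p) - _ = A.cmp (fr lam) (pt (fd w d) p)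
    rw [pt_fd, map_sub, h1]
  · funext i l
    rw [cj_t, hop, hop]
    change (fr lam (A.E (pt d (Sum.inr l)) (pt d (Sum.inl i))) + 2 * lam (kap A d i l)) +
      A.om (w (Sum.inr l)) (A.cmp (fr lam) (pt d (Sum.inl i))) -
      A.om (A.cmp (fr lam) (pt d (Sum.inr l))) (w (Sum.inl i)) +
      (1 / 2 : ℚ) * (A.om (fr lam 1 • w (Sum.inr l)) (w (Sum.inl i)) -
        A.om (w (Sum.inr l)) (fr lam 1 • w (Sum.inl i))) =
      fr lam (A.E (pt (fd w d) (Sum.inr l)) (pt (fd w d) (Sum.inl i))) +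
        2 * lam (kap A (fd w d) i l)
    have hk : kap A (fd w d) i l = kap A d i l +
        ((A.E (A.per (w (Sum.inr l))) (pt d (Sum.inl i)) : ℝ) : ℂ) -
        (1 / 2 : ℚ) • ((A.om (w (Sum.inr l)) (w (Sum.inl i)) : ℚ) : ℂ) := by
      have ht : (tau : ℂ) ≠ 0 := AbVar.tau_ne
      have e1 : ∀ x, thd (fd w d) A l x = thd d A l x -
          ((A.om (w (Sum.inr l)) x : ℚ) : ℂ) * tau := by
        intro x
        rw [om_tau]
        unfold thd
        rw [← Finset.sum_sub_distrib]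
        refine Finset.sum_congr rfl fun k _ => ?_
        change (d.P (Sum.inr l) (Sum.inr k) - A.dR (Sum.inr k) (w (Sum.inr l))) *
          A.dR (Sum.inl k) x - (d.P (Sum.inr l) (Sum.inl k) - A.dR (Sum.inl k) (w (Sum.inr l))) *
          A.dR (Sum.inr k) x = _
        ring
      have e2 : ∀ (x : Fin g → ℂ) (y : A.H1),
          ∑ j, ((A.lam.repr x j : ℝ) : ℂ) * ((A.om y (eb A j) : ℚ) : ℂ) =
            ((A.E (A.per y) x : ℝ) : ℂ) := by
        intro x y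
        conv_rhs => rw [← A.lam.sum_repr x]
        rw [map_sum, Complex.ofReal_sum]
        refine Finset.sum_congr rfl fun j _ => ?_
        rw [map_smul, smul_eq_mul, Complex.ofReal_mul]
        congr 1
        have h3 := A.om_coe y (eb A j)
        rw [per_ebA] at h3
        rw [← h3]
        norm_cast
      have e3 : ∀ x : A.H1, ∑ j, ((A.lam.repr (A.per x) j : ℝ) : ℂ) * thd d A l (eb A j) =
          thd d A l x := by
        intro x
        have h3 := sum_thd (A := A) d l ((1 : ℂ) ⊗ₜ[ℚ] x)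
        simp only [etaL_tmul, one_mul, A.coe_basis] at h3
        unfold thd at h3 ⊢
        rw [← h3]
        refine Finset.sum_congr rfl fun j _ => ?_
        unfold crd
        rw [ex_tmul, one_mul, AbVar.repr_per]
        simp
      have e4 : ∀ x y : Fin g → ℂ, ∑ j, ((A.lam.repr (x - y) j : ℝ) : ℂ) *
          thd (fd w d) A l (eb A j) = ∑ j, ((A.lam.repr x j : ℝ) : ℂ) * thd d A l (eb A j) -
          ∑ j, ((A.lam.repr y j : ℝ) : ℂ) * thd d A l (eb A j) -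
          ((A.E (A.per (w (Sum.inr l))) x : ℝ) : ℂ) * tau +
          ((A.E (A.per (w (Sum.inr l))) y : ℝ) : ℂ) * tau := by
        intro x y
        rw [← e2, ← e2, Finset.sum_mul, Finset.sum_mul, ← Finset.sum_sub_distrib,
          ← Finset.sum_sub_distrib, ← Finset.sum_add_distrib]
        refine Finset.sum_congr rfl fun j _ => ?_
        rw [e1, map_sub, Finsupp.sub_apply]
        push_cast
        ring
      unfold kap
      rw [pt_fd, e4, e3]
      have e5 : A.E (A.per (w (Sum.inr l))) (A.per (w (Sum.inl i))) =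
          ((A.om (w (Sum.inr l)) (w (Sum.inl i)) : ℚ) : ℝ) := by
        rw [AbVar.om_coe]
      rw [e5]
      change (d.ℓ i l - thd d A l (w (Sum.inl i)) +
        (1 / 2 : ℂ) * (((A.om (w (Sum.inr l)) (w (Sum.inl i)) : ℚ) : ℂ) * tau) - _) / tau = _
      rw [Rat.smul_def]
      push_cast
      field_simp
      ring
    rw [hk, om_cmp', AbVar.om_cmp, pt_fd, pt_fd]
    simp only [map_sub, map_add, LinearMap.sub_apply, map_smul, LinearMap.smul_apply,
      smul_eq_mul]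
    have e6 : fr lam (A.E (A.per (w (Sum.inr l))) (A.per (w (Sum.inl i)))) =
        A.om (w (Sum.inr l)) (w (Sum.inl i)) * fr lam 1 := by
      rw [← AbVar.om_coe]
      have h3 : (((A.om (w (Sum.inr l)) (w (Sum.inl i)) : ℚ) : ℝ)) =
          (A.om (w (Sum.inr l)) (w (Sum.inl i))) • (1 : ℝ) := by
        rw [Rat.smul_def, mul_one]
      rw [h3, map_smul, smul_eq_mul]
    have e7 : lam ((A.om (w (Sum.inr l)) (w (Sum.inl i)) : ℚ) : ℂ) =
        A.om (w (Sum.inr l)) (w (Sum.inl i)) * fr lam 1 := by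
      have h3 : (((A.om (w (Sum.inr l)) (w (Sum.inl i)) : ℚ) : ℂ)) =
          (A.om (w (Sum.inr l)) (w (Sum.inl i))) • (((1 : ℝ) : ℂ)) := by
        rw [Rat.smul_def, Complex.ofReal_one, mul_one]
      rw [h3, map_smul, smul_eq_mul, fr_apply]
    have e8 : lam ((A.E (A.per (w (Sum.inr l))) (pt d (Sum.inl i)) : ℝ) : ℂ) =
        fr lam (A.E (A.per (w (Sum.inr l))) (pt d (Sum.inl i))) := rfl
    rw [e6, e7, e8]
    ring

end Pool.Agent.R917.BX
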