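import Pool.Agent.R917.BX.Pq
import Pool.Agent.R917.BX.Lie

set_option autoImplicit false
set_option linter.unusedSectionVars false
set_option linter.unusedSimpArgs false

/-!
# The relation of logarithms
-/

open Module Function TensorProduct Matrix

noncomputable section

namespace Pool.Agent.R917.BX

open Pool.Agent.Y102 Pool.Agent.W516.DR Pool.Agent.H204R3.GP Pool.Agent.W516.KC
  Pool.Agent.H204R3.SP Pool.Agent.TH119.MX Pool.Agent.R917.OM

/-! ### Real coordinates -/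

section real

variable {g : ℕ} (A : AbVar g)

/-- the real coordinates -/
def hc (c : Fin g ⊕ Fin g) : (Fin g → ℂ) →ₗ[ℝ] ℂ :=
  Sum.elim (fun k => (LinearMap.proj k : (Fin g → ℂ) →ₗ[ℝ] ℂ))
    (fun k => (LinearMap.proj k : (Fin g → ℂ) →ₗ[ℝ] ℂ).comp A.etaR) c

theorem hc_per (c : Fin g ⊕ Fin g) (x : A.H1) : hc A c (A.per x) = A.dR c x := by
  rcases c with k | k
  · rfl
  · change A.etaR (A.per x) k = _
    rw [AbVar.etaR_per]
    rfl

theorem etaL_bc2 {f : Module.End ℚ A.H1} {a : Fin g ⊕ Fin g → Fin g ⊕ Fin g → ℂ}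
    (hf : ∀ c x, A.dR c (f x) = ∑ c', a c c' * A.dR c' x) (c : Fin g ⊕ Fin g)
    (z : ℂ ⊗[ℚ] A.H1) : etaL A.basis c (f.baseChange ℂ z) =
      ∑ c', a c c' * etaL A.basis c' z := by
  induction z with
  | zero => simp only [map_zero, mul_zero, Finset.sum_const_zero]
  | add z z' h h' => simp only [map_add, mul_add, Finset.sum_add_distrib, h, h']
  | tmul t x =>
    rw [LinearMap.baseChange_tmul]
    simp only [etaL_tmul, A.coe_basis]
    rw [hf, Finset.mul_sum]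
    exact Finset.sum_congr rfl fun c' _ => by ring

end real

variable {g : ℕ} {A : AbVarG g} {n s : ℕ} {𝔤 : Submodule ℚ (Tup A.toAbVar n s)} {d : Dt g n s}

/-- the real lift -/
def ht (A : AbVarG g) (x : VX g n s) : VD g n s := fun p c => hc A.toAbVar c (x p)

theorem pr_ht (x : VX g n s) : pr (ht A x) = x := rfl

theorem bh_ht (m : Fin n → Fin s → ℂ) (x y : VX g n s) : bh m (ht A x) (ht A y) =
    tau * ∑ i, ∑ l, m i l * ((A.E (x (Sum.inr l)) (y (Sum.inl i)) : ℝ) : ℂ) := by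
  unfold bh
  rw [Finset.mul_sum]
  refine Finset.sum_congr rfl fun i _ => ?_
  rw [Finset.mul_sum]
  refine Finset.sum_congr rfl fun l _ => ?_
  have h2 : (2 * Real.pi * Complex.I : ℂ) = tau := rfl
  rw [A.E_coe, AbVar.riemannForm_eq, h2]
  have ht : (tau : ℂ) ≠ 0 := AbVar.tau_ne
  rw [mul_left_comm, mul_div_cancel₀ _ ht]
  congr 1
  refine Finset.sum_congr rfl fun k _ => ?_
  change A.etaR (x (Sum.inr l)) k * y (Sum.inl i) k -
    x (Sum.inr l) k * A.etaR (y (Sum.inl i)) k = _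
  ring

theorem bh_pr_zero {m : Fin n → Fin s → ℂ} {v v' : VD g n s} (h : pr v = 0) (h' : pr v' = 0) :
    bh m v v' = 0 := by
  unfold bh
  refine Finset.sum_eq_zero fun i _ => Finset.sum_eq_zero fun l _ => ?_
  have h1 : ∀ k, v (Sum.inr l) (Sum.inl k) = 0 := fun k => congrFun (congrFun h (Sum.inr l)) k
  have h2 : ∀ k, v' (Sum.inl i) (Sum.inl k) = 0 := fun k => congrFun (congrFun h' (Sum.inl i)) k
  simp only [h1, h2, mul_zero, zero_mul, sub_zero, Finset.sum_const_zero]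

/-- the coefficients -/
def mm (φ : (Fin n → Fin s → ℚ) →ₗ[ℚ] ℚ) (i : Fin n) (l : Fin s) : ℚ :=
  φ (Pi.single i (Pi.single l 1))

/-- the complex coefficients -/
def mC (φ : (Fin n → Fin s → ℚ) →ₗ[ℚ] ℚ) (i : Fin n) (l : Fin s) : ℂ := ((mm φ i l : ℚ) : ℂ)

theorem phi_eq (φ : (Fin n → Fin s → ℚ) →ₗ[ℚ] ℚ) (t : Fin n → Fin s → ℚ) :
    φ t = ∑ i, ∑ l, mm φ i l * t i l := functional_eq φ t

theorem sym_of_phi (h : Lg 𝔤 d) {φ : (Fin n → Fin s → ℚ) →ₗ[ℚ] ℚ} (hφ : ∀ t ∈ tt 𝔤, φ t = 0) :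
    Sym 𝔤 (mC φ) := by
  intro x hx y hy
  have h1 := hφ _ (bb_mem h hx hy)
  rw [phi_eq] at h1
  simp only [bb, mul_sub, Finset.sum_sub_distrib] at h1
  rw [sub_eq_zero] at h1
  have h2 := congrArg (fun q : ℚ => (q : ℂ)) h1
  push_cast at h2
  exact h2

/-- the derivative of coordinates -/
def Dv (D : Derivation QBar ℂ ℂ) (v : VD g n s) : VD g n s := fun p c => D (v p c)

theorem D_bh (D : Derivation QBar ℂ ℂ) (φ : (Fin n → Fin s → ℚ) →ₗ[ℚ] ℚ) (v v' : VD g n s) :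
    D (bh (mC φ) v v') = bh (mC φ) (Dv D v) v' + bh (mC φ) v (Dv D v') := by
  unfold bh
  rw [map_sum, ← Finset.sum_add_distrib]
  refine Finset.sum_congr rfl fun i _ => ?_
  rw [map_sum, ← Finset.sum_add_distrib]
  refine Finset.sum_congr rfl fun l _ => ?_
  unfold mC
  rw [der_rat_mul, ← mul_add, map_sum, ← Finset.sum_add_distrib]
  congr 1
  refine Finset.sum_congr rfl fun k _ => ?_
  rw [map_sub, Derivation.leibniz, Derivation.leibniz]
  simp only [smul_eq_mul, Dv]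
  ring

namespace UD

variable (u : UD 𝔤 d)

theorem a_hc (p q : Fin n ⊕ Fin s) (c : Fin g ⊕ Fin g) (y : Fin g → ℂ) :
    ∑ c', u.a p q c c' * hc A.toAbVar c' y = hc A.toAbVar c (u.F p q y) := by
  have h1 : (∑ c', u.a p q c c' • hc A.toAbVar c') =
      (hc A.toAbVar c).comp ((u.F p q).restrictScalars ℝ) := by
    refine A.ext_per fun x => ?_
    rw [LinearMap.sum_apply, LinearMap.comp_apply, LinearMap.restrictScalars_apply, ← u.fF,
      hc_per, u.fa]
    refine Finset.sum_congr rfl fun c' _ => ?_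
    rw [LinearMap.smul_apply, hc_per, smul_eq_mul]
  have h2 := congrArg (fun f => f y) h1
  simp only [LinearMap.sum_apply, LinearMap.smul_apply, smul_eq_mul, LinearMap.comp_apply,
    LinearMap.restrictScalars_apply] at h2
  exact h2

theorem ht_mem {x : VX g n s} (hx : x ∈ u.W) : ht A x ∈ RC 𝔤 := by
  rw [u.mem_RC]
  funext p c
  rw [aM_apply]
  unfold ht
  simp only [a_hc]
  rw [← map_sum, u.mem_W.1 hx p, map_zero]
  rfl

/-- the form is isotropic on the vectors `(I x, x)` -/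
theorem sum_E_I {φ : (Fin n → Fin s → ℚ) →ₗ[ℚ] ℚ} (hm : Sym 𝔤 (mC φ)) {x : VX g n s}
    (hx : x ∈ u.W) :
    ∑ i, ∑ l, mC φ i l * ((A.E (Complex.I • x (Sum.inr l)) (x (Sum.inl i)) : ℝ) : ℂ) = 0 := by
  have hIx : Complex.I • x ∈ u.W := u.W.smul_mem _ hx
  have h1 := bh_symm hm (u.ht_mem hIx) (u.ht_mem hx)
  rw [bh_ht, bh_ht] at h1
  have h2 := mul_left_cancel₀ AbVar.tau_ne h1
  have h3 : ∀ i l, mC φ i l * ((A.E (x (Sum.inr l)) ((Complex.I • x) (Sum.inl i)) : ℝ) : ℂ) =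
      -(mC φ i l * ((A.E (Complex.I • x (Sum.inr l)) (x (Sum.inl i)) : ℝ) : ℂ)) := by
    intro i l
    rw [Pi.smul_apply, (A.E_I _ _).2]
    push_cast
    ring
  simp only [h3, Finset.sum_neg_distrib] at h2
  have h4 : (∑ i, ∑ l, mC φ i l *
      ((A.E (Complex.I • x (Sum.inr l)) (x (Sum.inl i)) : ℝ) : ℂ)) =
      -(∑ i, ∑ l, mC φ i l *
      ((A.E (Complex.I • x (Sum.inr l)) (x (Sum.inl i)) : ℝ) : ℂ)) := h2
  exact self_eq_neg.1 h4

/-- the coordinates in the adapted frame -/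
def PP : VD g n s := (fd (A := A.toAbVar) u.w d).P

/-- the algebraic part -/
def xi : VD g n s := u.aM u.PP

/-- the part in the complex relation space -/
def Pn : VD g n s := u.PP - u.xi

theorem Pn_mem : u.Pn ∈ RC 𝔤 := u.sub_mem_RC _

theorem pr_PP : pr u.PP = pt d - Pe u.w := rfl

theorem pr_xi : pr u.xi = 0 := by
  funext p k
  unfold xi
  rw [pr_aM]
  have h1 := u.rel p
  have h2 : ∀ q, pr u.PP q = pt d q - A.per (u.w q) := fun q => rfl
  simp only [h2]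
  rw [h1]
  rfl

theorem pr_Pn : pr u.Pn = pt d - Pe u.w := by
  unfold Pn
  rw [map_sub, pr_xi, sub_zero, pr_PP]

theorem DP_mem (h : Lg 𝔤 d) (D : Derivation QBar ℂ ℂ) : Dv D u.PP ∈ RC 𝔤 := by
  rw [u.mem_RC]
  funext p c
  rw [aM_apply]
  have h1 : ∑ q, (u.f p q).baseChange ℂ (lft A.toAbVar (Dv D u.PP q)) = 0 := by
    apply eq_zero_of_cmp (k := ℚ)
    intro lam
    rw [map_sum]
    simp only [cmp_bc]
    have h2 : (fun q => Pool.Agent.W516.DR.cmp lam (lft A.toAbVar (Dv D u.PP q))) ∈ uu 𝔤 := by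
      have h3 := u.levi _ (h.per D lam)
      have h4 := congrArg (fun L : Tup A.toAbVar n s => L.2.2.1) (LD_fd (d := d) u.w D lam)
      have h5 : (fun q => Pool.Agent.W516.DR.cmp lam (lft A.toAbVar (Dv D u.PP q))) =
          (LD A.toAbVar (fd u.w d) D lam).2.2.1 := rfl
      rw [h5]
      rw [h4]
      exact h3
    have h3 := congrFun ((u.π0 _).2 h2) p
    rw [u.fπ] at h3
    exact h3
  have h2 := congrArg (etaL A.basis c) h1
  rw [map_sum, map_zero] at h2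
  change _ = (0 : ℂ)
  rw [← h2]
  refine Finset.sum_congr rfl fun q _ => ?_
  rw [etaL_bc2 A.toAbVar (u.fa p q)]
  simp only [etaL_lft]

theorem D_xi (h : Lg 𝔤 d) (D : Derivation QBar ℂ ℂ) : Dv D u.xi = 0 := by
  funext p c
  change D (u.aM u.PP p c) = 0
  have h1 := congrFun (congrFun (u.aM_RC (u.DP_mem h D)) p) c
  rw [aM_apply] at h1 ⊢
  rw [map_sum]
  change _ = (0 : ℂ) at h1
  rw [← h1]
  refine Finset.sum_congr rfl fun q _ => ?_
  rw [map_sum]
  refine Finset.sum_congr rfl fun c' _ => ?_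
  rw [Derivation.leibniz, der_alg D (u.aa p q c c'), smul_zero, add_zero, smul_eq_mul]
  rfl

theorem D_Pn (h : Lg 𝔤 d) (D : Derivation QBar ℂ ℂ) : Dv D u.Pn = Dv D u.PP := by
  funext p c
  change D (u.PP p c - u.xi p c) = D (u.PP p c)
  have h1 : D (u.xi p c) = 0 := congrFun (congrFun (u.D_xi h D) p) c
  rw [map_sub, h1, sub_zero]

/-- the logarithm -/
def Lm (φ : (Fin n → Fin s → ℚ) →ₗ[ℚ] ℚ) : ℂ :=
  ∑ i, ∑ l, mC φ i l * (fd (A := A.toAbVar) u.w d).ℓ i l -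
    (1 / 2 : ℚ) * bh (mC φ) u.Pn u.Pn - bh (mC φ) u.xi u.PP

theorem D_Lm (h : Lg 𝔤 d) {φ : (Fin n → Fin s → ℚ) →ₗ[ℚ] ℚ} (hφ : ∀ t ∈ tt 𝔤, φ t = 0) {ρ : ℚ}
    (hρ : ∀ L ∈ 𝔤.map (cj u.w), φ L.2.2.2 = 2 * L.2.1 * ρ) (D : Derivation QBar ℂ ℂ) :
    D (u.Lm φ - (ρ : ℂ) * tau) = 0 := by
  have htau : (tau : ℂ) ≠ 0 := AbVar.tau_ne
  have hm := sym_of_phi h hφ
  have h'' := map_Lg u.w h
  have h1 : ∀ lam : ℂ →ₗ[ℚ] ℚ, lam (∑ i, ∑ l, mC φ i l * tD (fd (A := A.toAbVar) u.w d) D i l -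
      (ρ : ℂ) * (D tau / tau)) = 0 := by
    intro lam
    have h2 := hρ _ (h''.per D lam)
    rw [phi_eq] at h2
    change ∑ i, ∑ l, mm φ i l * lam (tD (fd (A := A.toAbVar) u.w d) D i l) =
      2 * lam (D tau / (2 * tau)) * ρ at h2
    have h3 : 2 * lam (D tau / (2 * tau)) * ρ = lam ((ρ : ℂ) * (D tau / tau)) := by
      have h4 : (ρ : ℂ) * (D tau / tau) = (2 * ρ) • (D tau / (2 * tau)) := by
        rw [Rat.smul_def]
        push_cast
        field_simp
      rw [h4, map_smul, smul_eq_mul]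
      ring
    rw [map_sub, ← h3, ← h2, map_sum, sub_eq_zero]
    refine Finset.sum_congr rfl fun i _ => ?_
    rw [map_sum]
    refine Finset.sum_congr rfl fun l _ => ?_
    unfold mC
    rw [← Rat.smul_def, map_smul, smul_eq_mul]
  have h2 := eq_zero_of_dual h1
  have h3 : ∑ i, ∑ l, mC φ i l * tD (fd (A := A.toAbVar) u.w d) D i l =
      (∑ i, ∑ l, mC φ i l * D ((fd (A := A.toAbVar) u.w d).ℓ i l) -
        bh (mC φ) u.PP (Dv D u.PP)) / tau := by
    unfold bh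
    rw [← Finset.sum_sub_distrib, Finset.sum_div]
    refine Finset.sum_congr rfl fun i _ => ?_
    rw [← Finset.sum_sub_distrib, Finset.sum_div]
    refine Finset.sum_congr rfl fun l _ => ?_
    rw [← mul_sub, mul_div_assoc]
    rfl
  rw [h3, sub_eq_zero, div_eq_iff htau] at h2
  have h4 : D (u.Lm φ) = ∑ i, ∑ l, mC φ i l * D ((fd (A := A.toAbVar) u.w d).ℓ i l) -
      bh (mC φ) u.PP (Dv D u.PP) := by
    unfold Lm
    rw [map_sub, map_sub, der_rat_mul, D_bh, D_bh, u.D_xi h, u.D_Pn h, bh_zero,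
      bh_symm hm (u.DP_mem h D) u.Pn_mem]
    have h5 : D (∑ i, ∑ l, mC φ i l * (fd (A := A.toAbVar) u.w d).ℓ i l) =
        ∑ i, ∑ l, mC φ i l * D ((fd (A := A.toAbVar) u.w d).ℓ i l) := by
      rw [map_sum]
      refine Finset.sum_congr rfl fun i _ => ?_
      rw [map_sum]
      exact Finset.sum_congr rfl fun l _ => der_rat_mul D _ _
    have h6 : bh (mC φ) u.PP (Dv D u.PP) = bh (mC φ) u.Pn (Dv D u.PP) +
        bh (mC φ) u.xi (Dv D u.PP) := by
      rw [← bh_add]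
      congr 1
      unfold Pn
      abel
    rw [h5, h6]
    push_cast
    ring
  rw [map_sub, der_rat_mul, h4, h2]
  field_simp
  ring

end UD

end Pool.Agent.R917.BX
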