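import Pool.Agent.R917.OM.Vexp

set_option autoImplicit false
set_option linter.unusedSectionVars false
set_option linter.unusedSimpArgs false

/-!
# Groups of matrices which normalize a rational subspace
-/

open Module Function TensorProduct Matrix

noncomputable section

namespace Pool.Agent.R917.BX

open Pool.Agent.Y102 Pool.Agent.W516.DR Pool.Agent.H204R3.GP Pool.Agent.W516.KC
  Pool.Agent.H204R3.SP Pool.Agent.TH119.MX Pool.Agent.R917.OM

variable {B : Type} [Fintype B] [DecidableEq B]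

/-- the complexification -/
def cV (𝔲 : Submodule ℚ (Matrix B B ℚ)) : Submodule ℂ (Matrix B B ℂ) :=
  Submodule.span ℂ {Y | ∃ y ∈ 𝔲, Y = y.map (algebraMap ℚ ℂ)}

theorem functional_mat (φ : Matrix B B ℚ →ₗ[ℚ] ℚ) (y : Matrix B B ℚ) :
    φ y = ∑ i, ∑ j, φ (Matrix.single i j 1) * y i j := by
  conv_lhs => rw [Matrix.matrix_eq_sum_single y]
  rw [map_sum]
  refine Finset.sum_congr rfl fun i _ => ?_
  rw [map_sum]
  refine Finset.sum_congr rfl fun j _ => ?_
  have h1 : (Matrix.single i j (y i j) : Matrix B B ℚ) = y i j • Matrix.single i j 1 := by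
    rw [Matrix.smul_single, smul_eq_mul, mul_one]
  rw [h1, map_smul, smul_eq_mul, mul_comm]

theorem mem_cV {𝔲 : Submodule ℚ (Matrix B B ℚ)} {Y : Matrix B B ℂ} : Y ∈ cV 𝔲 ↔
    ∀ F : Matrix B B ℚ, (∀ y ∈ 𝔲, ∑ i, ∑ j, F i j * y i j = 0) →
      ∑ i, ∑ j, (F i j : ℂ) * Y i j = 0 := by
  constructor
  · intro hY F hF
    unfold cV at hY
    induction hY using Submodule.span_induction with
    | mem Y hY =>
      obtain ⟨y, hy, rfl⟩ := hY
      have h1 := congrArg (fun q : ℚ => (q : ℂ)) (hF y hy)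
      push_cast at h1
      exact h1
    | zero => simp
    | add Y Y' _ _ h h' =>
      simp only [Matrix.add_apply, mul_add, Finset.sum_add_distrib, h, h', add_zero]
    | smul c Y _ h =>
      have h1 : ∑ i, ∑ j, (F i j : ℂ) * (c • Y) i j = c * ∑ i, ∑ j, (F i j : ℂ) * Y i j := by
        rw [Finset.mul_sum]
        refine Finset.sum_congr rfl fun i _ => ?_
        rw [Finset.mul_sum]
        refine Finset.sum_congr rfl fun j _ => ?_
        rw [Matrix.smul_apply, smul_eq_mul]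
        ring
      rw [h1, h, mul_zero]
  · intro h
    obtain ⟨s, hs⟩ := exists_coordsC (fun p : B × B => Y p.1 p.2)
    have h1 : Y = ∑ b ∈ s, (Basis.ofVectorSpace ℚ ℂ b) •
        ((Matrix.of fun i j => (Basis.ofVectorSpace ℚ ℂ).coord b (Y i j) :
          Matrix B B ℚ).map (algebraMap ℚ ℂ)) := by
      ext i j
      rw [Matrix.sum_apply]
      have h2 := hs (i, j)
      simp only at h2
      rw [h2]
      refine Finset.sum_congr rfl fun b _ => ?_
      rw [Matrix.smul_apply, Matrix.map_apply, smul_eq_mul, mul_comm]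
      rfl
    rw [h1]
    refine Submodule.sum_mem _ fun b _ => Submodule.smul_mem _ _ (Submodule.subset_span
      ⟨_, ?_, rfl⟩)
    by_contra hcon
    obtain ⟨φ, hφ2, hφ1⟩ := Submodule.exists_le_ker_of_notMem hcon
    apply hφ2
    have h2 := h (Matrix.of fun i j => φ (Matrix.single i j 1)) (fun y hy => by
      have h3 := LinearMap.mem_ker.1 (hφ1 hy)
      rw [functional_mat] at h3
      exact h3)
    have h3 := congrArg ((Basis.ofVectorSpace ℚ ℂ).coord b) h2
    rw [map_zero, map_sum] at h3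
    rw [functional_mat, ← h3]
    refine Finset.sum_congr rfl fun i _ => ?_
    rw [map_sum]
    refine Finset.sum_congr rfl fun j _ => ?_
    rw [← Rat.smul_def, map_smul, smul_eq_mul]
    rfl

/-- The group of matrices which normalize the subspace and move `Z` by its elements. -/
def PG (V : Submodule ℂ (Matrix B B ℂ)) (Z : Matrix B B ℂ) : Subgroup (GL B ℂ) where
  carrier := {x | (∀ Y ∈ V, (x : Matrix B B ℂ) * Y * ((x⁻¹ : GL B ℂ) : Matrix B B ℂ) ∈ V) ∧
    (∀ Y ∈ V, ((x⁻¹ : GL B ℂ) : Matrix B B ℂ) * Y * (x : Matrix B B ℂ) ∈ V) ∧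
    (x : Matrix B B ℂ) * Z * ((x⁻¹ : GL B ℂ) : Matrix B B ℂ) - Z ∈ V}
  mul_mem' := by
    rintro x y ⟨h1, h2, h3⟩ ⟨h1', h2', h3'⟩
    refine ⟨fun Y hY => ?_, fun Y hY => ?_, ?_⟩
    · have h4 := h1 _ (h1' Y hY)
      rw [_root_.mul_inv_rev, Units.val_mul, Units.val_mul]
      simpa only [Matrix.mul_assoc] using h4
    · have h4 := h2' _ (h2 Y hY)
      rw [_root_.mul_inv_rev, Units.val_mul, Units.val_mul]
      simpa only [Matrix.mul_assoc] using h4
    · have h4 := V.add_mem (h1 _ h3') h3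
      rw [_root_.mul_inv_rev, Units.val_mul, Units.val_mul]
      have h5 : (x : Matrix B B ℂ) * y * Z * (((y⁻¹ : GL B ℂ) : Matrix B B ℂ) *
          ((x⁻¹ : GL B ℂ) : Matrix B B ℂ)) - Z =
          (x : Matrix B B ℂ) * ((y : Matrix B B ℂ) * Z * ((y⁻¹ : GL B ℂ) : Matrix B B ℂ) - Z) *
            ((x⁻¹ : GL B ℂ) : Matrix B B ℂ) +
          ((x : Matrix B B ℂ) * Z * ((x⁻¹ : GL B ℂ) : Matrix B B ℂ) - Z) := by
        rw [Matrix.mul_sub, Matrix.sub_mul]
        simp only [Matrix.mul_assoc]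
        abel
      rw [h5]
      exact h4
  one_mem' := by
    refine ⟨fun Y hY => ?_, fun Y hY => ?_, ?_⟩
    · simpa using hY
    · simpa using hY
    · simp
  inv_mem' := by
    rintro x ⟨h1, h2, h3⟩
    refine ⟨fun Y hY => ?_, fun Y hY => ?_, ?_⟩
    · rw [inv_inv]
      exact h2 Y hY
    · rw [inv_inv]
      exact h1 Y hY
    · rw [inv_inv]
      have h4 := V.neg_mem (h2 _ h3)
      have h5 : ((x⁻¹ : GL B ℂ) : Matrix B B ℂ) * (x : Matrix B B ℂ) = 1 := by
        rw [← Units.val_mul, inv_mul_cancel, Units.val_one]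
      have h6 : -(((x⁻¹ : GL B ℂ) : Matrix B B ℂ) * ((x : Matrix B B ℂ) * Z *
          ((x⁻¹ : GL B ℂ) : Matrix B B ℂ) - Z) * (x : Matrix B B ℂ)) =
          ((x⁻¹ : GL B ℂ) : Matrix B B ℂ) * Z * (x : Matrix B B ℂ) - Z := by
        rw [Matrix.mul_sub, Matrix.sub_mul, neg_sub]
        congr 1
        calc ((x⁻¹ : GL B ℂ) : Matrix B B ℂ) * ((x : Matrix B B ℂ) * Z *
              ((x⁻¹ : GL B ℂ) : Matrix B B ℂ)) * (x : Matrix B B ℂ) =
            (((x⁻¹ : GL B ℂ) : Matrix B B ℂ) * (x : Matrix B B ℂ)) * Z *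
              (((x⁻¹ : GL B ℂ) : Matrix B B ℂ) * (x : Matrix B B ℂ)) := by
              simp only [Matrix.mul_assoc]
          _ = Z := by rw [h5, Matrix.one_mul, Matrix.mul_one]
      rw [← h6]
      exact h4

/-- the matrix of variables -/
def XV (B : Type) : Matrix B B (MvPolynomial (B × B) ℚ) := Matrix.of fun i j =>
  MvPolynomial.X (i, j)

/-- a rational matrix, as a matrix of polynomials -/
def CC (y : Matrix B B ℚ) : Matrix B B (MvPolynomial (B × B) ℚ) := y.map MvPolynomial.C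

/-- the evaluation -/
def evx (x : Matrix B B ℂ) : MvPolynomial (B × B) ℚ →+* ℂ :=
  (MvPolynomial.aeval (R := ℚ) (fun b : B × B => x b.1 b.2)).toRingHom

theorem evx_XV (x : Matrix B B ℂ) : (evx x).mapMatrix (XV B) = x := by
  ext i j
  change MvPolynomial.aeval (R := ℚ) (fun b : B × B => x b.1 b.2) (MvPolynomial.X (i, j)) = _
  rw [MvPolynomial.aeval_X]

theorem evx_CC (x : Matrix B B ℂ) (y : Matrix B B ℚ) :
    (evx x).mapMatrix (CC y) = y.map (algebraMap ℚ ℂ) := by
  ext i j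
  change MvPolynomial.aeval (R := ℚ) (fun b : B × B => x b.1 b.2) (MvPolynomial.C (y i j)) = _
  rw [MvPolynomial.aeval_C]
  rfl

theorem evx_adj (x : Matrix B B ℂ) : (evx x).mapMatrix (XV B).adjugate = x.adjugate := by
  rw [RingHom.map_adjugate, evx_XV]

theorem evx_det (x : Matrix B B ℂ) : evx x (XV B).det = x.det := by
  rw [RingHom.map_det, evx_XV]

/-- the pairing -/
def pF (F : Matrix B B ℚ) (M : Matrix B B (MvPolynomial (B × B) ℚ)) :
    MvPolynomial (B × B) ℚ := ∑ i, ∑ j, MvPolynomial.C (F i j) * M i j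

theorem evx_pF (x : Matrix B B ℂ) (F : Matrix B B ℚ)
    (M : Matrix B B (MvPolynomial (B × B) ℚ)) :
    evx x (pF F M) = ∑ i, ∑ j, (F i j : ℂ) * (evx x).mapMatrix M i j := by
  unfold pF
  rw [map_sum]
  refine Finset.sum_congr rfl fun i _ => ?_
  rw [map_sum]
  refine Finset.sum_congr rfl fun j _ => ?_
  rw [map_mul]
  congr 1
  change MvPolynomial.aeval (R := ℚ) (fun b : B × B => x b.1 b.2) (MvPolynomial.C (F i j)) = _
  rw [MvPolynomial.aeval_C]
  rfl

theorem inv_adj (x : GL B ℂ) : (x : Matrix B B ℂ).adjugate =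
    (x : Matrix B B ℂ).det • ((x⁻¹ : GL B ℂ) : Matrix B B ℂ) := by
  have h5 : ((x⁻¹ : GL B ℂ) : Matrix B B ℂ) * (x : Matrix B B ℂ) = 1 := by
    rw [← Units.val_mul, inv_mul_cancel, Units.val_one]
  have h6 := Matrix.mul_adjugate (x : Matrix B B ℂ)
  calc (x : Matrix B B ℂ).adjugate = (((x⁻¹ : GL B ℂ) : Matrix B B ℂ) * (x : Matrix B B ℂ)) *
        (x : Matrix B B ℂ).adjugate := by rw [h5, Matrix.one_mul]
    _ = ((x⁻¹ : GL B ℂ) : Matrix B B ℂ) * ((x : Matrix B B ℂ).det • 1) := by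
      rw [Matrix.mul_assoc, h6]
    _ = _ := by rw [Matrix.mul_smul, Matrix.mul_one]

theorem det_ne (x : GL B ℂ) : (x : Matrix B B ℂ).det ≠ 0 :=
  (Matrix.GeneralLinearGroup.det x).ne_zero

/-- the equations -/
def eqs (𝔲 : Submodule ℚ (Matrix B B ℚ)) (z : Matrix B B ℚ) : Set (MvPolynomial (B × B) ℚ) :=
  {p | ∃ F : Matrix B B ℚ, (∀ y ∈ 𝔲, ∑ i, ∑ j, F i j * y i j = 0) ∧
    ((∃ y ∈ 𝔲, p = pF F (XV B * CC y * (XV B).adjugate) ∨
      p = pF F ((XV B).adjugate * CC y * XV B)) ∨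
      p = pF F (XV B * CC z * (XV B).adjugate - (XV B).det • CC z))}

/-- **The group is algebraic.** -/
theorem mem_PG (𝔲 : Submodule ℚ (Matrix B B ℚ)) (z : Matrix B B ℚ) (x : GL B ℂ) :
    x ∈ PG (cV 𝔲) (z.map (algebraMap ℚ ℂ)) ↔ ∀ p ∈ eqs 𝔲 z,
      MvPolynomial.aeval (fun b : B × B => (x : Matrix B B ℂ) b.1 b.2) p = 0 := by
  have hd := det_ne x
  have e1 : ∀ F y, evx (x : Matrix B B ℂ) (pF F (XV B * CC y * (XV B).adjugate)) =
      (x : Matrix B B ℂ).det * ∑ i, ∑ j, (F i j : ℂ) * ((x : Matrix B B ℂ) *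
        y.map (algebraMap ℚ ℂ) * ((x⁻¹ : GL B ℂ) : Matrix B B ℂ)) i j := by
    intro F y
    rw [evx_pF, map_mul, map_mul, evx_XV, evx_CC, evx_adj, inv_adj, Matrix.mul_smul,
      Finset.mul_sum]
    refine Finset.sum_congr rfl fun i _ => ?_
    rw [Finset.mul_sum]
    refine Finset.sum_congr rfl fun j _ => ?_
    rw [Matrix.smul_apply, smul_eq_mul]
    ring
  have e2 : ∀ F y, evx (x : Matrix B B ℂ) (pF F ((XV B).adjugate * CC y * XV B)) =
      (x : Matrix B B ℂ).det * ∑ i, ∑ j, (F i j : ℂ) * (((x⁻¹ : GL B ℂ) : Matrix B B ℂ) *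
        y.map (algebraMap ℚ ℂ) * (x : Matrix B B ℂ)) i j := by
    intro F y
    rw [evx_pF, map_mul, map_mul, evx_XV, evx_CC, evx_adj, inv_adj, Matrix.smul_mul,
      Matrix.smul_mul, Finset.mul_sum]
    refine Finset.sum_congr rfl fun i _ => ?_
    rw [Finset.mul_sum]
    refine Finset.sum_congr rfl fun j _ => ?_
    rw [Matrix.smul_apply, smul_eq_mul]
    ring
  have e3 : ∀ F, evx (x : Matrix B B ℂ) (pF F (XV B * CC z * (XV B).adjugate -
      (XV B).det • CC z)) = (x : Matrix B B ℂ).det * ∑ i, ∑ j, (F i j : ℂ) *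
        ((x : Matrix B B ℂ) * z.map (algebraMap ℚ ℂ) * ((x⁻¹ : GL B ℂ) : Matrix B B ℂ) -
          z.map (algebraMap ℚ ℂ)) i j := by
    intro F
    have h7 : (evx (x : Matrix B B ℂ)).mapMatrix ((XV B).det • CC z) =
        (x : Matrix B B ℂ).det • z.map (algebraMap ℚ ℂ) := by
      have h8 : (XV B).det • CC z = (Matrix.scalar B (XV B).det) * CC z := by
        rw [Matrix.scalar_apply, ← Matrix.smul_eq_diagonal_mul]
      rw [h8, map_mul, evx_CC]
      have h9 : (evx (x : Matrix B B ℂ)).mapMatrix (Matrix.scalar B (XV B).det) =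
          Matrix.scalar B (x : Matrix B B ℂ).det := by
        ext i j
        rw [RingHom.mapMatrix_apply, Matrix.map_apply, Matrix.scalar_apply, Matrix.scalar_apply,
          Matrix.diagonal_apply, Matrix.diagonal_apply]
        split_ifs
        · exact evx_det _
        · exact map_zero _
      rw [h9, Matrix.scalar_apply, ← Matrix.smul_eq_diagonal_mul]
    rw [evx_pF, map_sub, h7, map_mul, map_mul, evx_XV, evx_CC, evx_adj, inv_adj, Matrix.mul_smul,
      ← smul_sub, Finset.mul_sum]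
    refine Finset.sum_congr rfl fun i _ => ?_
    rw [Finset.mul_sum]
    refine Finset.sum_congr rfl fun j _ => ?_
    rw [Matrix.smul_apply, smul_eq_mul]
    ring
  constructor
  · rintro ⟨h1, h2, h3⟩ p ⟨F, hF, (⟨y, hy, (rfl | rfl)⟩ | rfl)⟩
    · change evx (x : Matrix B B ℂ) _ = 0
      rw [e1, mem_cV.1 (h1 _ (Submodule.subset_span ⟨y, hy, rfl⟩)) F hF, mul_zero]
    · change evx (x : Matrix B B ℂ) _ = 0
      rw [e2, mem_cV.1 (h2 _ (Submodule.subset_span ⟨y, hy, rfl⟩)) F hF, mul_zero]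
    · change evx (x : Matrix B B ℂ) _ = 0
      rw [e3, mem_cV.1 h3 F hF, mul_zero]
  · intro h
    have key : ∀ (M N : Matrix B B ℂ), (∀ y ∈ 𝔲, M * y.map (algebraMap ℚ ℂ) * N ∈ cV 𝔲) →
        ∀ Y ∈ cV 𝔲, M * Y * N ∈ cV 𝔲 := by
      intro M N hMN Y hY
      unfold cV at hY
      induction hY using Submodule.span_induction with
      | mem Y hY =>
        obtain ⟨y, hy, rfl⟩ := hY
        exact hMN y hy
      | zero =>
        rw [Matrix.mul_zero, Matrix.zero_mul]
        exact Submodule.zero_mem _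
      | add Y Y' _ _ h h' =>
        rw [Matrix.mul_add, Matrix.add_mul]
        exact Submodule.add_mem _ h h'
      | smul c Y _ h =>
        rw [Matrix.mul_smul, Matrix.smul_mul]
        exact Submodule.smul_mem _ _ h
    refine ⟨key _ _ fun y hy => ?_, key _ _ fun y hy => ?_, ?_⟩
    · rw [mem_cV]
      intro F hF
      have h1 : evx (x : Matrix B B ℂ) _ = 0 := h _ ⟨F, hF, Or.inl ⟨y, hy, Or.inl rfl⟩⟩
      rw [e1] at h1
      exact (mul_eq_zero.1 h1).resolve_left hd
    · rw [mem_cV]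
      intro F hF
      have h1 : evx (x : Matrix B B ℂ) _ = 0 := h _ ⟨F, hF, Or.inl ⟨y, hy, Or.inr rfl⟩⟩
      rw [e2] at h1
      exact (mul_eq_zero.1 h1).resolve_left hd
    · rw [mem_cV]
      intro F hF
      have h1 : evx (x : Matrix B B ℂ) _ = 0 := h _ ⟨F, hF, Or.inr rfl⟩
      rw [e3] at h1
      exact (mul_eq_zero.1 h1).resolve_left hd

end Pool.Agent.R917.BX
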