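import Pool.Agent.R917.BX.Rel2
import Pool.Agent.R917.BX.Cj

set_option autoImplicit false
set_option linter.unusedSectionVars false
set_option linter.unusedSimpArgs false

/-!
# Symmetric forms on the space of relations
-/

open Module Function TensorProduct Matrix

noncomputable section

namespace Pool.Agent.R917.BX

open Pool.Agent.Y102 Pool.Agent.W516.DR Pool.Agent.H204R3.GP Pool.Agent.W516.KC
  Pool.Agent.H204R3.SP Pool.Agent.TH119.MX Pool.Agent.R917.OM

/-- the de Rham side of a power of the homology -/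
abbrev VD (g n s : ℕ) : Type := (Fin n ⊕ Fin s) → (Fin g ⊕ Fin g) → ℂ

/-- the tangent space of the power -/
abbrev VX (g n s : ℕ) : Type := (Fin n ⊕ Fin s) → Fin g → ℂ

variable {g : ℕ} {A : AbVarG g} {n s : ℕ} {𝔤 : Submodule ℚ (Tup A.toAbVar n s)} {d : Dt g n s}

/-- the de Rham coordinates -/
def dRv (x : (Fin n ⊕ Fin s) → A.H1) : VD g n s := fun p c => A.dR c (x p)

/-- the complex relation space -/
def RC (𝔤 : Submodule ℚ (Tup A.toAbVar n s)) : Submodule ℂ (VD g n s) :=
  Submodule.span ℂ {v | ∃ x ∈ uu 𝔤, v = dRv x}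

/-- the tangent part -/
def pr : VD g n s →ₗ[ℂ] VX g n s where
  toFun v p k := v p (Sum.inl k)
  map_add' _ _ := rfl
  map_smul' _ _ := rfl

theorem pr_apply (v : VD g n s) (p : Fin n ⊕ Fin s) (k : Fin g) : pr v p k = v p (Sum.inl k) := rfl

/-- the inclusion -/
def io : VX g n s →ₗ[ℂ] VD g n s where
  toFun x p := Sum.elim (x p) 0
  map_add' x y := by
    funext p c
    rcases c with k | k <;> simp
  map_smul' t x := by
    funext p c
    rcases c with k | k <;> simp

/-- The de Rham coordinates span. -/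
theorem span_dRv (v : VD g n s) : v ∈ Submodule.span ℂ (Set.range (dRv (A := A) (n := n) (s := s)))
    := by
  classical
  have h1 : v = ∑ p, ∑ j, (crd (A := A.toAbVar) j (lft A.toAbVar (v p))) •
      dRv (A := A) (n := n) (s := s) (Pi.single p (eb A.toAbVar j)) := by
    funext p c
    rw [Finset.sum_apply, Finset.sum_apply, Finset.sum_eq_single p]
    · rw [Finset.sum_apply, Finset.sum_apply]
      have h2 := sum_crd (A := A.toAbVar) c (lft A.toAbVar (v p))
      rw [etaL_lft] at h2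
      rw [← h2]
      refine Finset.sum_congr rfl fun j _ => ?_
      simp [dRv]
    · intro q _ hq
      rw [Finset.sum_apply, Finset.sum_apply]
      refine Finset.sum_eq_zero fun j _ => ?_
      simp [dRv, Pi.single_eq_of_ne hq.symm]
    · intro hp
      exact absurd (Finset.mem_univ _) hp
  rw [h1]
  exact Submodule.sum_mem _ fun p _ => Submodule.sum_mem _ fun j _ =>
    Submodule.smul_mem _ _ (Submodule.subset_span ⟨_, rfl⟩)

namespace UD

variable (u : UD 𝔤 d)

/-- the projector on the de Rham side -/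
def aM : VD g n s →ₗ[ℂ] VD g n s where
  toFun v p c := ∑ q, ∑ c', u.a p q c c' * v q c'
  map_add' v v' := by
    funext p c
    simp only [Pi.add_apply, mul_add, Finset.sum_add_distrib]
  map_smul' t v := by
    funext p c
    simp only [Pi.smul_apply, smul_eq_mul, RingHom.id_apply, Finset.mul_sum]
    refine Finset.sum_congr rfl fun q _ => Finset.sum_congr rfl fun c' _ => ?_
    ring

theorem aM_apply (v : VD g n s) (p : Fin n ⊕ Fin s) (c : Fin g ⊕ Fin g) :
    u.aM v p c = ∑ q, ∑ c', u.a p q c c' * v q c' := rfl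

theorem aM_dRv (x : (Fin n ⊕ Fin s) → A.H1) : u.aM (dRv x) = dRv (u.π x) := by
  funext p c
  rw [aM_apply]
  unfold dRv
  rw [u.fπ, map_sum]
  exact Finset.sum_congr rfl fun q _ => (u.fa p q c (x q)).symm

theorem sub_mem_RC (v : VD g n s) : v - u.aM v ∈ RC 𝔤 := by
  have h1 := span_dRv (A := A) v
  induction h1 using Submodule.span_induction with
  | mem v hv =>
    obtain ⟨x, rfl⟩ := hv
    rw [aM_dRv]
    refine Submodule.subset_span ⟨x - u.π x, ?_, ?_⟩
    · rw [← u.π0, map_sub, u.π2, sub_self]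
    · funext p c
      exact (map_sub (A.dR c) _ _).symm
  | zero =>
    rw [map_zero, sub_zero]
    exact Submodule.zero_mem _
  | add v v' _ _ hv hv' =>
    have h2 : v + v' - u.aM (v + v') = (v - u.aM v) + (v' - u.aM v') := by
      rw [map_add]
      abel
    rw [h2]
    exact Submodule.add_mem _ hv hv'
  | smul t v _ hv =>
    rw [map_smul, ← smul_sub]
    exact Submodule.smul_mem _ _ hv

theorem aM_RC {v : VD g n s} (hv : v ∈ RC 𝔤) : u.aM v = 0 := by
  unfold RC at hv
  induction hv using Submodule.span_induction with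
  | mem v hv =>
    obtain ⟨x, hx, rfl⟩ := hv
    rw [aM_dRv, (u.π0 x).2 hx]
    funext p c
    exact map_zero _
  | zero => exact map_zero _
  | add v v' _ _ hv hv' => rw [map_add, hv, hv', add_zero]
  | smul t v _ hv => rw [map_smul, hv, smul_zero]

theorem mem_RC {v : VD g n s} : v ∈ RC 𝔤 ↔ u.aM v = 0 := by
  refine ⟨u.aM_RC, fun h => ?_⟩
  have h1 := u.sub_mem_RC v
  rwa [h, sub_zero] at h1

theorem F_exp (p q : Fin n ⊕ Fin s) (x : Fin g → ℂ) (k : Fin g) :
    u.F p q x k = ∑ l, u.a p q (Sum.inl k) (Sum.inl l) * x l := by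
  conv_lhs => rw [show x = ∑ l, x l • (Pi.single l 1 : Fin g → ℂ) from by
    funext l
    rw [Finset.sum_apply]
    simp [Pi.single_apply]]
  rw [map_sum, Finset.sum_apply]
  refine Finset.sum_congr rfl fun l _ => ?_
  rw [map_smul, Pi.smul_apply, smul_eq_mul, mul_comm, u.Fa]

theorem pr_aM (v : VD g n s) (p : Fin n ⊕ Fin s) (k : Fin g) :
    pr (u.aM v) p k = (∑ q, u.F p q (pr v q)) k := by
  rw [pr_apply, aM_apply, Finset.sum_apply]
  refine Finset.sum_congr rfl fun q _ => ?_
  rw [F_exp, Fintype.sum_sum_type]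
  simp only [u.a0, zero_mul, Finset.sum_const_zero, add_zero]
  rfl

/-- the space of relations in the tangent space -/
def W : Submodule ℂ (VX g n s) := Submodule.span ℂ (Set.range u.β)

theorem mem_W {x : VX g n s} : x ∈ u.W ↔ ∀ p, ∑ q, u.F p q (x q) = 0 := u.βs x

theorem pr_mem {v : VD g n s} (hv : v ∈ RC 𝔤) : pr v ∈ u.W := by
  rw [mem_W]
  intro p
  funext k
  rw [← pr_aM, u.aM_RC hv]
  rfl

/-- the lift -/
def li (x : VX g n s) : VD g n s := io x - u.aM (io x)

theorem li_mem (x : VX g n s) : u.li x ∈ RC 𝔤 := u.sub_mem_RC _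

theorem pr_li {x : VX g n s} (hx : x ∈ u.W) : pr (u.li x) = x := by
  unfold li
  rw [map_sub]
  have h1 : pr (u.aM (io x)) = 0 := by
    funext p k
    rw [pr_aM]
    have h2 : ∀ q, (pr (io x : VD g n s)) q = x q := fun q => rfl
    simp only [h2]
    rw [(u.mem_W.1 hx) p]
    rfl
  rw [h1, sub_zero]
  rfl

theorem li_add (x y : VX g n s) : u.li (x + y) = u.li x + u.li y := by
  unfold li
  rw [map_add, map_add]
  abel

theorem li_smul (t : ℂ) (x : VX g n s) : u.li (t • x) = t • u.li x := by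
  unfold li
  rw [map_smul, map_smul, smul_sub]

theorem li_alg {x : VX g n s} (hx : ∀ p k, IsAlgebraic ℚ (x p k)) (p : Fin n ⊕ Fin s)
    (c : Fin g ⊕ Fin g) : IsAlgebraic ℚ (u.li x p c) := by
  have h1 : ∀ p c, IsAlgebraic ℚ ((io x : VD g n s) p c) := by
    intro p c
    rcases c with k | k
    · exact hx p k
    · exact isAlgebraic_zero
  have h2 : u.li x p c = (io x : VD g n s) p c - ∑ q, ∑ c', u.a p q c c' * (io x : VD g n s) q c' :=
    rfl
  rw [h2]
  exact (h1 p c).sub (isAlgebraic_sum _ _ fun q _ => isAlgebraic_sum _ _ fun c' _ =>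
    (u.aa p q c c').mul (h1 q c'))

end UD

/-! ### The forms -/

variable (m : Fin n → Fin s → ℂ)

/-- the form given by the polarization -/
def bh (v v' : VD g n s) : ℂ := ∑ i, ∑ l, m i l * ∑ k,
  (v (Sum.inr l) (Sum.inr k) * v' (Sum.inl i) (Sum.inl k) -
    v (Sum.inr l) (Sum.inl k) * v' (Sum.inl i) (Sum.inr k))

/-- the pairing with the tangent space -/
def ps (v : VD g n s) (x : VX g n s) : ℂ := ∑ i, ∑ l, m i l * ∑ k,
  (v (Sum.inl i) (Sum.inr k) * x (Sum.inr l) k + v (Sum.inr l) (Sum.inr k) * x (Sum.inl i) k)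

theorem bh_add (v v' v'' : VD g n s) : bh m (v + v') v'' = bh m v v'' + bh m v' v'' := by
  unfold bh
  simp only [Pi.add_apply, ← Finset.sum_add_distrib, ← mul_add]
  refine Finset.sum_congr rfl fun i _ => Finset.sum_congr rfl fun l _ => ?_
  congr 1
  refine Finset.sum_congr rfl fun k _ => by ring

theorem bh_add' (v v' v'' : VD g n s) : bh m v (v' + v'') = bh m v v' + bh m v v'' := by
  unfold bh
  simp only [Pi.add_apply, ← Finset.sum_add_distrib, ← mul_add]
  refine Finset.sum_congr rfl fun i _ => Finset.sum_congr rfl fun l _ => ?_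
  congr 1
  refine Finset.sum_congr rfl fun k _ => by ring

theorem bh_smul (t : ℂ) (v v' : VD g n s) : bh m (t • v) v' = t * bh m v v' := by
  unfold bh
  simp only [Pi.smul_apply, smul_eq_mul, Finset.mul_sum]
  refine Finset.sum_congr rfl fun i _ => Finset.sum_congr rfl fun l _ =>
    Finset.sum_congr rfl fun k _ => by ring

theorem bh_smul' (t : ℂ) (v v' : VD g n s) : bh m v (t • v') = t * bh m v v' := by
  unfold bh
  simp only [Pi.smul_apply, smul_eq_mul, Finset.mul_sum]
  refine Finset.sum_congr rfl fun i _ => Finset.sum_congr rfl fun l _ =>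
    Finset.sum_congr rfl fun k _ => by ring

theorem bh_zero (v : VD g n s) : bh m 0 v = 0 := by
  have h := bh_smul m 0 0 v
  rwa [zero_smul, zero_mul] at h

theorem bh_zero' (v : VD g n s) : bh m v 0 = 0 := by
  have h := bh_smul' m 0 v 0
  rwa [zero_smul, zero_mul] at h

theorem bh_dRv (x y : (Fin n ⊕ Fin s) → A.H1) : bh m (dRv x) (dRv y) =
    tau * ∑ i, ∑ l, m i l * ((A.om (x (Sum.inr l)) (y (Sum.inl i)) : ℚ) : ℂ) := by
  unfold bh
  rw [Finset.mul_sum]
  refine Finset.sum_congr rfl fun i _ => ?_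
  rw [Finset.mul_sum]
  refine Finset.sum_congr rfl fun l _ => ?_
  have h1 := om_tau (A := A.toAbVar) (x (Sum.inr l)) (y (Sum.inl i))
  rw [mul_left_comm, mul_comm tau, h1]
  rfl

theorem ps_add (v v' : VD g n s) (x : VX g n s) : ps m (v + v') x = ps m v x + ps m v' x := by
  unfold ps
  simp only [Pi.add_apply, ← Finset.sum_add_distrib, ← mul_add]
  refine Finset.sum_congr rfl fun i _ => Finset.sum_congr rfl fun l _ => ?_
  congr 1
  refine Finset.sum_congr rfl fun k _ => by ring

theorem ps_smul (t : ℂ) (v : VD g n s) (x : VX g n s) : ps m (t • v) x = t * ps m v x := by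
  unfold ps
  simp only [Pi.smul_apply, smul_eq_mul, Finset.mul_sum]
  refine Finset.sum_congr rfl fun i _ => Finset.sum_congr rfl fun l _ =>
    Finset.sum_congr rfl fun k _ => by ring

theorem ps_add' (v : VD g n s) (x y : VX g n s) : ps m v (x + y) = ps m v x + ps m v y := by
  unfold ps
  simp only [Pi.add_apply, ← Finset.sum_add_distrib, ← mul_add]
  refine Finset.sum_congr rfl fun i _ => Finset.sum_congr rfl fun l _ => ?_
  congr 1
  refine Finset.sum_congr rfl fun k _ => by ring

theorem ps_smul' (t : ℂ) (v : VD g n s) (x : VX g n s) : ps m v (t • x) = t * ps m v x := by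
  unfold ps
  simp only [Pi.smul_apply, smul_eq_mul, Finset.mul_sum]
  refine Finset.sum_congr rfl fun i _ => Finset.sum_congr rfl fun l _ =>
    Finset.sum_congr rfl fun k _ => by ring

theorem ps_bh (v v' : VD g n s) :
    ps m v (pr v') - ps m v' (pr v) = bh m v v' - bh m v' v := by
  unfold ps bh
  rw [← Finset.sum_sub_distrib, ← Finset.sum_sub_distrib]
  refine Finset.sum_congr rfl fun i _ => ?_
  rw [← Finset.sum_sub_distrib, ← Finset.sum_sub_distrib]
  refine Finset.sum_congr rfl fun l _ => ?_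
  rw [← mul_sub, ← mul_sub, ← Finset.sum_sub_distrib, ← Finset.sum_sub_distrib]
  congr 1
  refine Finset.sum_congr rfl fun k _ => ?_
  simp only [pr_apply]
  ring

/-- the form is symmetric on the relations -/
def Sym (𝔤 : Submodule ℚ (Tup A.toAbVar n s)) (m : Fin n → Fin s → ℂ) : Prop :=
  ∀ x ∈ uu 𝔤, ∀ y ∈ uu 𝔤,
    ∑ i, ∑ l, m i l * ((A.om (x (Sum.inr l)) (y (Sum.inl i)) : ℚ) : ℂ) =
      ∑ i, ∑ l, m i l * ((A.om (y (Sum.inr l)) (x (Sum.inl i)) : ℚ) : ℂ)

variable {m}

theorem bh_symm (hm : Sym 𝔤 m) {v v' : VD g n s} (hv : v ∈ RC 𝔤) (hv' : v' ∈ RC 𝔤) :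
    bh m v v' = bh m v' v := by
  unfold RC at hv
  induction hv using Submodule.span_induction with
  | mem v hv =>
    obtain ⟨x, hx, rfl⟩ := hv
    unfold RC at hv'
    induction hv' using Submodule.span_induction with
    | mem v' hv' =>
      obtain ⟨y, hy, rfl⟩ := hv'
      rw [bh_dRv, bh_dRv, hm x hx y hy]
    | zero => rw [bh_zero, bh_zero']
    | add v' v'' _ _ h1 h2 => rw [bh_add, bh_add', h1, h2]
    | smul t v' _ h1 => rw [bh_smul, bh_smul', h1]
  | zero => rw [bh_zero, bh_zero']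
  | add v' v'' _ _ h1 h2 => rw [bh_add, bh_add', h1, h2]
  | smul t v' _ h1 => rw [bh_smul, bh_smul', h1]

theorem ps_symm (hm : Sym 𝔤 m) {v v' : VD g n s} (hv : v ∈ RC 𝔤) (hv' : v' ∈ RC 𝔤) :
    ps m v (pr v') = ps m v' (pr v) := by
  have h1 := ps_bh m v v'
  rw [bh_symm hm hv hv', sub_self] at h1
  exact sub_eq_zero.1 h1

namespace UD

variable (u : UD 𝔤 d)

theorem ps_zero (hm : Sym 𝔤 m) {v : VD g n s} (hv : v ∈ RC 𝔤) (h0 : pr v = 0) {x : VX g n s}
    (hx : x ∈ u.W) : ps m v x = 0 := by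
  have h1 := ps_symm hm hv (u.li_mem x)
  rw [u.pr_li hx, h0] at h1
  have h2 := ps_smul' m 0 (u.li x) 0
  rw [zero_smul, zero_mul] at h2
  rw [h1, h2]

/-- the symmetric form -/
def S (m : Fin n → Fin s → ℂ) (x y : VX g n s) : ℂ := ps m (u.li x) y

theorem ps_eq (hm : Sym 𝔤 m) {v : VD g n s} (hv : v ∈ RC 𝔤) {x : VX g n s}
    (hx : x ∈ u.W) : ps m v x = u.S m (pr v) x := by
  have h1 : v = u.li (pr v) + (v - u.li (pr v)) := by abel
  have h2 := u.ps_zero (m := m) hm (Submodule.sub_mem _ hv (u.li_mem (pr v))) (by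
    rw [map_sub, u.pr_li (u.pr_mem hv), sub_self]) hx
  conv_lhs => rw [h1, ps_add, h2, add_zero]
  rfl

theorem S_symm (hm : Sym 𝔤 m) {x y : VX g n s} (hx : x ∈ u.W) (hy : y ∈ u.W) :
    u.S m x y = u.S m y x := by
  have h1 := ps_symm hm (u.li_mem x) (u.li_mem y)
  rwa [u.pr_li hx, u.pr_li hy] at h1

theorem S_add (x x' y : VX g n s) : u.S m (x + x') y = u.S m x y + u.S m x' y := by
  unfold S
  rw [li_add, ps_add]

theorem S_smul (t : ℂ) (x y : VX g n s) : u.S m (t • x) y = t * u.S m x y := by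
  unfold S
  rw [li_smul, ps_smul]

theorem S_add' (x y y' : VX g n s) : u.S m x (y + y') = u.S m x y + u.S m x y' := ps_add' _ _ _ _

theorem S_smul' (t : ℂ) (x y : VX g n s) : u.S m x (t • y) = t * u.S m x y := ps_smul' _ _ _ _

theorem S_zero (y : VX g n s) : u.S m 0 y = 0 := by
  have h := u.S_smul (m := m) 0 0 y
  rwa [zero_smul, zero_mul] at h

theorem S_zero' (y : VX g n s) : u.S m y 0 = 0 := by
  have h := u.S_smul' (m := m) 0 y 0
  rwa [zero_smul, zero_mul] at h

theorem S_sum {ι : Type} (t : Finset ι) (c : ι → ℂ) (x : ι → VX g n s) (y : VX g n s) :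
    u.S m (∑ i ∈ t, c i • x i) y = ∑ i ∈ t, c i * u.S m (x i) y := by
  classical
  induction t using Finset.induction_on with
  | empty => rw [Finset.sum_empty, Finset.sum_empty, S_zero]
  | insert a t ha ih => rw [Finset.sum_insert ha, Finset.sum_insert ha, S_add, S_smul, ih]

theorem S_sum' {ι : Type} (t : Finset ι) (c : ι → ℂ) (x : ι → VX g n s) (y : VX g n s) :
    u.S m y (∑ i ∈ t, c i • x i) = ∑ i ∈ t, c i * u.S m y (x i) := by
  classical
  induction t using Finset.induction_on with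
  | empty => rw [Finset.sum_empty, Finset.sum_empty, S_zero']
  | insert a t ha ih => rw [Finset.sum_insert ha, Finset.sum_insert ha, S_add', S_smul', ih]

theorem S_alg (hm : ∀ i l, IsAlgebraic ℚ (m i l)) {x y : VX g n s}
    (hx : ∀ p k, IsAlgebraic ℚ (x p k)) (hy : ∀ p k, IsAlgebraic ℚ (y p k)) :
    IsAlgebraic ℚ (u.S m x y) := by
  unfold S ps
  exact isAlgebraic_sum _ _ fun i _ => isAlgebraic_sum _ _ fun l _ => (hm i l).mul
    (isAlgebraic_sum _ _ fun k _ => ((u.li_alg hx _ _).mul (hy _ _)).add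
      ((u.li_alg hx _ _).mul (hy _ _)))

end UD

end Pool.Agent.R917.BX
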