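import Pool.Agent.R917.BX.Rn
import Pool.Agent.R917.BX.Vw

set_option autoImplicit false
set_option linter.unusedSectionVars false
set_option linter.unusedSimpArgs false

/-!
# The logarithm which belongs to a symmetric form is the logarithm of an algebraic number
-/

open Module Function TensorProduct Matrix

noncomputable section

namespace Pool.Agent.R917.BX

open Pool.Agent.Y102 Pool.Agent.W516.DR Pool.Agent.H204R3.GP Pool.Agent.W516.KC
  Pool.Agent.H204R3.SP Pool.Agent.TH119.MX Pool.Agent.R917.OM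

variable {g : ℕ} {A : AbVarG g} {n s : ℕ} {𝔤 : Submodule ℚ (Tup A.toAbVar n s)} {d : Dt g n s}

/-- the periods of a vector -/
def Pe (y : (Fin n ⊕ Fin s) → A.H1) : VX g n s := fun p => A.per (y p)

theorem pr_dRv (y : (Fin n ⊕ Fin s) → A.H1) : pr (dRv y) = Pe y := rfl

namespace UD

variable (u : UD 𝔤 d)

theorem dRv_mem {y : (Fin n ⊕ Fin s) → A.H1} (hy : u.π y = 0) : dRv y ∈ RC 𝔤 :=
  Submodule.subset_span ⟨y, (u.π0 y).1 hy, rfl⟩

theorem exists_co {x : VX g n s} (hx : x ∈ u.W) : ∃ c : Fin u.b → ℂ, ∑ j, c j • u.β j = x :=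
  (Submodule.mem_span_range_iff_exists_fun ℂ).1 hx

/-- the coordinates -/
def co (x : VX g n s) (hx : x ∈ u.W) : Fin u.b → ℂ := (u.exists_co hx).choose

theorem co_spec {x : VX g n s} (hx : x ∈ u.W) : ∑ j, u.co x hx j • u.β j = x :=
  (u.exists_co hx).choose_spec

/-- the linear map -/
def em (p : Fin n ⊕ Fin s) : (Fin u.b → ℂ) →L[ℂ] (Fin g → ℂ) := LinearMap.toContinuousLinearMap
  { toFun := fun c => (∑ j, c j • u.β j) p
    map_add' := fun c c' => by
      simp only [Pi.add_apply, add_smul, Finset.sum_add_distrib]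
    map_smul' := fun t c => by
      simp only [Pi.smul_apply, smul_eq_mul, mul_smul, RingHom.id_apply, ← Finset.smul_sum] }

theorem em_apply (p : Fin n ⊕ Fin s) (c : Fin u.b → ℂ) : u.em p c = (∑ j, c j • u.β j) p := rfl

theorem em_single (p : Fin n ⊕ Fin s) (k : Fin u.b) : u.em p (Pi.single k 1) = u.β k p := by
  rw [em_apply]
  rw [Finset.sum_eq_single k]
  · simp
  · intro j _ hj
    rw [Pi.single_eq_of_ne hj, zero_smul]
  · intro h
    exact absurd (Finset.mem_univ _) h

theorem Pe_y_mem (k : Fin u.b) : Pe (u.y k) ∈ u.W := u.pr_mem (u.dRv_mem (u.y0 k))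

theorem qf_co {M : Fin n → Fin s → ℂ} (c : Fin u.b → ℂ) :
    qf (fun i j => u.S M (u.β i) (u.β j)) c =
      u.S M (∑ j, c j • u.β j) (∑ j, c j • u.β j) := by
  unfold qf
  rw [S_sum]
  refine Finset.sum_congr rfl fun i _ => ?_
  rw [S_sum', Finset.mul_sum]
  refine Finset.sum_congr rfl fun j _ => by ring

/-- the data -/
def bT (M : Fin n → Fin s → ℤ) (hm : Sym 𝔤 (fun i l => (M i l : ℂ))) (i₀ : Fin n) (l₀ : Fin s) :
    BT A.toAbVar u.b (Fin n × Fin s) where
  X a := u.em (Sum.inl a.1)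
  Y a := u.em (Sum.inr a.2)
  Xa a k i := by
    rw [em_single]
    exact u.βa _ _ _
  Ya a k i := by
    rw [em_single]
    exact u.βa _ _ _
  inj z h1 h2 := by
    have h3 : ∑ j, z j • u.β j = 0 := by
      funext p
      rcases p with i | l
      · exact h1 (i, l₀)
      · exact h2 (i₀, l)
    funext j
    exact Fintype.linearIndependent_iff.1 u.βi z h3 j
  M a := M a.1 a.2
  s i j := u.S (fun i l => (M i l : ℂ)) (u.β i) (u.β j)
  sa i j := u.S_alg (fun i l => isAlgebraic_intCast _) (u.βa i) (u.βa j)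
  ss i j := u.S_symm hm (Submodule.subset_span ⟨i, rfl⟩) (Submodule.subset_span ⟨j, rfl⟩)
  U k := u.co (Pe (u.y k)) (u.Pe_y_mem k)
  hU := by
    have h0 := Fintype.linearIndependent_iff.1 u.yi
    rw [Fintype.linearIndependent_iff]
    intro c hc
    refine h0 c ?_
    have h1 : ∀ k, (fun i => A.per (u.y k i) : VX g n s) =
        ∑ j, u.co (Pe (u.y k)) (u.Pe_y_mem k) j • u.β j := fun k => (u.co_spec _).symm
    simp only [h1]
    have h2 : ∑ k, c k • ∑ j, u.co (Pe (u.y k)) (u.Pe_y_mem k) j • u.β j =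
        ∑ j, (∑ k, c k • u.co (Pe (u.y k)) (u.Pe_y_mem k)) j • u.β j := by
      simp only [Finset.sum_apply, Pi.smul_apply, smul_eq_mul, Finset.sum_smul, Finset.smul_sum,
        smul_smul]
      rw [Finset.sum_comm]
    rw [h2, hc]
    simp
  x a k := u.y k (Sum.inl a.1)
  y a k := u.y k (Sum.inr a.2)
  hx a k := u.yl _ _
  hy a k := u.yl _ _
  XU a k := by
    rw [em_apply, co_spec]
    rfl
  YU a k := by
    rw [em_apply, co_spec]
    rfl
  h1 k j := by
    have h1 : ∑ i, u.S (fun i l => (M i l : ℂ)) (u.β i) (u.β j) *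
        u.co (Pe (u.y k)) (u.Pe_y_mem k) i =
        u.S (fun i l => (M i l : ℂ)) (Pe (u.y k)) (u.β j) := by
      conv_rhs => rw [← u.co_spec (u.Pe_y_mem k)]
      rw [S_sum]
      exact Finset.sum_congr rfl fun i _ => mul_comm _ _
    rw [h1, ← pr_dRv, ← u.ps_eq hm (u.dRv_mem (u.y0 k)) (Submodule.subset_span ⟨j, rfl⟩),
      Fintype.sum_prod_type]
    unfold ps
    refine Finset.sum_congr rfl fun i _ => Finset.sum_congr rfl fun l _ => ?_
    simp only [em_single]
    rfl

/-- **Algebraicity on the space of relations.** -/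
theorem alg (M : Fin n → Fin s → ℤ) (hm : Sym 𝔤 (fun i l => (M i l : ℂ))) {z : VX g n s}
    (hz : z ∈ u.W) (h1 : ∀ i, IsPoint A.toAbVar (z (Sum.inl i)))
    (h2 : ∀ l, IsPoint A.toAbVar (-z (Sum.inr l)))
    (h3 : ∀ i l, IsPoint A.toAbVar (z (Sum.inl i) - z (Sum.inr l))) :
    IsAlgebraic ℚ (Complex.exp (u.S (fun i l => (M i l : ℂ)) z z) *
      ∏ i, ∏ l, bt A.toAbVar (z (Sum.inl i)) (z (Sum.inr l)) ^ (2 * M i l)) := by
  classical
  by_cases hn : Nonempty (Fin n) ∧ Nonempty (Fin s)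
  · obtain ⟨⟨i₀⟩, ⟨l₀⟩⟩ := hn
    have e1 : ∀ p, u.em p (u.co z hz) = z p := by
      intro p
      rw [em_apply, co_spec]
    have h4 := (u.bT M hm i₀ l₀).alg (z := u.co z hz)
      (fun a => by
        change IsPoint A.toAbVar (u.em (Sum.inl a.1) (u.co z hz))
        rw [e1]
        exact h1 a.1)
      (fun a => by
        change IsPoint A.toAbVar (-u.em (Sum.inr a.2) (u.co z hz))
        rw [e1]
        exact h2 a.2)
      (fun a => by
        change IsPoint A.toAbVar (u.em (Sum.inl a.1) (u.co z hz) -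
          u.em (Sum.inr a.2) (u.co z hz))
        rw [e1, e1]
        exact h3 a.1 a.2)
    have e2 : qf (u.bT M hm i₀ l₀).s (u.co z hz) = u.S (fun i l => (M i l : ℂ)) z z := by
      change qf (fun i j => u.S (fun i l => (M i l : ℂ)) (u.β i) (u.β j)) (u.co z hz) = _
      rw [qf_co, co_spec]
    rw [e2] at h4
    have e3 : (∏ a : Fin n × Fin s, bt A.toAbVar ((u.bT M hm i₀ l₀).X a (u.co z hz))
        ((u.bT M hm i₀ l₀).Y a (u.co z hz)) ^ (2 * (u.bT M hm i₀ l₀).M a)) =
        ∏ i, ∏ l, bt A.toAbVar (z (Sum.inl i)) (z (Sum.inr l)) ^ (2 * M i l) := by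
      rw [Fintype.prod_prod_type]
      refine Finset.prod_congr rfl fun i _ => Finset.prod_congr rfl fun l _ => ?_
      change bt A.toAbVar (u.em (Sum.inl i) (u.co z hz)) (u.em (Sum.inr l) (u.co z hz)) ^
        (2 * M i l) = _
      rw [e1, e1]
    rwa [e3] at h4
  · have h4 : IsEmpty (Fin n) ∨ IsEmpty (Fin s) := by
      by_contra hcon
      push Not at hcon
      exact hn hcon
    have e1 : u.S (fun i l => (M i l : ℂ)) z z = 0 := by
      unfold S ps
      rcases h4 with h4 | h4 <;> simp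
    have e2 : (∏ i, ∏ l, bt A.toAbVar (z (Sum.inl i)) (z (Sum.inr l)) ^ (2 * M i l)) = 1 := by
      rcases h4 with h4 | h4 <;> simp
    rw [e1, e2, Complex.exp_zero, mul_one]
    exact isAlgebraic_one

end UD

theorem isPoint_per {z : Fin g → ℂ} (hz : IsPoint A.toAbVar z) {w : A.H1} (hw : w ∈ A.lat) :
    IsPoint A.toAbVar (z + A.per w) := by
  refine ⟨?_, fun i => ?_⟩
  · rw [cc_spec A.toAbVar hw]
    exact mul_ne_zero (Complex.exp_ne_zero _) hz.1
  · have h1 := A.dat.f_per w hw z hz.1 i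
    have h2 : A.θ i (z + A.per w) / A.θ 0 (z + A.per w) = A.θ i z / A.θ 0 z := h1
    rw [h2]
    exact hz.2 i

end Pool.Agent.R917.BX
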