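import Pool.Agent.R917.BX.Pp

set_option autoImplicit false
set_option linter.unusedSectionVars false
set_option linter.unusedSimpArgs false

/-!
# The logarithm which belongs to a symmetric form is the logarithm of an algebraic number
-/

open Module Function TensorProduct Matrix

noncomputable section

namespace Pool.Agent.R917.BX

open Pool.Agent.Y102 Pool.Agent.W516.DR Pool.Agent.H204R3.GP Pool.Agent.W516.KC
  Pool.Agent.H204R3.SP Pool.Agent.TH119.MX Pool.Agent.R917.OM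

variable {g : ℕ} {A : AbVarG g} {n s : ℕ} {𝔤 : Submodule ℚ (Tup A.toAbVar n s)} {d : Dt g n s}

/-- The points of the 1-motive are algebraic, and so are the points of the Poincare bundle given by
the integrals of the third kind. -/
structure Good (A : AbVarG g) (d : Dt g n s) : Prop where
  hu : ∀ i, IsPoint A.toAbVar (pt d (Sum.inl i))
  hv : ∀ l, IsPoint A.toAbVar (-pt d (Sum.inr l))
  huv : ∀ i l, IsPoint A.toAbVar (pt d (Sum.inl i) - pt d (Sum.inr l))
  hℓ : ∀ i l, ∃ q : ℂ, IsAlgebraic ℚ q ∧ Complex.exp (d.ℓ i l) =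
    q * bt A.toAbVar (pt d (Sum.inl i)) (pt d (Sum.inr l)) *
      Complex.exp (∑ k, d.P (Sum.inr l) (Sum.inr k) * pt d (Sum.inl i) k)

/-- the exponents -/
def GG (A : AbVarG g) (d : Dt g n s) (w : (Fin n ⊕ Fin s) → A.H1) (i : Fin n) (l : Fin s) : ℂ :=
  d.ℓ i l - ∑ k, d.P (Sum.inr l) (Sum.inr k) * pt d (Sum.inl i) k +
    (∑ k, A.eta (w (Sum.inl i)) k * pt d (Sum.inr l) k +
      ∑ k, A.eta (w (Sum.inr l)) k * pt d (Sum.inl i) k -
      ∑ k, A.eta (w (Sum.inl i)) k * A.per (w (Sum.inr l)) k)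

theorem mem_AC {x : ℂ} : x ∈ algebraicClosure ℚ ℂ ↔ IsAlgebraic ℚ x := mem_algebraicClosure_iff

namespace UD

variable (u : UD 𝔤 d)

theorem pt_mem : pt d - Pe u.w ∈ u.W := u.mem_W.2 u.rel

/-- **The exponential is algebraic.** -/
theorem exp_alg (M : Fin n → Fin s → ℤ) (hm : Sym 𝔤 (fun i l => (M i l : ℂ)))
    (hd : Good A d) : ∃ N : ℕ, 0 < N ∧ IsAlgebraic ℚ (Complex.exp ((N : ℂ) ^ 2 *
      (u.S (fun i l => (M i l : ℂ)) (pt d - Pe u.w) (pt d - Pe u.w) +
        2 * ∑ i, ∑ l, (M i l : ℂ) * GG A d u.w i l))) := by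
  classical
  choose N1 hN1 hN1' using fun q => A.full_lat (u.w q)
  obtain ⟨N₀, hN₀def⟩ : ∃ N₀ : ℕ, N₀ = ∏ q, N1 q := ⟨_, rfl⟩
  have hN₀w : ∀ q, N₀ • u.w q ∈ A.lat := by
    intro q
    rw [hN₀def, ← Finset.prod_erase_mul _ _ (Finset.mem_univ q), mul_smul]
    exact A.lat.nsmul_mem (hN1' q) _
  have hN₀ : 0 < N₀ := by
    rw [hN₀def]
    exact Finset.prod_pos fun q _ => hN1 q
  obtain ⟨N, hN, hdvd, hpt⟩ := exists_mult A (J := Fin n ⊕ (Fin s ⊕ (Fin n × Fin s)))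
    (Sum.elim (fun i => pt d (Sum.inl i)) (Sum.elim (fun l => -pt d (Sum.inr l))
      (fun c => pt d (Sum.inl c.1) - pt d (Sum.inr c.2)))) (by
      rintro (i | l | c)
      · exact hd.hu i
      · exact hd.hv l
      · exact hd.huv c.1 c.2) hN₀
  have hNw : ∀ q, -(N • u.w q) ∈ A.lat := by
    intro q
    obtain ⟨k, hk⟩ := hdvd
    have h1 : N • u.w q = k • (N₀ • u.w q) := by
      rw [hk, smul_smul, mul_comm k N₀]
    rw [h1]
    exact A.lat.neg_mem (A.lat.nsmul_mem (hN₀w q) _)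
  have e1 : ∀ i, IsPoint A.toAbVar (N • pt d (Sum.inl i)) := fun i => hpt (Sum.inl i)
  have e2 : ∀ l, IsPoint A.toAbVar (-(N • pt d (Sum.inr l))) := fun l => by
    have h1 := hpt (Sum.inr (Sum.inl l))
    rw [Sum.elim_inr, Sum.elim_inl, smul_neg] at h1
    exact h1
  have e3 : ∀ i l, IsPoint A.toAbVar (N • pt d (Sum.inl i) - N • pt d (Sum.inr l)) :=
    fun i l => by
    have h1 := hpt (Sum.inr (Sum.inr (i, l)))
    rw [Sum.elim_inr, Sum.elim_inr, smul_sub] at h1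
    exact h1
  obtain ⟨z, hzdef⟩ : ∃ z : VX g n s, z = (N : ℂ) • (pt d - Pe u.w) := ⟨_, rfl⟩
  have hz : z ∈ u.W := by
    rw [hzdef]
    exact Submodule.smul_mem _ _ u.pt_mem
  have hzp : ∀ p, z p = N • pt d p + A.per (-(N • u.w p)) := by
    intro p
    rw [hzdef, Pi.smul_apply, Pi.sub_apply, smul_sub, Nat.cast_smul_eq_nsmul,
      Nat.cast_smul_eq_nsmul, map_neg, map_nsmul, ← sub_eq_add_neg]
    rfl
  have h1 := u.alg M hm hz (fun i => by
      rw [hzp]
      exact isPoint_per (e1 i) (hNw _)) (fun l => by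
      have h2 : -z (Sum.inr l) = -(N • pt d (Sum.inr l)) + A.per (N • u.w (Sum.inr l)) := by
        rw [hzp, map_neg]
        abel
      rw [h2]
      have h3 := A.lat.neg_mem (hNw (Sum.inr l))
      rw [neg_neg] at h3
      exact isPoint_per (e2 l) h3) (fun i l => by
      have h2 : z (Sum.inl i) - z (Sum.inr l) = (N • pt d (Sum.inl i) - N • pt d (Sum.inr l)) +
          A.per (-(N • u.w (Sum.inl i)) - -(N • u.w (Sum.inr l))) := by
        rw [hzp, hzp, map_sub]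
        abel
      rw [h2]
      exact isPoint_per (e3 i l) (A.lat.sub_mem (hNw _) (hNw _)))
  choose q hq hqℓ using hd.hℓ
  -- the values
  have h2 : ∀ i l, ∃ a : ℂ, a ≠ 0 ∧ IsAlgebraic ℚ a ∧
      bt A.toAbVar (z (Sum.inl i)) (z (Sum.inr l)) ^ 2 =
        a * Complex.exp (2 * (N : ℂ) ^ 2 * GG A d u.w i l) := by
    intro i l
    have f1 := bt_mul A.toAbVar (N := N) (hd.hu i) (hd.hv l) (hd.huv i l) (e1 i) (e2 l) (e3 i l)
    have f2 : bt A.toAbVar (pt d (Sum.inl i)) (pt d (Sum.inr l)) ≠ 0 := by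
      unfold bt
      exact div_ne_zero (hd.huv i l).1 (mul_ne_zero (hd.hu i).1 (hd.hv l).1)
    have f3 : bt A.toAbVar (N • pt d (Sum.inl i)) (N • pt d (Sum.inr l)) ≠ 0 := by
      unfold bt
      exact div_ne_zero (e3 i l).1 (mul_ne_zero (e1 i).1 (e2 l).1)
    have f4 : q i l ≠ 0 := by
      intro h0
      have h3 := hqℓ i l
      rw [h0, zero_mul, zero_mul] at h3
      exact Complex.exp_ne_zero _ h3
    have f5 : bt A.toAbVar (pt d (Sum.inl i)) (pt d (Sum.inr l)) = (q i l)⁻¹ *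
        Complex.exp (d.ℓ i l - ∑ k, d.P (Sum.inr l) (Sum.inr k) * pt d (Sum.inl i) k) := by
      rw [Complex.exp_sub, hqℓ i l]
      have := Complex.exp_ne_zero (∑ k, d.P (Sum.inr l) (Sum.inr k) * pt d (Sum.inl i) k)
      field_simp
    have f6 : bt A.toAbVar (z (Sum.inl i)) (z (Sum.inr l)) =
        bt A.toAbVar (N • pt d (Sum.inl i)) (N • pt d (Sum.inr l)) *
        Complex.exp ((N : ℂ) ^ 2 * (∑ k, A.eta (u.w (Sum.inl i)) k * pt d (Sum.inr l) k +
          ∑ k, A.eta (u.w (Sum.inr l)) k * pt d (Sum.inl i) k -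
          ∑ k, A.eta (u.w (Sum.inl i)) k * A.per (u.w (Sum.inr l)) k)) := by
      rw [hzp, hzp, bt_shift (hNw _) (hNw _)]
      congr 2
      have g1 : ∀ p k, A.eta (-(N • u.w p)) k = -(N * A.eta (u.w p) k) := by
        intro p k
        rw [map_neg, map_nsmul, Pi.neg_apply, Pi.smul_apply, nsmul_eq_mul]
      have g2 : ∀ p k, A.per (-(N • u.w p)) k = -(N * A.per (u.w p) k) := by
        intro p k
        rw [map_neg, map_nsmul, Pi.neg_apply, Pi.smul_apply, nsmul_eq_mul]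
      have g3 : ∀ p k, (N • pt d p) k = N * pt d p k := by
        intro p k
        rw [Pi.smul_apply, nsmul_eq_mul]
      simp only [g1, g2, g3, mul_sub, mul_add,
        Finset.mul_sum, ← Finset.sum_neg_distrib, ← Finset.sum_sub_distrib,
        ← Finset.sum_add_distrib]
      refine Finset.sum_congr rfl fun k _ => by ring
    refine ⟨(bt A.toAbVar (N • pt d (Sum.inl i)) (N • pt d (Sum.inr l)) ^ 2 *
      (bt A.toAbVar (pt d (Sum.inl i)) (pt d (Sum.inr l)) ^ (2 * N ^ 2))⁻¹) *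
      ((q i l) ^ (2 * N ^ 2))⁻¹, ?_, f1.mul ((hq i l).pow _).inv, ?_⟩
    · exact mul_ne_zero (mul_ne_zero (pow_ne_zero _ f3) (inv_ne_zero (pow_ne_zero _ f2)))
        (inv_ne_zero (pow_ne_zero _ f4))
    · rw [f6]
      have f7 : Complex.exp (2 * (N : ℂ) ^ 2 * GG A d u.w i l) =
          Complex.exp (d.ℓ i l - ∑ k, d.P (Sum.inr l) (Sum.inr k) * pt d (Sum.inl i) k) ^
            (2 * N ^ 2) *
          Complex.exp ((N : ℂ) ^ 2 * (∑ k, A.eta (u.w (Sum.inl i)) k * pt d (Sum.inr l) k +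
          ∑ k, A.eta (u.w (Sum.inr l)) k * pt d (Sum.inl i) k -
          ∑ k, A.eta (u.w (Sum.inl i)) k * A.per (u.w (Sum.inr l)) k)) ^ 2 := by
        rw [← Complex.exp_nat_mul, ← Complex.exp_nat_mul, ← Complex.exp_add]
        congr 1
        unfold GG
        push_cast
        ring
      rw [f7]
      have f8 : Complex.exp (d.ℓ i l - ∑ k, d.P (Sum.inr l) (Sum.inr k) * pt d (Sum.inl i) k) =
          q i l * bt A.toAbVar (pt d (Sum.inl i)) (pt d (Sum.inr l)) := by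
        rw [f5, ← mul_assoc, mul_inv_cancel₀ f4, one_mul]
      rw [f8, mul_pow (q i l)]
      have g1 := pow_ne_zero (2 * N ^ 2) f2
      have g2 := pow_ne_zero (2 * N ^ 2) f4
      generalize bt A.toAbVar (pt d (Sum.inl i)) (pt d (Sum.inr l)) ^ (2 * N ^ 2) = B at g1 ⊢
      generalize q i l ^ (2 * N ^ 2) = B' at g2 ⊢
      field_simp
  choose a ha0 haa ha using h2
  refine ⟨N, hN, ?_⟩
  have h3 : (∏ i, ∏ l, bt A.toAbVar (z (Sum.inl i)) (z (Sum.inr l)) ^ (2 * M i l)) =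
      (∏ i, ∏ l, a i l ^ M i l) *
        Complex.exp (∑ i, ∑ l, (M i l : ℂ) * (2 * (N : ℂ) ^ 2 * GG A d u.w i l)) := by
    rw [Complex.exp_sum, ← Finset.prod_mul_distrib]
    refine Finset.prod_congr rfl fun i _ => ?_
    rw [Complex.exp_sum, ← Finset.prod_mul_distrib]
    refine Finset.prod_congr rfl fun l _ => ?_
    rw [_root_.zpow_mul, Complex.exp_int_mul, ← mul_zpow, ← ha]
    congr 1
  have h4 : (∏ i, ∏ l, a i l ^ M i l) ∈ algebraicClosure ℚ ℂ :=
    prod_mem fun i _ => prod_mem fun l _ => zpow_mem (mem_AC.2 (haa i l)) _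
  have h5 : (∏ i, ∏ l, a i l ^ M i l) ≠ 0 :=
    Finset.prod_ne_zero_iff.2 fun i _ => Finset.prod_ne_zero_iff.2 fun l _ =>
      zpow_ne_zero _ (ha0 i l)
  rw [h3] at h1
  have h6 : Complex.exp ((N : ℂ) ^ 2 *
      (u.S (fun i l => (M i l : ℂ)) (pt d - Pe u.w) (pt d - Pe u.w) +
        2 * ∑ i, ∑ l, (M i l : ℂ) * GG A d u.w i l)) =
      (Complex.exp (u.S (fun i l => (M i l : ℂ)) z z) * ((∏ i, ∏ l, a i l ^ M i l) *
        Complex.exp (∑ i, ∑ l, (M i l : ℂ) * (2 * (N : ℂ) ^ 2 * GG A d u.w i l)))) *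
        (∏ i, ∏ l, a i l ^ M i l)⁻¹ := by
    have h7 : ∀ x y c : ℂ, c ≠ 0 → x * (c * y) * c⁻¹ = x * y := by
      intro x y c hc
      field_simp
    rw [h7 _ _ _ h5, ← Complex.exp_add, hzdef, S_smul, S_smul']
    congr 1
    have h8 : ∑ i, ∑ l, (M i l : ℂ) * (2 * (N : ℂ) ^ 2 * GG A d u.w i l) =
        2 * (N : ℂ) ^ 2 * ∑ i, ∑ l, (M i l : ℂ) * GG A d u.w i l := by
      rw [Finset.mul_sum]
      refine Finset.sum_congr rfl fun i _ => ?_
      rw [Finset.mul_sum]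
      exact Finset.sum_congr rfl fun l _ => by ring
    rw [h8]
    ring
  rw [h6]
  exact h1.mul (mem_AC.1 (inv_mem h4))

end UD

end Pool.Agent.R917.BX
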