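import Pool.Agent.R917.BX.Bt
import Pool.Agent.R917.OM.Fld
import Pool.Agent.R917.OM.Rel

set_option autoImplicit false
set_option linter.unusedSectionVars false

/-!
# Multiples of points on the Poincare bundle
-/

open MvPolynomial Filter Topology Module

noncomputable section

namespace Pool.Agent.R917.BX

open Pool.Agent.W245.EB Pool.Agent.Y102 Pool.Agent.R917.OM

variable {g : ℕ}

/-- Lattice vectors whose periods are a complex basis. -/
theorem exists_basis_vec (A : AbVar g) : ∃ f : Fin g → A.H1, (∀ k, f k ∈ A.lat) ∧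
    LinearIndependent ℂ fun k => A.per (f k) := by
  obtain ⟨f, hf, hi, -⟩ := extract (V := Fin g → ℂ) {x | ∃ y ∈ A.lat, x = A.per y} (T := ⊤) (by
    rw [eq_top_iff]
    intro x _
    have h1 : x = ∑ j, ((A.lam.repr x j : ℝ) : ℂ) • A.per (A.bas j) := by
      conv_lhs => rw [← A.lam.sum_repr x]
      refine Finset.sum_congr rfl fun j _ => ?_
      rw [A.per_bas, Complex.coe_smul]
    rw [h1]
    exact Submodule.sum_mem _ fun j _ => Submodule.smul_mem _ _ (Submodule.subset_span
      ⟨A.bas j, AddSubgroup.subset_closure (Set.mem_range_self j), rfl⟩)) (b := g)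
    (by rw [finrank_top, Module.finrank_fin_fun])
  choose y hy hyf using hf
  refine ⟨y, hy, ?_⟩
  have h1 : (fun k => A.per (y k)) = f := funext fun k => (hyf k).symm
  rw [h1]
  exact hi

/-- the first component -/
def p1 (g : ℕ) : (Fin (g + g) → ℂ) →L[ℂ] (Fin g → ℂ) :=
  LinearMap.toContinuousLinearMap (LinearMap.funLeft ℂ ℂ (Fin.castAdd g))

/-- the second component -/
def p2 (g : ℕ) : (Fin (g + g) → ℂ) →L[ℂ] (Fin g → ℂ) :=
  LinearMap.toContinuousLinearMap (LinearMap.funLeft ℂ ℂ (Fin.natAdd g))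

theorem p1_apply (z : Fin (g + g) → ℂ) (i : Fin g) : p1 g z i = z (Fin.castAdd g i) := rfl

theorem p2_apply (z : Fin (g + g) → ℂ) (i : Fin g) : p2 g z i = z (Fin.natAdd g i) := rfl

/-- a pair -/
def pair (x y : Fin g → ℂ) : Fin (g + g) → ℂ := Fin.addCases x y

theorem p1_pair (x y : Fin g → ℂ) : p1 g (pair x y) = x := by
  funext i
  rw [p1_apply]
  unfold pair
  rw [Fin.addCases_left]

theorem p2_pair (x y : Fin g → ℂ) : p2 g (pair x y) = y := by
  funext i
  rw [p2_apply]
  unfold pair
  rw [Fin.addCases_right]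

theorem ext_pair {z z' : Fin (g + g) → ℂ} (h1 : p1 g z = p1 g z') (h2 : p2 g z = p2 g z') :
    z = z' := by
  funext i
  refine Fin.addCases (fun i => ?_) (fun i => ?_) i
  · exact congrFun h1 i
  · exact congrFun h2 i

/-- the factors -/
def cf (N : ℕ) : Bool → ℕ := fun a => if a then N else 1

theorem isAlgebraic_single {b : ℕ} (k i : Fin b) :
    IsAlgebraic ℚ ((Pi.single k 1 : Fin b → ℂ) i) := by
  rw [Pi.single_apply]
  split_ifs
  · exact isAlgebraic_one
  · exact isAlgebraic_zero

variable (A : AbVar g)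

/-- the data -/
def rb (N : ℕ) : BT A (g + g) Bool where
  X a := (cf N a : ℂ) • p1 g
  Y a := (cf N a : ℂ) • p2 g
  Xa a k i := (isAlgebraic_natCast (R := ℚ) (A := ℂ) (cf N a)).mul (isAlgebraic_single _ _)
  Ya a k i := (isAlgebraic_natCast (R := ℚ) (A := ℂ) (cf N a)).mul (isAlgebraic_single _ _)
  inj z h1 h2 := by
    refine ext_pair ?_ ?_
    · have h := h1 false
      rw [map_zero, ← h]
      simp [cf]
    · have h := h2 false
      rw [map_zero, ← h]
      simp [cf]
  M a := if a then 1 else -((N : ℤ) ^ 2)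
  s _ _ := 0
  sa _ _ := isAlgebraic_zero
  ss _ _ := rfl
  U := Fin.addCases (fun k => pair (A.per ((exists_basis_vec A).choose k)) 0)
    (fun k => pair 0 (A.per ((exists_basis_vec A).choose k)))
  hU := by
    have h0 := Fintype.linearIndependent_iff.1 (exists_basis_vec A).choose_spec.2
    rw [Fintype.linearIndependent_iff]
    intro c hc
    rw [Fin.sum_univ_add] at hc
    simp only [Fin.addCases_left, Fin.addCases_right] at hc
    have h1 := congrArg (p1 g) hc
    have h2 := congrArg (p2 g) hc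
    simp only [map_add, map_sum, map_smul, p1_pair, p2_pair, smul_zero, Finset.sum_const_zero,
      add_zero, zero_add, map_zero] at h1 h2
    intro i
    refine Fin.addCases (fun i => ?_) (fun i => ?_) i
    · exact h0 _ h1 i
    · exact h0 _ h2 i
  x a := Fin.addCases (fun k => cf N a • (exists_basis_vec A).choose k) (fun _ => 0)
  y a := Fin.addCases (fun _ => 0) (fun k => cf N a • (exists_basis_vec A).choose k)
  hx a k := by
    refine Fin.addCases (fun k => ?_) (fun k => ?_) k
    · rw [Fin.addCases_left]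
      exact A.lat.nsmul_mem ((exists_basis_vec A).choose_spec.1 k) _
    · rw [Fin.addCases_right]
      exact A.lat.zero_mem
  hy a k := by
    refine Fin.addCases (fun k => ?_) (fun k => ?_) k
    · rw [Fin.addCases_left]
      exact A.lat.zero_mem
    · rw [Fin.addCases_right]
      exact A.lat.nsmul_mem ((exists_basis_vec A).choose_spec.1 k) _
  XU a k := by
    refine Fin.addCases (fun k => ?_) (fun k => ?_) k
    · rw [Fin.addCases_left, Fin.addCases_left, smul_apply, p1_pair, map_nsmul,
        Nat.cast_smul_eq_nsmul]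
    · rw [Fin.addCases_right, Fin.addCases_right, smul_apply, p1_pair, map_zero, smul_zero]
  YU a k := by
    refine Fin.addCases (fun k => ?_) (fun k => ?_) k
    · rw [Fin.addCases_left, Fin.addCases_left, smul_apply, p2_pair, map_zero, smul_zero]
    · rw [Fin.addCases_right, Fin.addCases_right, smul_apply, p2_pair, map_nsmul,
        Nat.cast_smul_eq_nsmul]
  h1 k j := by
    simp only [zero_mul, Finset.sum_const_zero]
    refine Fin.addCases (fun k => ?_) (fun k => ?_) k
    · simp only [Fin.addCases_left, Fintype.sum_bool, map_zero, Pi.zero_apply, zero_mul, add_zero,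
        map_nsmul, smul_apply, Pi.smul_apply, smul_eq_mul]
      simp only [cf, Finset.mul_sum, ← Finset.sum_add_distrib]
      symm
      refine Finset.sum_eq_zero fun i _ => ?_
      simp
      ring
    · simp only [Fin.addCases_right, Fintype.sum_bool, map_zero, Pi.zero_apply, zero_mul, zero_add,
        map_nsmul, smul_apply, Pi.smul_apply, smul_eq_mul]
      simp only [cf, Finset.mul_sum, ← Finset.sum_add_distrib]
      symm
      refine Finset.sum_eq_zero fun i _ => ?_
      simp
      ring

/-- **The canonical height machine**: the multiples. -/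
theorem bt_mul {N : ℕ} {x y : Fin g → ℂ} (hx : IsPoint A x) (hy : IsPoint A (-y))
    (hxy : IsPoint A (x - y)) (hNx : IsPoint A (N • x)) (hNy : IsPoint A (-(N • y)))
    (hNxy : IsPoint A (N • x - N • y)) :
    IsAlgebraic ℚ (bt A (N • x) (N • y) ^ 2 * (bt A x y ^ (2 * N ^ 2))⁻¹) := by
  have h1 := (rb A N).alg (z := pair x y) (by
    rintro (_ | _)
    · have e : (rb A N).X false (pair x y) = x := by
        change ((cf N false : ℕ) : ℂ) • p1 g (pair x y) = x
        rw [p1_pair]
        simp [cf]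
      rw [e]
      exact hx
    · have e : (rb A N).X true (pair x y) = N • x := by
        change ((cf N true : ℕ) : ℂ) • p1 g (pair x y) = N • x
        rw [p1_pair, Nat.cast_smul_eq_nsmul]
        simp [cf]
      rw [e]
      exact hNx) (by
    rintro (_ | _)
    · have e : (rb A N).Y false (pair x y) = y := by
        change ((cf N false : ℕ) : ℂ) • p2 g (pair x y) = y
        rw [p2_pair]
        simp [cf]
      rw [e]
      exact hy
    · have e : (rb A N).Y true (pair x y) = N • y := by
        change ((cf N true : ℕ) : ℂ) • p2 g (pair x y) = N • y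
        rw [p2_pair, Nat.cast_smul_eq_nsmul]
        simp [cf]
      rw [e]
      exact hNy) (by
    rintro (_ | _)
    · have e : (rb A N).X false (pair x y) - (rb A N).Y false (pair x y) = x - y := by
        change ((cf N false : ℕ) : ℂ) • p1 g (pair x y) -
          ((cf N false : ℕ) : ℂ) • p2 g (pair x y) = x - y
        rw [p1_pair, p2_pair]
        simp [cf]
      rw [e]
      exact hxy
    · have e : (rb A N).X true (pair x y) - (rb A N).Y true (pair x y) = N • x - N • y := by
        change ((cf N true : ℕ) : ℂ) • p1 g (pair x y) -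
          ((cf N true : ℕ) : ℂ) • p2 g (pair x y) = N • x - N • y
        rw [p1_pair, p2_pair, Nat.cast_smul_eq_nsmul, Nat.cast_smul_eq_nsmul]
        simp [cf]
      rw [e]
      exact hNxy)
  rw [Fintype.prod_bool] at h1
  have e0 : qf (rb A N).s (pair x y) = 0 := by
    unfold qf
    change ∑ i, ∑ j, (0 : ℂ) * _ * _ = 0
    simp
  have e1 : (rb A N).X true (pair x y) = N • x := by
    change ((cf N true : ℕ) : ℂ) • p1 g (pair x y) = N • x
    rw [p1_pair, Nat.cast_smul_eq_nsmul]
    simp [cf]
  have e2 : (rb A N).Y true (pair x y) = N • y := by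
    change ((cf N true : ℕ) : ℂ) • p2 g (pair x y) = N • y
    rw [p2_pair, Nat.cast_smul_eq_nsmul]
    simp [cf]
  have e3 : (rb A N).X false (pair x y) = x := by
    change ((cf N false : ℕ) : ℂ) • p1 g (pair x y) = x
    rw [p1_pair]
    simp [cf]
  have e4 : (rb A N).Y false (pair x y) = y := by
    change ((cf N false : ℕ) : ℂ) • p2 g (pair x y) = y
    rw [p2_pair]
    simp [cf]
  have e5 : (rb A N).M true = 1 := rfl
  have e6 : (rb A N).M false = -((N : ℤ) ^ 2) := rfl
  rw [e0, e1, e2, e3, e4, e5, e6, Complex.exp_zero, one_mul] at h1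
  have e7 : bt A x y ^ (2 * (-((N : ℤ) ^ 2))) = (bt A x y ^ (2 * N ^ 2))⁻¹ := by
    rw [mul_neg, zpow_neg]
    congr 1
  rw [e7] at h1
  exact_mod_cast h1

theorem alg_of_mem {K : IntermediateField ℚ ℂ} (hK : FiniteDimensional ℚ K) {x : ℂ} (hx : x ∈ K) :
    IsAlgebraic ℚ x := by
  have h1 : IsAlgebraic ℚ (⟨x, hx⟩ : K) := Algebra.IsAlgebraic.isAlgebraic _
  exact h1.algebraMap (A := ℂ)

/-- Suitable multiples of algebraic points. -/
theorem exists_mult (A : AbVarG g) {J : Type} [Fintype J] (z : J → Fin g → ℂ)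
    (hz : ∀ j, IsPoint A.toAbVar (z j)) {N₀ : ℕ} (hN₀ : 0 < N₀) :
    ∃ N : ℕ, 0 < N ∧ N₀ ∣ N ∧ ∀ j, IsPoint A.toAbVar (N • z j) := by
  obtain ⟨K, hK, hr⟩ := exists_rat_mult A z fun j => Or.inl (hz j)
  obtain ⟨ε, hε, hε'⟩ : ∃ ε > 0, ∀ x : Fin g → ℂ, ‖x‖ < ε → A.θ 0 x ≠ 0 := by
    have h1 : ContinuousAt (A.θ 0) 0 := (A.entire 0 0 trivial).continuousAt
    have h2 : A.θ 0 0 ≠ 0 := by
      rw [A.origin.1]
      exact one_ne_zero
    obtain ⟨ε, hε, h3⟩ := Metric.eventually_nhds_iff.1 (h1.eventually_ne h2)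
    exact ⟨ε, hε, fun x hx => h3 (by rwa [dist_zero_right])⟩
  obtain ⟨D, hD, w, hw, hwD⟩ := recur A (N₀ • z) hε 0
  have hne : ∀ j, A.θ 0 ((D * N₀) • z j) ≠ 0 := by
    intro j
    have h1 : ‖(D * N₀) • z j - A.per (w j)‖ < ε := by
      refine lt_of_le_of_lt ?_ hwD
      have h2 := norm_le_pi_norm ((D : ℂ) • (N₀ • z) - fun i => A.per (w i)) j
      have h3 : ((D : ℂ) • (N₀ • z) - fun i => A.per (w i)) j = (D * N₀) • z j - A.per (w j) := by
        rw [Pi.sub_apply, Pi.smul_apply, Pi.smul_apply, Nat.cast_smul_eq_nsmul, smul_smul]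
      rwa [h3] at h2
    have h2 := cc_spec A.toAbVar (hw j) ((D * N₀) • z j - A.per (w j))
    rw [sub_add_cancel] at h2
    rw [h2]
    exact mul_ne_zero (Complex.exp_ne_zero _) (hε' _ h1)
  refine ⟨D * N₀, Nat.mul_pos hD hN₀, Dvd.intro_left D rfl, fun j => ⟨hne j, fun i => ?_⟩⟩
  obtain ⟨c, hc, h⟩ := hr j (D * N₀)
  refine alg_of_mem hK ?_
  have h1 : A.θ i ((D * N₀) • z j) / A.θ 0 ((D * N₀) • z j) =
      (c * A.θ i ((D * N₀) • z j)) / (c * A.θ 0 ((D * N₀) • z j)) := by
    rw [mul_div_mul_left _ _ hc]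
  rw [h1]
  exact div_mem (h i) (h 0)

end Pool.Agent.R917.BX
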