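import Pool.Agent.R917.BX.TProd

set_option autoImplicit false
set_option linter.unusedSectionVars false

/-!
# Products of theta functions which are periodic have algebraic values at algebraic points
-/

open MvPolynomial Filter Topology

noncomputable section

namespace Pool.Agent.R917.BX

open Pool.Agent.W245.EB Pool.Agent.Y102

variable {g : ℕ}

namespace TP

variable {A : AbVar g} {b : ℕ} {ι : Type} [Fintype ι] [DecidableEq ι] (t : TP A b ι)

/-- the polynomial ring -/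
abbrev VV (A : AbVar g) (ι : Type) : Type := ι × Fin (A.N + 1)

theorem comp_deriv {F : (Fin g → ℂ) → ℂ} {x : Fin b → ℂ} (a : ι)
    (hF : AnalyticAt ℂ F (t.L a x)) : AnalyticAt ℂ (fun x => F (t.L a x)) x ∧
      ∀ j, fderiv ℂ (fun x => F (t.L a x)) x (Pi.single j 1) =
        ∑ i, t.L a (Pi.single j 1) i * fderiv ℂ F (t.L a x) (Pi.single i 1) := by
  refine ⟨AnalyticAt.comp (g := F) (f := fun x => t.L a x) hF ((t.L a).analyticAt x), fun j => ?_⟩
  have h1 : HasFDerivAt (fun x => F (t.L a x)) ((fderiv ℂ F (t.L a x)).comp (t.L a)) x :=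
    HasFDerivAt.comp (g := F) (f := fun x => t.L a x) x hF.differentiableAt.hasFDerivAt
      (t.L a).hasFDerivAt
  rw [h1.fderiv]
  change fderiv ℂ F (t.L a x) (t.L a (Pi.single j 1)) = _
  rw [fderiv_dir]

/-- the inclusion of the variables -/
def rn (a : ι) (P : MvPolynomial (Fin (A.N + 1)) ℂ) : MvPolynomial (VV A ι) ℂ :=
  rename (fun p => (a, p)) P

/-- the differential equations -/
def del (j : Fin b) (q : VV A ι) : MvPolynomial (VV A ι) ℂ :=
  ∑ i, C (t.L q.1 (Pi.single j 1) i) * rn q.1 (A.dat.δ i q.2)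

/-- the differential equations of the logarithmic derivatives -/
def eps (k j : Fin b) : MvPolynomial (VV A ι) ℂ := C (t.s j k) +
  ∑ a, C (t.m a : ℂ) * ∑ i, C (t.L a (Pi.single k 1) i) *
    ∑ i', C (t.L a (Pi.single j 1) i') * rn a (A.dat.ε i' i)

theorem rn_ac (a : ι) {P : MvPolynomial (Fin (A.N + 1)) ℂ} (h : ∀ m, IsAlgebraic ℚ (P.coeff m)) :
    rn a P ∈ ac (VV A ι) := rename_mem_ac _ (mem_ac h)

theorem coeff_ac {V : Type} {G : MvPolynomial V ℂ} (hG : G ∈ ac V) (m : V →₀ ℕ) :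
    IsAlgebraic ℚ (G.coeff m) := by
  obtain ⟨G, rfl⟩ := hG
  rw [coeff_map]
  exact KA_alg _

theorem del_ac (j : Fin b) (q : VV A ι) : t.del j q ∈ ac (VV A ι) :=
  sum_mem fun i _ => mul_mem (C_mem_ac (t.La _ _ _)) (rn_ac _ (A.dat.δ_alg i q.2))

theorem eps_ac (k j : Fin b) : t.eps k j ∈ ac (VV A ι) := by
  refine AddMemClass.add_mem (C_mem_ac (t.sa _ _)) (sum_mem fun a _ => mul_mem (C_mem_ac ?_)
    (sum_mem fun i _ => mul_mem (C_mem_ac (t.La _ _ _)) (sum_mem fun i' _ =>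
      mul_mem (C_mem_ac (t.La _ _ _)) (rn_ac _ (A.dat.ε_alg i' i)))))
  exact isAlgebraic_intCast _

theorem deg_C_mul {V : Type} (c : ℂ) {P : MvPolynomial V ℂ} {k : ℕ} (h : P.totalDegree ≤ k) :
    (C c * P).totalDegree ≤ k := by
  refine (totalDegree_mul _ _).trans ?_
  rw [totalDegree_C, zero_add]
  exact h

theorem del_deg (j : Fin b) (q : VV A ι) : (t.del j q).totalDegree ≤ 2 :=
  totalDegree_finsetSum_le fun i _ => deg_C_mul _
    ((totalDegree_rename_le _ _).trans (A.dat.δ_deg i q.2))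

theorem eps_deg (k j : Fin b) : (t.eps k j).totalDegree ≤ 2 := by
  refine (totalDegree_add _ _).trans (max_le (by rw [totalDegree_C]; exact Nat.zero_le _) ?_)
  exact totalDegree_finsetSum_le fun a _ => deg_C_mul _ (totalDegree_finsetSum_le fun i _ =>
    deg_C_mul _ (totalDegree_finsetSum_le fun i' _ => deg_C_mul _
      ((totalDegree_rename_le _ _).trans (A.dat.ε_deg i' i))))

theorem eval_rn (a : ι) (x : Fin b → ℂ) (P : MvPolynomial (Fin (A.N + 1)) ℂ) :
    eval (fun q => t.fa q x) (rn a P) = eval (fun p => A.dat.f p (t.L a x)) P := by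
  unfold rn
  rw [eval_rename]
  rfl

theorem eval_del (a : ι) {x : Fin b → ℂ} (hx : x ∈ t.O) (i : Fin g) (p : Fin (A.N + 1)) :
    fderiv ℂ (A.dat.f p) (t.L a x) (Pi.single i 1) =
      eval (fun q => t.fa q x) (rn a (A.dat.δ i p)) :=
  (A.dat.δ_D i p _ (hx a)).trans (t.eval_rn a x _).symm

theorem eval_eps (a : ι) {x : Fin b → ℂ} (hx : x ∈ t.O) (i' i : Fin g) :
    fderiv ℂ (A.dat.h i) (t.L a x) (Pi.single i' 1) =
      eval (fun q => t.fa q x) (rn a (A.dat.ε i' i)) :=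
  (A.dat.ε_D i' i _ (hx a)).trans (t.eval_rn a x _).symm

theorem fa_deriv {x : Fin b → ℂ} (hx : x ∈ t.O) (q : VV A ι) : AnalyticAt ℂ (t.fa q) x ∧
    ∀ j, fderiv ℂ (t.fa q) x (Pi.single j 1) = eval (fun q => t.fa q x) (t.del j q) := by
  obtain ⟨h1, h2⟩ := t.comp_deriv (F := A.dat.f q.2) q.1 (A.dat.an_f q.2 _ (hx q.1))
  refine ⟨h1, fun j => ?_⟩
  change fderiv ℂ (fun x => A.dat.f q.2 (t.L q.1 x)) x (Pi.single j 1) = _
  rw [h2 j]
  unfold del
  rw [map_sum]
  refine Finset.sum_congr rfl fun i _ => ?_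
  rw [map_mul, eval_C]
  exact congrArg (fun c => t.L q.1 (Pi.single j 1) i * c) (t.eval_del q.1 hx i q.2)

theorem Y_deriv {x : Fin b → ℂ} (hx : x ∈ t.O) (k : Fin b) : AnalyticAt ℂ (t.Y k) x ∧
    ∀ j, fderiv ℂ (t.Y k) x (Pi.single j 1) = eval (fun q => t.fa q x) (t.eps k j) := by
  have hp : ∀ i, AnalyticAt ℂ (fun x : Fin b → ℂ => x i) x := fun i =>
    (ContinuousLinearMap.proj (R := ℂ) (φ := fun _ : Fin b => ℂ) i).analyticAt x
  have hpd : ∀ i j, fderiv ℂ (fun x : Fin b → ℂ => x i) x (Pi.single j 1) =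
      if i = j then 1 else 0 := by
    intro i j
    have h1 : HasFDerivAt (fun x : Fin b → ℂ => x i)
      (ContinuousLinearMap.proj (R := ℂ) (φ := fun _ : Fin b => ℂ) i) x :=
      (ContinuousLinearMap.proj (R := ℂ) (φ := fun _ : Fin b => ℂ) i).hasFDerivAt
    rw [h1.fderiv, ContinuousLinearMap.proj_apply, Pi.single_apply]
  have hh := fun a i => t.comp_deriv (F := A.dat.h i) a (A.dat.an_h i _ (hx a))
  have a1 : AnalyticAt ℂ (fun x : Fin b → ℂ => ∑ i, t.s i k * x i) x :=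
    Finset.analyticAt_fun_sum _ fun i _ => analyticAt_const.mul (hp i)
  have a2 : ∀ a, AnalyticAt ℂ (fun x : Fin b → ℂ => ∑ i, t.L a (Pi.single k 1) i *
      A.dat.h i (t.L a x)) x := fun a =>
    Finset.analyticAt_fun_sum _ fun i _ => analyticAt_const.mul (hh a i).1
  have a3 : AnalyticAt ℂ (fun x : Fin b → ℂ => ∑ a, (t.m a : ℂ) *
      ∑ i, t.L a (Pi.single k 1) i * A.dat.h i (t.L a x)) x :=
    Finset.analyticAt_fun_sum _ fun a _ => analyticAt_const.mul (a2 a)
  refine ⟨a1.add a3, fun j => ?_⟩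
  have e0 : t.Y k = fun x => (∑ i, t.s i k * x i) + ∑ a, (t.m a : ℂ) *
      ∑ i, t.L a (Pi.single k 1) i * A.dat.h i (t.L a x) := rfl
  rw [e0, fderiv_fun_add a1.differentiableAt a3.differentiableAt, add_apply,
    fderiv_fun_sum (fun i _ => ((hp i).differentiableAt).const_mul _),
    fderiv_fun_sum (fun a _ => ((a2 a).differentiableAt).const_mul _), sum_apply, sum_apply]
  unfold eps
  rw [map_add, eval_C, map_sum]
  congr 1
  · rw [Finset.sum_eq_single j]
    · rw [fderiv_const_mul (hp j).differentiableAt, smul_apply, hpd, if_pos rfl, smul_eq_mul,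
        mul_one]
    · intro i _ hi
      rw [fderiv_const_mul (hp i).differentiableAt, smul_apply, hpd, if_neg hi, smul_zero]
    · intro h
      exact absurd (Finset.mem_univ _) h
  · refine Finset.sum_congr rfl fun a _ => ?_
    rw [fderiv_const_mul (a2 a).differentiableAt, smul_apply, smul_eq_mul, map_mul, eval_C,
      map_sum]
    congr 1
    rw [fderiv_fun_sum (fun i _ => ((hh a i).1.differentiableAt).const_mul _), sum_apply]
    refine Finset.sum_congr rfl fun i _ => ?_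
    rw [fderiv_const_mul (hh a i).1.differentiableAt, smul_apply, smul_eq_mul, (hh a i).2 j,
      map_mul, eval_C, map_sum]
    congr 1
    refine Finset.sum_congr rfl fun i' _ => ?_
    rw [map_mul, eval_C]
    exact congrArg (fun c => t.L a (Pi.single j 1) i' * c) (t.eval_eps a hx i' i)

theorem T_deriv {x : Fin b → ℂ} (hx : x ∈ t.O) : AnalyticAt ℂ t.T x ∧
    ∀ k, fderiv ℂ t.T x (Pi.single k 1) = 2 * t.Y k x * t.T x := by
  have hth : ∀ a, AnalyticAt ℂ (fun x => A.θ 0 (t.L a x)) x ∧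
      ∀ j, fderiv ℂ (fun x => A.θ 0 (t.L a x)) x (Pi.single j 1) =
        ∑ i, t.L a (Pi.single j 1) i * pd i (A.θ 0) (t.L a x) := fun a =>
    t.comp_deriv a (A.entire 0 _ trivial)
  have hz : ∀ a, AnalyticAt ℂ (fun x => A.θ 0 (t.L a x) ^ (2 * t.m a)) x ∧
      ∀ k, fderiv ℂ (fun x => A.θ 0 (t.L a x) ^ (2 * t.m a)) x (Pi.single k 1) =
        (2 * t.m a * ∑ i, t.L a (Pi.single k 1) i *
          (pd i (A.θ 0) (t.L a x) / A.θ 0 (t.L a x))) * A.θ 0 (t.L a x) ^ (2 * t.m a) := by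
    intro a
    refine ⟨(hth a).1.zpow (hx a), fun k => ?_⟩
    have h1 := (hasDerivAt_zpow (2 * t.m a) (A.θ 0 (t.L a x)) (Or.inl (hx a))).comp_hasFDerivAt x
      (hth a).1.differentiableAt.hasFDerivAt
    have h2 : fderiv ℂ (fun x => A.θ 0 (t.L a x) ^ (2 * t.m a)) x =
        (((2 * t.m a : ℤ) : ℂ) * A.θ 0 (t.L a x) ^ (2 * t.m a - 1)) •
          fderiv ℂ (fun x => A.θ 0 (t.L a x)) x := h1.fderiv
    rw [h2, smul_apply, (hth a).2 k, zpow_sub_one₀ (hx a), smul_eq_mul]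
    push_cast
    rw [Finset.mul_sum, Finset.mul_sum, Finset.sum_mul]
    refine Finset.sum_congr rfl fun i _ => ?_
    have := hx a
    field_simp
  have hq : AnalyticAt ℂ (fun x => Complex.exp (qf t.s x)) x ∧
      ∀ k, fderiv ℂ (fun x => Complex.exp (qf t.s x)) x (Pi.single k 1) =
        (2 * ∑ i, t.s i k * x i) * Complex.exp (qf t.s x) := by
    refine ⟨(qf_an t.s x).cexp, fun k => ?_⟩
    · have h1 := (qf_deriv t.ss x k).1.differentiableAt.hasFDerivAt.cexp
      rw [h1.fderiv, smul_apply, (qf_deriv t.ss x k).2, smul_eq_mul, mul_comm]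
  obtain ⟨h1, h2⟩ : AnalyticAt ℂ (fun x => ∏ a, A.θ 0 (t.L a x) ^ (2 * t.m a)) x ∧ True :=
    ⟨Finset.analyticAt_fun_prod _ fun a _ => (hz a).1, trivial⟩
  refine ⟨hq.1.mul h1, fun k => ?_⟩
  have h3 := (prod_log (z := x) (v := Pi.single k 1) Finset.univ
    (fun a x => A.θ 0 (t.L a x) ^ (2 * t.m a)) _ fun a _ => ⟨(hz a).1, (hz a).2 k⟩).2
  have e0 : t.T = fun x => Complex.exp (qf t.s x) * ∏ a, A.θ 0 (t.L a x) ^ (2 * t.m a) := rfl
  rw [e0, fderiv_fun_mul hq.1.differentiableAt h1.differentiableAt, add_apply, smul_apply,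
    smul_apply, h3, hq.2 k, smul_eq_mul, smul_eq_mul]
  unfold Y
  have e1 : ∑ a, (2 * (t.m a : ℂ) * ∑ i, t.L a (Pi.single k 1) i *
      (pd i (A.θ 0) (t.L a x) / A.θ 0 (t.L a x))) = 2 * ∑ a, (t.m a : ℂ) *
      ∑ i, t.L a (Pi.single k 1) i * (pd i (A.θ 0) (t.L a x) / A.θ 0 (t.L a x)) := by
    rw [Finset.mul_sum]
    exact Finset.sum_congr rfl fun a _ => by ring
  rw [e1]
  ring

end TP

end Pool.Agent.R917.BX
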