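import Pool.Agent.R917.BX.TAlg

set_option autoImplicit false
set_option linter.unusedSectionVars false

/-!
# Products of theta functions which are periodic have algebraic values at algebraic points
-/

open MvPolynomial Filter Topology

noncomputable section

namespace Pool.Agent.R917.BX

open Pool.Agent.W245.EB Pool.Agent.Y102

variable {g : ℕ}

namespace TP

variable {A : AbVar g} {b : ℕ} {ι : Type} [Fintype ι] [DecidableEq ι] (t : TP A b ι)

theorem fa_zero (q : VV A ι) : IsAlgebraic ℚ (t.fa q 0) := by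
  unfold fa
  rw [map_zero]
  exact A.dat.f_zero q.2

theorem Y_zero (k : Fin b) : IsAlgebraic ℚ (t.Y k 0) := by
  unfold Y
  simp only [Pi.zero_apply, mul_zero, Finset.sum_const_zero, zero_add, map_zero]
  refine isAlgebraic_sum _ _ fun a _ => (isAlgebraic_intCast _).mul
    (isAlgebraic_sum _ _ fun i _ => (t.La _ _ _).mul (A.dat.h_zero i))

theorem T_zero : t.T 0 = 1 := by
  unfold T qf
  simp only [Pi.zero_apply, mul_zero, Finset.sum_const_zero, Complex.exp_zero, map_zero,
    A.origin.1, one_zpow, Finset.prod_const_one, mul_one]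

theorem exists_JJ : ∃ J : Fin b → VV A ι, Function.Injective J ∧
    ∀ v : Fin b → ℂ, (∀ i, fderiv ℂ (t.fa (J i)) 0 v = 0) → v = 0 := by
  have hd : ∀ (q : VV A ι) (v : Fin b → ℂ), fderiv ℂ (t.fa q) 0 v =
      fderiv ℂ (A.dat.f q.2) 0 (t.L q.1 v) := by
    intro q v
    have h0 : AnalyticAt ℂ (A.dat.f q.2) (t.L q.1 0) := by
      rw [map_zero]
      exact A.dat.an_f q.2 _ A.dat.zero_mem
    have h1 : HasFDerivAt (fun x => A.dat.f q.2 (t.L q.1 x))
        ((fderiv ℂ (A.dat.f q.2) (t.L q.1 0)).comp (t.L q.1)) 0 :=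
      HasFDerivAt.comp (g := A.dat.f q.2) (f := fun x => t.L q.1 x) 0
        h0.differentiableAt.hasFDerivAt (t.L q.1).hasFDerivAt
    have h2 : fderiv ℂ (t.fa q) 0 = (fderiv ℂ (A.dat.f q.2) (t.L q.1 0)).comp (t.L q.1) :=
      h1.fderiv
    rw [h2]
    have h3 : t.L q.1 0 = 0 := map_zero _
    rw [h3]
    rfl
  obtain ⟨J, hJ, hJi⟩ := exists_J (E := Fin b → ℂ)
    (fun q : VV A ι => (fderiv ℂ (t.fa q) 0).toLinearMap) (fun v hv => by
      refine t.Li v fun a => A.dat.imm _ fun p => ?_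
      have h1 : fderiv ℂ (t.fa (a, p)) 0 v = 0 := hv (a, p)
      rw [hd] at h1
      exact h1) (m := b) (by rw [Module.finrank_fin_fun])
  exact ⟨J, hJ, hJi⟩

/-- the product of the denominators -/
def Pr (x : Fin b → ℂ) : ℂ := ∏ a, A.θ 0 (t.L a x)

theorem th_ent (a : ι) (i : Fin (A.N + 1)) : AnalyticOnNhd ℂ (fun x => A.θ i (t.L a x)) Set.univ :=
  fun x _ => AnalyticAt.comp (g := A.θ i) (f := fun x => t.L a x) (A.entire i _ trivial)
    ((t.L a).analyticAt x)

theorem pd_ent (a : ι) (i : Fin g) : AnalyticOnNhd ℂ (fun x => pd i (A.θ 0) (t.L a x)) Set.univ :=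
  fun x _ => AnalyticAt.comp (g := pd i (A.θ 0)) (f := fun x => t.L a x)
    (analytic_pd (A.entire 0) i _ trivial) ((t.L a).analyticAt x)

theorem th_gr (a : ι) (i : Fin (A.N + 1)) : GrE (fun x => A.θ i (t.L a x)) :=
  gr_comp (A.gr_theta i) (t.L a)

theorem pd_gr (a : ι) (i : Fin g) : GrE (fun x => pd i (A.θ 0) (t.L a x)) :=
  gr_comp (gr_pd (A.entire 0) (A.gr_theta 0) i) (t.L a)

theorem proj_an (i : Fin b) : AnalyticOnNhd ℂ (fun x : Fin b → ℂ => x i) Set.univ := fun x _ =>
  (ContinuousLinearMap.proj (R := ℂ) (φ := fun _ : Fin b => ℂ) i).analyticAt x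

theorem proj_gr (i : Fin b) : GrE (fun x : Fin b → ℂ => x i) :=
  grE_linear (ContinuousLinearMap.proj (R := ℂ) (φ := fun _ : Fin b => ℂ) i)

/-- the numerator of the logarithmic derivative -/
def Ya (k : Fin b) (x : Fin b → ℂ) : ℂ := (∑ i, t.s i k * x i) * ∏ a, A.θ 0 (t.L a x) +
  ∑ a, (t.m a : ℂ) * ((∑ i, t.L a (Pi.single k 1) i * pd i (A.θ 0) (t.L a x)) *
    ∏ a' ∈ Finset.univ.erase a, A.θ 0 (t.L a' x))

theorem Ya_ent (k : Fin b) : AnalyticOnNhd ℂ (t.Ya k) Set.univ := by
  intro x _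
  refine AnalyticAt.add (AnalyticAt.mul ?_ ?_) (Finset.analyticAt_fun_sum _ fun a _ =>
    analyticAt_const.mul (AnalyticAt.mul ?_ ?_))
  · exact Finset.analyticAt_fun_sum _ fun i _ => analyticAt_const.mul (proj_an i x trivial)
  · exact Finset.analyticAt_fun_prod _ fun a _ => t.th_ent a 0 x trivial
  · exact Finset.analyticAt_fun_sum _ fun i _ => analyticAt_const.mul (t.pd_ent a i x trivial)
  · exact Finset.analyticAt_fun_prod _ fun a _ => t.th_ent a 0 x trivial

theorem Ya_gr (k : Fin b) : GrE (t.Ya k) := by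
  refine GrE.add (GrE.mul ?_ ?_) (grE_sum _ _ fun a _ => grE_const_mul (GrE.mul ?_ ?_) _)
  · exact grE_sum _ _ fun i _ => grE_const_mul (proj_gr i) _
  · exact grE_prod _ _ fun a _ => t.th_gr a 0
  · exact grE_sum _ _ fun i _ => grE_const_mul (t.pd_gr a i) _
  · exact grE_prod _ _ fun a _ => t.th_gr a 0

theorem Ya_mul (k : Fin b) {x : Fin b → ℂ} (hx : x ∈ t.O) :
    (∏ a, A.θ 0 (t.L a x)) * t.Y k x = t.Ya k x := by
  unfold Y Ya
  rw [mul_add, mul_comm _ (∑ i, t.s i k * x i), Finset.mul_sum]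
  congr 1
  refine Finset.sum_congr rfl fun a _ => ?_
  rw [← Finset.mul_prod_erase Finset.univ _ (Finset.mem_univ a)]
  rw [Finset.sum_mul, Finset.mul_sum, Finset.mul_sum, Finset.mul_sum]
  refine Finset.sum_congr rfl fun i _ => ?_
  have := hx a
  field_simp

/-- **The logarithmic derivatives are algebraic.** -/
theorem alg_Y (hb : 0 < b) {z₁ : Fin b → ℂ} (hz : z₁ ∈ t.O)
    (h : ∀ q, IsAlgebraic ℚ (t.fa q z₁)) (k : Fin b) : IsAlgebraic ℚ (t.Y k z₁) := by
  classical
  obtain ⟨J, hJ, hJi⟩ := t.exists_JJ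
  refine transfer hb (V := VV A ι) (fun o => Option.elim o (t.Y k) t.fa) t.isOpen_O ?_ t.hU
    (fun s => (t.per_all (F := fun _ => 0) (fun _ _ _ => rfl) s).1) ?_ ?_ t.del
    (fun j => t.eps k j) (fun _ => 0)
    (fun j p => coeff_ac (t.del_ac j p)) (fun j => coeff_ac (t.eps_ac k j))
    (fun j m => by rw [coeff_zero]; exact isAlgebraic_zero) (fun j p => t.del_deg j p)
    (fun j => t.eps_deg k j) (fun j => by rw [totalDegree_zero]; exact Nat.zero_le _)
    (fun j p z hz => (t.fa_deriv hz p).2 j) ?_ (fun _ => 1) (fun _ _ => analyticAt_const)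
    (fun _ _ => one_ne_zero) ?_ J hJ hJi
    (fun o => Option.elim o (fun x => ∏ a, A.θ 0 (t.L a x)) fun i => fun x => A.θ 0 (t.L (J i).1 x))
    (fun o => Option.elim o (t.Ya k) fun i => fun x => A.θ (J i).2 (t.L (J i).1 x))
    ?_ ?_ ?_ ?_ ?_ ?_ hz h
  · rintro (_ | p) z hz
    · exact (t.Y_deriv hz k).1
    · exact (t.fa_deriv hz p).1
  · rintro (_ | p) s
    · exact (t.per_all (F := t.Y k) (fun x hx l => t.Y_per hx l k) s).2
    · exact (t.per_all (F := t.fa p) (fun x hx l => t.fa_per hx l p) s).2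
  · rintro (_ | p)
    · exact t.Y_zero k
    · exact t.fa_zero p
  · intro j z hz
    rw [map_zero, zero_mul, add_zero]
    exact (t.Y_deriv hz k).2 j
  · intro j z hz
    rw [map_zero, zero_mul, fderiv_fun_const]
    rfl
  · rintro (_ | i) x _
    · exact Finset.analyticAt_fun_prod _ fun a _ => t.th_ent a 0 x trivial
    · exact t.th_ent _ _ x trivial
  · rintro (_ | i)
    · exact t.Ya_ent k
    · exact t.th_ent _ _
  · rintro (_ | i)
    · exact grE_prod _ _ fun a _ => t.th_gr a 0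
    · exact t.th_gr _ _
  · rintro (_ | i)
    · exact t.Ya_gr k
    · exact t.th_gr _ _
  · rintro (_ | i) z hz
    · exact t.Ya_mul k hz
    · exact mul_div_cancel₀ _ (hz _)
  · rintro (_ | i) z hz
    · exact Finset.prod_ne_zero_iff.2 fun a _ => hz a
    · exact hz _

/-- **Periodic products of theta functions are algebraic at algebraic points.** -/
theorem alg_T {z₁ : Fin b → ℂ} (hz : z₁ ∈ t.O)
    (h : ∀ q, IsAlgebraic ℚ (t.fa q z₁)) : IsAlgebraic ℚ (t.T z₁) := by
  classical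
  rcases Nat.eq_zero_or_pos b with hb | hb
  · subst hb
    rw [Subsingleton.elim z₁ 0, t.T_zero]
    exact isAlgebraic_one
  obtain ⟨J, hJ, hJi⟩ := t.exists_JJ
  have hinl : ∀ (P : MvPolynomial (VV A ι) ℂ) (x : Fin b → ℂ),
      eval (fun q : VV A ι ⊕ Fin b => Sum.elim t.fa t.Y q x) (rename Sum.inl P) =
        eval (fun q => t.fa q x) P := by
    intro P x
    rw [eval_rename]
    rfl
  refine transfer hb (V := VV A ι ⊕ Fin b) (fun o => Option.elim o t.T (Sum.elim t.fa t.Y))
    t.isOpen_O ?_ t.hU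
    (fun s => (t.per_all (F := fun _ => 0) (fun _ _ _ => rfl) s).1) ?_ ?_
    (fun j => Sum.elim (fun q => rename Sum.inl (t.del j q)) fun k => rename Sum.inl (t.eps k j))
    (fun _ => 0) (fun j => C 2 * X (Sum.inr j))
    ?_ (fun j m => by rw [coeff_zero]; exact isAlgebraic_zero) ?_ ?_
    (fun j => by rw [totalDegree_zero]; exact Nat.zero_le _)
    (fun j => deg_C_mul _ (by rw [totalDegree_X]))
    ?_ ?_ t.T (fun z hz => (t.T_deriv hz).1)
    ?_ ?_ (fun i => Sum.inl (J i)) (Sum.inl_injective.comp hJ) hJi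
    (fun o => Option.elim o (fun x => ∏ a, A.θ 0 (t.L a x) ^ (-(2 * t.m a)).toNat)
      fun i => fun x => A.θ 0 (t.L (J i).1 x))
    (fun o => Option.elim o (fun x => Complex.exp (qf t.s x) *
        ∏ a, A.θ 0 (t.L a x) ^ (2 * t.m a).toNat)
      fun i => fun x => A.θ (J i).2 (t.L (J i).1 x))
    ?_ ?_ ?_ ?_ ?_ ?_ hz ?_
  · rintro (_ | p | k) z hz
    · exact (t.T_deriv hz).1
    · exact (t.fa_deriv hz p).1
    · exact (t.Y_deriv hz k).1
  · rintro (_ | p | k) s
    · exact (t.per_all (F := t.T) (fun x hx l => t.T_per l) s).2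
    · exact (t.per_all (F := t.fa p) (fun x hx l => t.fa_per hx l p) s).2
    · exact (t.per_all (F := t.Y k) (fun x hx l => t.Y_per hx l k) s).2
  · rintro (_ | p | k)
    · change IsAlgebraic ℚ (t.T 0)
      rw [t.T_zero]
      exact isAlgebraic_one
    · exact t.fa_zero p
    · exact t.Y_zero k
  · rintro j (p | k)
    · exact coeff_ac (rename_mem_ac _ (t.del_ac j p))
    · exact coeff_ac (rename_mem_ac _ (t.eps_ac k j))
  · intro j
    refine coeff_ac (mul_mem (C_mem_ac ?_) (X_mem_ac _))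
    exact isAlgebraic_algebraMap (A := ℂ) (2 : ℚ) |> fun h => by simpa using h
  · rintro j (p | k)
    · exact (totalDegree_rename_le _ _).trans (t.del_deg j p)
    · exact (totalDegree_rename_le _ _).trans (t.eps_deg k j)
  · rintro j (p | k) z hz
    · exact ((t.fa_deriv hz p).2 j).trans (hinl _ z).symm
    · exact ((t.Y_deriv hz k).2 j).trans (hinl _ z).symm
  · intro j z hz
    rw [map_zero, zero_add, map_mul, eval_C, eval_X]
    exact (t.T_deriv hz).2 j
  · intro z hz
    exact mul_ne_zero (Complex.exp_ne_zero _) (Finset.prod_ne_zero_iff.2 fun a _ =>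
      zpow_ne_zero _ (hz a))
  · intro j z hz
    rw [map_mul, eval_C, eval_X]
    exact (t.T_deriv hz).2 j
  · rintro (_ | i) x _
    · exact Finset.analyticAt_fun_prod _ fun a _ => (t.th_ent a 0 x trivial).pow _
    · exact t.th_ent _ _ x trivial
  · rintro (_ | i) x _
    · exact (qf_an t.s x).cexp.mul
        (Finset.analyticAt_fun_prod _ fun a _ => (t.th_ent a 0 x trivial).pow _)
    · exact t.th_ent _ _ x trivial
  · rintro (_ | i)
    · exact grE_prod _ _ fun a _ => grE_pow (t.th_gr a 0) _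
    · exact t.th_gr _ _
  · rintro (_ | i)
    · exact GrE.mul (grE_exp_qf t.s) (grE_prod _ _ fun a _ => grE_pow (t.th_gr a 0) _)
    · exact t.th_gr _ _
  · rintro (_ | i) z hz
    · change (∏ a, A.θ 0 (t.L a z) ^ (-(2 * t.m a)).toNat) * (Complex.exp (qf t.s z) *
        ∏ a, A.θ 0 (t.L a z) ^ (2 * t.m a)) = Complex.exp (qf t.s z) *
        ∏ a, A.θ 0 (t.L a z) ^ (2 * t.m a).toNat
      rw [mul_left_comm, ← Finset.prod_mul_distrib]
      congr 1
      refine Finset.prod_congr rfl fun a _ => ?_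
      rw [← zpow_natCast, ← zpow_natCast, ← zpow_add₀ (hz a)]
      congr 1
      omega
    · exact mul_div_cancel₀ _ (hz _)
  · rintro (_ | i) z hz
    · exact Finset.prod_ne_zero_iff.2 fun a _ => pow_ne_zero _ (hz a)
    · exact hz _
  · rintro (p | k)
    · exact h p
    · exact t.alg_Y hb hz h k

end TP

end Pool.Agent.R917.BX
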