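import Pool.Agent.R917.BX.Theta

set_option autoImplicit false
set_option linter.unusedSectionVars false

/-!
# Products of theta functions which are periodic have algebraic values at algebraic points
-/

open MvPolynomial Filter Topology

noncomputable section

namespace Pool.Agent.R917.BX

open Pool.Agent.W245.EB Pool.Agent.Y102

variable {g : ℕ}

/-- The data of a periodic product of theta functions. -/
structure TP (A : AbVar g) (b : ℕ) (ι : Type) [Fintype ι] where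
  L : ι → (Fin b → ℂ) →L[ℂ] (Fin g → ℂ)
  La : ∀ a k i, IsAlgebraic ℚ (L a (Pi.single k 1) i)
  Li : ∀ x, (∀ a, L a x = 0) → x = 0
  m : ι → ℤ
  s : Fin b → Fin b → ℂ
  sa : ∀ i j, IsAlgebraic ℚ (s i j)
  ss : ∀ i j, s i j = s j i
  U : Fin b → Fin b → ℂ
  hU : LinearIndependent ℂ U
  w : ι → Fin b → A.H1
  hw : ∀ a k, w a k ∈ A.lat
  LU : ∀ a k, L a (U k) = A.per (w a k)
  c : ι → Fin b → ℂ
  hc : ∀ a k z, A.θ 0 (z + A.per (w a k)) =
    Complex.exp (∑ i, A.eta (w a k) i * z i + c a k) * A.θ 0 z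
  h1 : ∀ k j, ∑ i, s i j * U k i =
    -∑ a, (m a : ℂ) * ∑ i, A.eta (w a k) i * L a (Pi.single j 1) i
  h2 : ∀ k, Complex.exp (qf s (U k) + 2 * ∑ a, (m a : ℂ) * c a k) = 1

namespace TP

variable {A : AbVar g} {b : ℕ} {ι : Type} [Fintype ι] [DecidableEq ι] (t : TP A b ι)

/-- the domain -/
def O : Set (Fin b → ℂ) := {x | ∀ a, A.θ 0 (t.L a x) ≠ 0}

/-- the rational functions -/
def fa (q : ι × Fin (A.N + 1)) (x : Fin b → ℂ) : ℂ := A.θ q.2 (t.L q.1 x) / A.θ 0 (t.L q.1 x)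

/-- the logarithmic derivatives -/
def Y (k : Fin b) (x : Fin b → ℂ) : ℂ := ∑ i, t.s i k * x i +
  ∑ a, (t.m a : ℂ) * ∑ i, t.L a (Pi.single k 1) i * (pd i (A.θ 0) (t.L a x) / A.θ 0 (t.L a x))

/-- the function -/
def T (x : Fin b → ℂ) : ℂ := Complex.exp (qf t.s x) * ∏ a, A.θ 0 (t.L a x) ^ (2 * t.m a)

theorem th0_cont : Continuous (A.θ 0) := continuous_iff_continuousAt.2 fun z =>
  (A.entire 0 z trivial).continuousAt

theorem isOpen_O : IsOpen t.O := by
  have h1 : t.O = ⋂ a, {x | A.θ 0 (t.L a x) ≠ 0} := by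
    ext x
    simp [O]
  rw [h1]
  refine isOpen_iInter_of_finite fun a => ?_
  exact isOpen_ne_fun (th0_cont.comp (t.L a).continuous) continuous_const

theorem zero_mem : (0 : Fin b → ℂ) ∈ t.O := by
  intro a
  rw [map_zero, A.origin.1]
  exact one_ne_zero

theorem L_exp (a : ι) (x : Fin b → ℂ) (i : Fin g) : t.L a x i =
    ∑ j, x j * t.L a (Pi.single j 1) i := by
  conv_lhs => rw [show x = ∑ j, x j • (Pi.single j 1 : Fin b → ℂ) from by
    funext i
    rw [Finset.sum_apply]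
    simp [Pi.single_apply]]
  rw [map_sum, Finset.sum_apply]
  exact Finset.sum_congr rfl fun j _ => by rw [map_smul, Pi.smul_apply, smul_eq_mul]

theorem qf_add (x y : Fin b → ℂ) : qf t.s (x + y) =
    qf t.s x + 2 * ∑ j, x j * ∑ i, t.s i j * y i + qf t.s y := by
  unfold qf
  have e1 : ∑ j, x j * ∑ i, t.s i j * y i = ∑ i, ∑ j, t.s i j * x i * y j := by
    refine Finset.sum_congr rfl fun i _ => ?_
    rw [Finset.mul_sum]
    refine Finset.sum_congr rfl fun j _ => ?_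
    rw [t.ss j i]
    ring
  have e2 : ∑ j, x j * ∑ i, t.s i j * y i = ∑ i, ∑ j, t.s i j * y i * x j := by
    simp only [Finset.mul_sum]
    rw [Finset.sum_comm]
    refine Finset.sum_congr rfl fun i _ => Finset.sum_congr rfl fun j _ => ?_
    ring
  rw [two_mul]
  conv_rhs => rw [e1]
  have e3 : ∑ i, ∑ j, t.s i j * x i * y j = ∑ i, ∑ j, t.s i j * y i * x j := by
    rw [← e1, e2]
  conv_rhs =>
    enter [1, 2, 2]
    rw [e3]
  rw [← Finset.sum_add_distrib, ← Finset.sum_add_distrib, ← Finset.sum_add_distrib]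
  refine Finset.sum_congr rfl fun i _ => ?_
  rw [← Finset.sum_add_distrib, ← Finset.sum_add_distrib, ← Finset.sum_add_distrib]
  refine Finset.sum_congr rfl fun j _ => ?_
  simp only [Pi.add_apply]
  ring

theorem add_mem {x : Fin b → ℂ} (hx : x ∈ t.O) (k : Fin b) : x + t.U k ∈ t.O := by
  intro a
  rw [map_add, t.LU, t.hc]
  exact mul_ne_zero (Complex.exp_ne_zero _) (hx a)

theorem fa_per {x : Fin b → ℂ} (hx : x ∈ t.O) (k : Fin b) (q : ι × Fin (A.N + 1)) :
    t.fa q (x + t.U k) = t.fa q x := by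
  unfold fa
  rw [map_add, t.LU]
  exact A.dat.f_per _ (t.hw _ _) _ (hx q.1) q.2

theorem Y_per {x : Fin b → ℂ} (hx : x ∈ t.O) (k j : Fin b) : t.Y j (x + t.U k) = t.Y j x := by
  unfold Y
  have e1 : ∀ a i, pd i (A.θ 0) (t.L a (x + t.U k)) / A.θ 0 (t.L a (x + t.U k)) =
      pd i (A.θ 0) (t.L a x) / A.θ 0 (t.L a x) + A.eta (t.w a k) i := by
    intro a i
    rw [map_add, t.LU]
    exact A.dat.h_per _ (t.hw _ _) _ (hx a) i
  simp only [e1, mul_add, Finset.sum_add_distrib, Pi.add_apply]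
  have e2 := t.h1 k j
  have e3 : ∑ a, (t.m a : ℂ) * ∑ i, t.L a (Pi.single j 1) i * A.eta (t.w a k) i =
      ∑ a, (t.m a : ℂ) * ∑ i, A.eta (t.w a k) i * t.L a (Pi.single j 1) i := by
    refine Finset.sum_congr rfl fun a _ => ?_
    congr 1
    exact Finset.sum_congr rfl fun i _ => mul_comm _ _
  rw [e3, e2]
  ring

theorem T_per {x : Fin b → ℂ} (k : Fin b) : t.T (x + t.U k) = t.T x := by
  unfold T
  have e1 : ∀ a, A.θ 0 (t.L a (x + t.U k)) ^ (2 * t.m a) =
      Complex.exp (2 * (t.m a * ∑ i, A.eta (t.w a k) i * t.L a x i + t.m a * t.c a k)) *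
        A.θ 0 (t.L a x) ^ (2 * t.m a) := by
    intro a
    rw [map_add, t.LU, t.hc, mul_zpow, ← Complex.exp_int_mul]
    congr 2
    push_cast
    ring
  simp only [e1, Finset.prod_mul_distrib]
  rw [← Complex.exp_sum, ← mul_assoc, ← Complex.exp_add, t.qf_add]
  congr 1
  have e2 : ∑ a, (t.m a : ℂ) * ∑ i, A.eta (t.w a k) i * t.L a x i =
      -∑ j, x j * ∑ i, t.s i j * t.U k i := by
    simp only [t.h1, mul_neg, Finset.sum_neg_distrib, neg_neg]
    simp only [t.L_exp _ x, Finset.mul_sum]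
    rw [Finset.sum_comm]
    have e3 : ∀ a : ι, ∑ i : Fin g, ∑ j : Fin b, (t.m a : ℂ) * (A.eta (t.w a k) i *
        (x j * t.L a (Pi.single j 1) i)) = ∑ j, ∑ i, (t.m a : ℂ) * (A.eta (t.w a k) i *
        (x j * t.L a (Pi.single j 1) i)) := fun a => Finset.sum_comm
    rw [Finset.sum_comm]
    simp only [e3]
    rw [Finset.sum_comm]
    refine Finset.sum_congr rfl fun j _ => Finset.sum_congr rfl fun a _ =>
      Finset.sum_congr rfl fun i _ => ?_
    ring
  rw [← Finset.mul_sum, Finset.sum_add_distrib, e2]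
  have e3 : qf t.s x + 2 * ∑ j, x j * ∑ i, t.s i j * t.U k i + qf t.s (t.U k) +
      2 * (-∑ j, x j * ∑ i, t.s i j * t.U k i + ∑ a, (t.m a : ℂ) * t.c a k) =
      qf t.s x + (qf t.s (t.U k) + 2 * ∑ a, (t.m a : ℂ) * t.c a k) := by ring
  rw [e3, Complex.exp_add, t.h2, mul_one]

/-- Periodicity under all multiples. -/
theorem per_all {F : (Fin b → ℂ) → ℂ} (hF : ∀ x ∈ t.O, ∀ k, F (x + t.U k) = F x)
    (s : Fin b → ℕ) : (∑ k, (s k : ℂ) • t.U k) ∈ t.O ∧ F (∑ k, (s k : ℂ) • t.U k) = F 0 := by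
  classical
  have key : ∀ (k : Fin b) (m : ℕ) (x : Fin b → ℂ), x ∈ t.O →
      x + (m : ℂ) • t.U k ∈ t.O ∧ F (x + (m : ℂ) • t.U k) = F x := by
    intro k m x hx
    induction m with
    | zero => simpa using hx
    | succ m ih =>
      have h1 : x + ((m + 1 : ℕ) : ℂ) • t.U k = (x + (m : ℂ) • t.U k) + t.U k := by
        push_cast
        rw [add_smul, one_smul, add_assoc]
      rw [h1]
      exact ⟨t.add_mem ih.1 k, by rw [hF _ ih.1, ih.2]⟩
  have key2 : ∀ S : Finset (Fin b), (∑ k ∈ S, (s k : ℂ) • t.U k) ∈ t.O ∧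
      F (∑ k ∈ S, (s k : ℂ) • t.U k) = F 0 := by
    intro S
    induction S using Finset.induction_on with
    | empty =>
      rw [Finset.sum_empty]
      exact ⟨t.zero_mem, rfl⟩
    | insert k S hk ih =>
      rw [Finset.sum_insert hk, add_comm]
      obtain ⟨h1, h2⟩ := key k (s k) _ ih.1
      exact ⟨h1, h2.trans ih.2⟩
  exact key2 Finset.univ

end TP

end Pool.Agent.R917.BX
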