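import Pool.Agent.R917.BX.Trf
import Pool.Agent.Y102.Theta3

set_option autoImplicit false
set_option linter.unusedSectionVars false

/-!
# Products of theta functions which are periodic
-/

open MvPolynomial Filter Topology

noncomputable section

namespace Pool.Agent.R917.BX

open Pool.Agent.W245.EB Pool.Agent.Y102

section cal

variable {b : ℕ}

theorem prod_log {ι : Type} (s : Finset ι) (F : ι → (Fin b → ℂ) → ℂ) (y : ι → ℂ)
    {z v : Fin b → ℂ} (hF : ∀ a ∈ s, AnalyticAt ℂ (F a) z ∧ fderiv ℂ (F a) z v = y a * F a z) :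
    AnalyticAt ℂ (fun z => ∏ a ∈ s, F a z) z ∧
      fderiv ℂ (fun z => ∏ a ∈ s, F a z) z v = (∑ a ∈ s, y a) * ∏ a ∈ s, F a z := by
  classical
  induction s using Finset.induction_on with
  | empty =>
    refine ⟨by simpa using analyticAt_const, ?_⟩
    simp only [Finset.prod_empty, Finset.sum_empty, zero_mul]
    rw [fderiv_fun_const]
    rfl
  | insert a s ha ih =>
    obtain ⟨h1, h2⟩ := ih fun a' ha' => hF a' (Finset.mem_insert_of_mem ha')
    obtain ⟨h3, h4⟩ := hF a (Finset.mem_insert_self _ _)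
    simp only [Finset.prod_insert ha, Finset.sum_insert ha]
    refine ⟨h3.mul h1, ?_⟩
    rw [fderiv_fun_mul h3.differentiableAt h1.differentiableAt, add_apply, smul_apply, smul_apply,
      h2, h4, smul_eq_mul, smul_eq_mul]
    ring

theorem grE_const (c : ℂ) : GrE (fun _ : Fin b → ℂ => c) := by
  have h1 : GrE (fun _ : Fin b → ℂ => (1 : ℂ)) := ⟨0, le_rfl, fun z => by simp⟩
  have h2 := grE_const_mul h1 c
  simpa using h2

theorem grE_prod {ι : Type} (s : Finset ι) (F : ι → (Fin b → ℂ) → ℂ) (h : ∀ a ∈ s, GrE (F a)) :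
    GrE (fun z => ∏ a ∈ s, F a z) := by
  classical
  induction s using Finset.induction_on with
  | empty =>
    simp only [Finset.prod_empty]
    exact grE_const 1
  | insert a s ha ih =>
    simp only [Finset.prod_insert ha]
    exact GrE.mul (h a (Finset.mem_insert_self _ _))
      (ih fun a' ha' => h a' (Finset.mem_insert_of_mem ha'))

theorem grE_sum {ι : Type} (s : Finset ι) (F : ι → (Fin b → ℂ) → ℂ) (h : ∀ a ∈ s, GrE (F a)) :
    GrE (fun z => ∑ a ∈ s, F a z) := by
  classical
  induction s using Finset.induction_on with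
  | empty =>
    simp only [Finset.sum_empty]
    exact grE_const 0
  | insert a s ha ih =>
    simp only [Finset.sum_insert ha]
    exact GrE.add (h a (Finset.mem_insert_self _ _))
      (ih fun a' ha' => h a' (Finset.mem_insert_of_mem ha'))

theorem grE_pow {F : (Fin b → ℂ) → ℂ} (h : GrE F) (k : ℕ) : GrE (fun z => F z ^ k) := by
  induction k with
  | zero =>
    simp only [pow_zero]
    exact grE_const 1
  | succ k ih =>
    simp only [pow_succ]
    exact GrE.mul ih h

/-- a quadratic form -/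
def qf (s : Fin b → Fin b → ℂ) (x : Fin b → ℂ) : ℂ := ∑ i, ∑ j, s i j * x i * x j

theorem grE_exp_qf (s : Fin b → Fin b → ℂ) : GrE (fun x => Complex.exp (qf s x)) := by
  refine ⟨∑ i, ∑ j, ‖s i j‖, Finset.sum_nonneg fun _ _ => Finset.sum_nonneg fun _ _ =>
    norm_nonneg _, fun z => ?_⟩
  rw [Complex.norm_exp]
  refine Real.exp_le_exp.2 ((Complex.re_le_norm _).trans ?_)
  unfold qf
  rw [Finset.sum_mul]
  refine (norm_sum_le _ _).trans (Finset.sum_le_sum fun i _ => ?_)
  rw [Finset.sum_mul]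
  refine (norm_sum_le _ _).trans (Finset.sum_le_sum fun j _ => ?_)
  rw [mul_assoc, norm_mul]
  refine mul_le_mul_of_nonneg_left ?_ (norm_nonneg _)
  rw [norm_mul]
  have h1 := norm_le_pi_norm z i
  have h2 := norm_le_pi_norm z j
  have h3 : ‖z i‖ * ‖z j‖ ≤ ‖z‖ * ‖z‖ := mul_le_mul h1 h2 (norm_nonneg _) (norm_nonneg _)
  refine h3.trans ?_
  have h0 := norm_nonneg z
  rcases le_total ‖z‖ 1 with h | h
  · have h4 : ‖z‖ * ‖z‖ ≤ 1 := by nlinarith
    have : 0 ≤ ‖z‖ ^ 3 := by positivity
    linarith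
  · have h4 : ‖z‖ * ‖z‖ ≤ ‖z‖ ^ 3 := by
      have : ‖z‖ * ‖z‖ = ‖z‖ ^ 2 := by ring
      rw [this]
      exact pow_le_pow_right₀ h (by norm_num)
    linarith

theorem qf_an (s : Fin b → Fin b → ℂ) (x : Fin b → ℂ) : AnalyticAt ℂ (qf s) x := by
  have hpa : ∀ i, AnalyticAt ℂ (fun x : Fin b → ℂ => x i) x := fun i =>
    (ContinuousLinearMap.proj (R := ℂ) (φ := fun _ : Fin b => ℂ) i).analyticAt x
  unfold qf
  refine Finset.analyticAt_fun_sum _ fun i _ => Finset.analyticAt_fun_sum _ fun j _ => ?_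
  exact (analyticAt_const.mul (hpa i)).mul (hpa j)

theorem qf_deriv {s : Fin b → Fin b → ℂ} (hs : ∀ i j, s i j = s j i) (x : Fin b → ℂ) (k : Fin b) :
    AnalyticAt ℂ (qf s) x ∧
      fderiv ℂ (qf s) x (Pi.single k 1) = 2 * ∑ i, s i k * x i := by
  have hp : ∀ i, HasFDerivAt (fun x : Fin b → ℂ => x i)
      (ContinuousLinearMap.proj (R := ℂ) (φ := fun _ : Fin b => ℂ) i) x := fun i =>
    (ContinuousLinearMap.proj (R := ℂ) (φ := fun _ : Fin b => ℂ) i).hasFDerivAt
  have hpa : ∀ i, AnalyticAt ℂ (fun x : Fin b → ℂ => x i) x := fun i =>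
    (ContinuousLinearMap.proj (R := ℂ) (φ := fun _ : Fin b => ℂ) i).analyticAt x
  constructor
  · unfold qf
    refine Finset.analyticAt_fun_sum _ fun i _ => Finset.analyticAt_fun_sum _ fun j _ => ?_
    exact (analyticAt_const.mul (hpa i)).mul (hpa j)
  · have h1 : HasFDerivAt (qf s) (∑ i, ∑ j, ((s i j * x i) •
        ContinuousLinearMap.proj (R := ℂ) (φ := fun _ : Fin b => ℂ) j + x j • (s i j •
        ContinuousLinearMap.proj (R := ℂ) (φ := fun _ : Fin b => ℂ) i))) x := by
      have h2 : qf s = fun x => ∑ i, ∑ j, s i j * x i * x j := rfl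
      rw [h2]
      refine HasFDerivAt.fun_sum fun i _ => HasFDerivAt.fun_sum fun j _ => ?_
      exact ((hp i).const_mul (s i j)).mul (hp j)
    rw [h1.fderiv]
    simp only [sum_apply, add_apply, smul_apply, ContinuousLinearMap.proj_apply, smul_eq_mul,
      Pi.single_apply, mul_ite, mul_one, mul_zero, Finset.sum_add_distrib, Finset.sum_ite_eq',
      Finset.mem_univ, if_true]
    rw [Finset.sum_comm]
    simp only [Finset.sum_ite_eq', Finset.mem_univ, if_true]
    rw [two_mul]
    congr 1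
    refine Finset.sum_congr rfl fun i _ => ?_
    rw [hs k i, mul_comm]

end cal

end Pool.Agent.R917.BX
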