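import Pool.Agent.R917.BX.Jet
import Pool.Agent.R917.OM.Rec

set_option autoImplicit false
set_option linter.unusedSectionVars false

/-!
# Transfer of algebraicity from one point to another
-/

open MvPolynomial Filter Topology

noncomputable section

namespace Pool.Agent.R917.BX

open Pool.Agent.W245.EB Pool.Agent.Y102

theorem transport {n : ℕ} {I : Type} [Fintype I] (F : MvPolynomial I ℂ)
    (vb Th A : I → (Fin n → ℂ) → ℂ) (hTha : ∀ i, AnalyticOnNhd ℂ (Th i) Set.univ)
    (hAa : ∀ i, AnalyticOnNhd ℂ (A i) Set.univ) {O : Set (Fin n → ℂ)} (hO : IsOpen O)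
    (hTh : ∀ i, ∀ z ∈ O, Th i z * vb i z = A i z) (hne : ∀ i, ∀ z ∈ O, Th i z ≠ 0)
    {z₀ : Fin n → ℂ} (hz₀ : z₀ ∈ O) (h : ∀ᶠ z in 𝓝 z₀, eval (fun i => vb i z) F = 0) :
    ∀ z ∈ O, eval (fun i => vb i z) F = 0 := by
  classical
  obtain ⟨N, hN⟩ : ∃ N, N = F.totalDegree := ⟨_, rfl⟩
  let H : (Fin n → ℂ) → ℂ := fun z => ∑ m ∈ F.support,
    F.coeff m * ∏ i, (A i z ^ m i * Th i z ^ (N - m i))
  have hH : AnalyticOnNhd ℂ H Set.univ := by
    intro z _
    refine Finset.analyticAt_fun_sum _ fun m _ => ?_
    refine analyticAt_const.mul ?_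
    refine Finset.analyticAt_fun_prod _ fun i _ => ?_
    exact ((hAa i z trivial).pow _).mul ((hTha i z trivial).pow _)
  have hHO : ∀ z ∈ O, H z = (∏ i, Th i z ^ N) * eval (fun i => vb i z) F := by
    intro z hz
    rw [eval_eq', Finset.mul_sum]
    refine Finset.sum_congr rfl fun m hm => ?_
    rw [mul_left_comm, ← Finset.prod_mul_distrib]
    congr 1
    refine Finset.prod_congr rfl fun i _ => ?_
    have h1 : m i ≤ N := by
      rw [hN]
      refine le_trans ?_ (le_totalDegree hm)
      by_cases hi : i ∈ m.support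
      · exact Finset.single_le_sum (f := fun i => m i) (fun _ _ => Nat.zero_le _) hi
      · rw [Finsupp.notMem_support_iff.1 hi]
        exact Nat.zero_le _
    have h2 : Th i z ^ N = Th i z ^ m i * Th i z ^ (N - m i) := by
      rw [← pow_add, Nat.add_sub_cancel' h1]
    rw [h2, ← hTh i z hz, mul_pow]
    ring
  have h1 : ∀ᶠ z in 𝓝 z₀, H z = 0 := by
    filter_upwards [h, hO.mem_nhds hz₀] with z hz hzO
    rw [hHO z hzO, hz, mul_zero]
  have h2 := AnalyticOnNhd.eqOn_zero_of_preconnected_of_eventuallyEq_zero (f := H) hH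
    isPreconnected_univ (Set.mem_univ z₀) h1
  intro z hz
  have h3 : H z = 0 := h2 (Set.mem_univ z)
  rw [hHO z hz] at h3
  exact (mul_eq_zero.1 h3).resolve_left (Finset.prod_ne_zero_iff.2 fun i _ =>
    pow_ne_zero _ (hne i z hz))

/-- A relation with algebraic coefficients. -/
theorem alg_relation {n : ℕ} {V : Type} [Fintype V] [DecidableEq V]
    {δ : Fin n → V → MvPolynomial V ℂ} (hδ : ∀ j p, δ j p ∈ ac V) {x : V → ℂ}
    (hx : ∀ p, IsAlgebraic ℚ (x p)) {I : Type} (b : I → V) {P : MvPolynomial I ℂ} (hP : P ≠ 0)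
    (h : rename b P ∈ zs δ x) : ∃ F : MvPolynomial I ℂ, F ≠ 0 ∧ F ∈ ac I ∧
      rename b F ∈ zs δ x := by
  classical
  obtain ⟨m₀, hm₀⟩ : ∃ m, P.coeff m ≠ 0 := by
    by_contra hcon
    push Not at hcon
    apply hP
    ext m
    rw [hcon m, coeff_zero]
  obtain ⟨lam, hlam⟩ : ∃ lam : Module.Dual KA ℂ, lam (P.coeff m₀) ≠ 0 := by
    by_contra hcon
    push Not at hcon
    exact hm₀ ((Module.forall_dual_apply_eq_zero_iff KA _).1 hcon)
  let F : MvPolynomial I ℂ := ∑ m ∈ P.support, monomial m ((lam (P.coeff m) : KA) : ℂ)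
  refine ⟨F, fun h0 => hlam ?_, ?_, fun w => ?_⟩
  · have h1 : F.coeff m₀ = ((lam (P.coeff m₀) : KA) : ℂ) := by
      simp only [F, coeff_sum, coeff_monomial]
      rw [Finset.sum_ite_eq' P.support m₀]
      rw [if_pos (mem_support_iff.2 hm₀)]
    rw [h0, coeff_zero] at h1
    exact_mod_cast h1.symm
  · refine sum_mem fun m _ => ⟨monomial m (lam (P.coeff m)), ?_⟩
    rw [map_monomial]
    rfl
  · have hmon : ∀ m : I →₀ ℕ, ∃ a : KA, (a : ℂ) = eval x (dw δ w (rename b (monomial m 1))) := by
      intro m
      refine ⟨⟨_, mem_algebraicClosure_iff.2 (eval_ac hx (dw_mem_ac hδ w (rename_mem_ac b ?_)))⟩,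
        rfl⟩
      exact ⟨monomial m 1, by rw [map_monomial, map_one]⟩
    choose a ha using hmon
    have key : ∀ (m : I →₀ ℕ) (c : ℂ), eval x (dw δ w (rename b (monomial m c))) = a m • c := by
      intro m c
      have h1 : (monomial m c : MvPolynomial I ℂ) = c • monomial m 1 := by
        rw [smul_monomial, smul_eq_mul, mul_one]
      rw [h1, map_smul, map_smul, smul_eval, ← ha, mul_comm]
      rfl
    have h1 := h w
    rw [P.as_sum] at h1
    simp only [map_sum, key] at h1
    have h2 := congrArg lam h1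
    simp only [map_sum, map_smul, map_zero] at h2
    simp only [F, map_sum, key]
    have h3 : ((∑ m ∈ P.support, a m • lam (P.coeff m) : KA) : ℂ) = 0 := by
      rw [h2]
      rfl
    rw [← h3]
    push_cast
    refine Finset.sum_congr rfl fun m _ => ?_
    rfl

/-- **Transfer of algebraicity.** Functions with algebraic differential equations which are periodic
and algebraic at the origin; one of them satisfies a linear equation. If the other functions are
algebraic at a point then it is algebraic at this point, too. -/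
theorem transfer {n : ℕ} (hn : 0 < n) {V : Type} [Fintype V] [DecidableEq V]
    (val : Option V → (Fin n → ℂ) → ℂ) {O : Set (Fin n → ℂ)} (hO : IsOpen O)
    (han : ∀ p, AnalyticOnNhd ℂ (val p) O)
    {U : Fin n → Fin n → ℂ} (hU : LinearIndependent ℂ U)
    (hpt : ∀ s : Fin n → ℕ, (∑ k, (s k : ℂ) • U k) ∈ O)
    (hper : ∀ p, ∀ s : Fin n → ℕ, val p (∑ k, (s k : ℂ) • U k) = val p 0)
    (hval : ∀ p, IsAlgebraic ℚ (val p 0))
    (δ : Fin n → V → MvPolynomial V ℂ) (a R : Fin n → MvPolynomial V ℂ)
    (hδa : ∀ j p m, IsAlgebraic ℚ ((δ j p).coeff m)) (haa : ∀ j m, IsAlgebraic ℚ ((a j).coeff m))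
    (hRa : ∀ j m, IsAlgebraic ℚ ((R j).coeff m))
    (hδd : ∀ j p, (δ j p).totalDegree ≤ 2) (had : ∀ j, (a j).totalDegree ≤ 2)
    (hRd : ∀ j, (R j).totalDegree ≤ 1)
    (hD : ∀ j p, ∀ z ∈ O, fderiv ℂ (val (some p)) z (Pi.single j 1) =
      eval (fun q => val (some q) z) (δ j p))
    (hDn : ∀ j, ∀ z ∈ O, fderiv ℂ (val none) z (Pi.single j 1) =
      eval (fun q => val (some q) z) (a j) + eval (fun q => val (some q) z) (R j) * val none z)
    (e : (Fin n → ℂ) → ℂ) (hea : AnalyticOnNhd ℂ e O) (he0 : ∀ z ∈ O, e z ≠ 0)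
    (heD : ∀ j, ∀ z ∈ O, fderiv ℂ e z (Pi.single j 1) =
      eval (fun q => val (some q) z) (R j) * e z)
    (J : Fin n → V) (hJ : Function.Injective J)
    (hJi : ∀ v : Fin n → ℂ, (∀ i, fderiv ℂ (val (some (J i))) 0 v = 0) → v = 0)
    (Th A : Option (Fin n) → (Fin n → ℂ) → ℂ) (hTha : ∀ i, AnalyticOnNhd ℂ (Th i) Set.univ)
    (hAa : ∀ i, AnalyticOnNhd ℂ (A i) Set.univ) (hThg : ∀ i, GrE (Th i)) (hAg : ∀ i, GrE (A i))
    (hTh : ∀ i, ∀ z ∈ O, Th i z * val (Option.map J i) z = A i z)
    (hne : ∀ i, ∀ z ∈ O, Th i z ≠ 0) {z₁ : Fin n → ℂ} (hz₁ : z₁ ∈ O)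
    (hval1 : ∀ p, IsAlgebraic ℚ (val (some p) z₁)) : IsAlgebraic ℚ (val none z₁) := by
  classical
  by_contra hcon
  have h0O : (0 : Fin n → ℂ) ∈ O := by
    have h1 := hpt 0
    simpa using h1
  -- the differential equations
  let δ' : Fin n → Option V → MvPolynomial (Option V) ℂ := fun j p =>
    Option.elim p (rename some (a j) + rename some (R j) * X none) (fun p => rename some (δ j p))
  have hac : ∀ j p, δ' j p ∈ ac (Option V) := by
    intro j p
    rcases p with _ | p
    · exact add_mem (rename_mem_ac _ (mem_ac (haa j)))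
        (mul_mem (rename_mem_ac _ (mem_ac (hRa j))) (X_mem_ac _))
    · exact rename_mem_ac _ (mem_ac (hδa j p))
  have hcoeff : ∀ G ∈ ac (Option V), ∀ m, IsAlgebraic ℚ (G.coeff m) := by
    rintro _ ⟨G, rfl⟩ m
    rw [coeff_map]
    exact KA_alg _
  have hD' : ∀ j p, ∀ z ∈ O, fderiv ℂ (val p) z (Pi.single j 1) =
      eval (fun q => val q z) (δ' j p) := by
    intro j p z hz
    rcases p with _ | p
    · change _ = eval _ (rename some (a j) + rename some (R j) * X none)
      rw [map_add, map_mul, eval_rename, eval_rename, eval_X, hDn j z hz]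
      rfl
    · change _ = eval _ (rename some (δ j p))
      rw [eval_rename, hD j p z hz]
      rfl
  have hdeg : ∀ j p, (δ' j p).totalDegree ≤ 2 := by
    intro j p
    rcases p with _ | p
    · refine (totalDegree_add _ _).trans (max_le ((totalDegree_rename_le _ _).trans (had j)) ?_)
      refine (totalDegree_mul _ _).trans ?_
      have h1 := (totalDegree_rename_le (some : V → Option V) (R j)).trans (hRd j)
      have h2 : (X none : MvPolynomial (Option V) ℂ).totalDegree = 1 := totalDegree_X _
      omega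
    · exact (totalDegree_rename_le _ _).trans (hδd j p)
  let b : Option (Fin n) → Option V := Option.map J
  obtain ⟨P, hP, hPz⟩ := Pool.Agent.Y102.schneiderLang hn val O hO han U hU hpt hper hval δ'
    (fun j p m => hcoeff _ (hac j p) m) hdeg hD' (I := Option (Fin n))
    (by rw [Fintype.card_option, Fintype.card_fin]) b (Option.map_injective hJ) Th A hTha hAa hThg
    hAg hTh (fun i s => hne i _ (hpt s))
  have hP0 : ∀ᶠ z in 𝓝 (0 : Fin n → ℂ), eval (fun q => val q z) (rename b P) = 0 := by
    filter_upwards [hO.mem_nhds h0O] with z hz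
    rw [eval_rename]
    exact hPz z hz fun i => hne i z hz
  obtain ⟨F, hF, hFa, hFz⟩ := alg_relation hac hval b hP
    (mem_zs δ' val hO (fun p z hz => han p z hz) hD' h0O hP0)
  -- the relation on the whole domain
  obtain ⟨r0, hr0, hball0⟩ := Metric.isOpen_iff.1 hO _ h0O
  have hF1 : ∀ᶠ z in 𝓝 (0 : Fin n → ℂ), eval (fun i => val (b i) z) F = 0 := by
    filter_upwards [Metric.ball_mem_nhds (0 : Fin n → ℂ) hr0] with z hz
    have h1 := eventually_of_zs δ' val (r := r0) (fun p z hz => han p z (hball0 hz))
      (fun j p z hz => hD' j p z (hball0 hz)) hFz hz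
    rw [eval_rename] at h1
    exact h1
  have hF2 := transport F (fun i => val (b i)) Th A hTha hAa hO hTh hne h0O hF1
  have hF3 : ∀ᶠ z in 𝓝 z₁, eval (fun q => val q z) (rename b F) = 0 := by
    filter_upwards [hO.mem_nhds hz₁] with z hz
    rw [eval_rename]
    exact hF2 z hz
  have hF4 := mem_zs δ' val hO (fun p z hz => han p z hz) hD' hz₁ hF3
  have hsb : ∀ z, (fun q => val q z) = sb (val none z) (fun p => val (some p) z) := by
    intro z
    funext q
    rcases q with _ | q <;> rfl
  -- the modified functions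
  have hF5 : ∀ t : ℂ, rename b F ∈ zs δ' (sb t fun p => val (some p) z₁) := by
    intro t w
    refine all_of_transcendental hval1 hcon (dw_mem_ac hac w (rename_mem_ac b hFa)) ?_ t
    have h1 := hF4 w
    rwa [hsb] at h1
  obtain ⟨r1, hr1, hball1⟩ := Metric.isOpen_iff.1 hO _ hz₁
  have hF6 : ∀ t : ℂ, ∀ z ∈ Metric.ball z₁ r1,
      eval (sb (val none z + t * e z) fun p => val (some p) z) (rename b F) = 0 := by
    intro t z hz
    let val' : Option V → (Fin n → ℂ) → ℂ := fun p z =>
      Option.elim p (val none z + t * e z) (fun p => val (some p) z)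
    have hv : ∀ z, (fun q => val' q z) =
        sb (val none z + t * e z) (fun p => val (some p) z) := by
      intro z
      funext q
      rcases q with _ | q <;> rfl
    have h1 := eventually_of_zs δ' val' (z₀ := z₁) (r := r1) (fun p z hz => by
        rcases p with _ | p
        · exact (han none z (hball1 hz)).add (analyticAt_const.mul (hea z (hball1 hz)))
        · exact han (some p) z (hball1 hz))
      (fun j p z hz => by
        have hzO := hball1 hz
        rcases p with _ | p
        · change fderiv ℂ (fun z => val none z + t * e z) z (Pi.single j 1) =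
            eval _ (rename some (a j) + rename some (R j) * X none)
          rw [fderiv_fun_add (han none z hzO).differentiableAt
            ((hea z hzO).differentiableAt.const_mul t), add_apply, hDn j z hzO,
            fderiv_const_mul (hea z hzO).differentiableAt, smul_apply, heD j z hzO,
            map_add, map_mul, eval_rename, eval_rename, eval_X]
          change _ = eval (fun q => val (some q) z) (a j) +
            eval (fun q => val (some q) z) (R j) * (val none z + t * e z)
          rw [smul_eq_mul]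
          ring
        · change fderiv ℂ (val (some p)) z (Pi.single j 1) = eval _ (rename some (δ j p))
          rw [eval_rename, hD j p z hzO]
          rfl)
      (G := rename b F) (by rw [hv]; exact hF5 _) hz
    rw [hv] at h1
    exact h1
  -- all values of the last function
  have hF7 : ∀ z ∈ Metric.ball z₁ r1, ∀ t : ℂ,
      eval (sb t fun i => val (some (J i)) z) F = 0 := by
    intro z hz t
    have h1 := hF6 ((t - val none z) / e z) z hz
    rw [div_mul_cancel₀ _ (he0 z (hball1 hz)), add_sub_cancel, eval_rename] at h1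
    have h2 : (sb t fun p => val (some p) z) ∘ b = sb t fun i => val (some (J i)) z := by
      funext i
      rcases i with _ | i <;> rfl
    rwa [h2] at h1
  let Q := optionEquivLeft ℂ (Fin n) F
  have hQ : Q ≠ 0 := by
    intro h0
    apply hF
    exact (optionEquivLeft ℂ (Fin n)).injective (by rw [map_zero]; exact h0)
  have hlead : ∀ z ∈ Metric.ball z₁ r1, eval (fun i => val (some (J i)) z) Q.leadingCoeff = 0 := by
    intro z hz
    have h1 : Q.map (eval fun i => val (some (J i)) z) = 0 := by
      apply Polynomial.funext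
      intro t
      have h2 := hF7 z hz t
      have h3 := Pool.Agent.R917.OM.eval_opt F t (fun i => val (some (J i)) z)
      have h4 : (Pool.Agent.R917.OM.sb t fun i => val (some (J i)) z) =
          sb t fun i => val (some (J i)) z := by
        funext i
        rcases i with _ | i <;> rfl
      rw [h4, h2] at h3
      rw [Polynomial.eval_zero]
      exact h3.symm
    have h2 := congrArg (fun q : Polynomial ℂ => q.coeff Q.natDegree) h1
    simp only [Polynomial.coeff_map, Polynomial.coeff_zero] at h2
    exact h2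
  have hlead2 := transport Q.leadingCoeff (fun i => val (some (J i))) (fun i => Th (some i))
    (fun i => A (some i)) (fun i => hTha _) (fun i => hAa _) hO (fun i z hz => hTh (some i) z hz)
    (fun i z hz => hne (some i) z hz) hz₁ (by
      filter_upwards [Metric.ball_mem_nhds z₁ hr1] with z hz
      exact hlead z hz)
  apply hQ
  rw [← Polynomial.leadingCoeff_eq_zero]
  refine poly_zero_of_indep (E := Fin n → ℂ) (by rw [Module.finrank_fin_fun, Fintype.card_fin])
    (fun i => val (some (J i))) (fun i => han _ 0 h0O) hJi _ ?_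
  filter_upwards [hO.mem_nhds h0O] with z hz
  exact hlead2 z hz

end Pool.Agent.R917.BX
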