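import Pool.Agent.R917.BX.End
import Pool.Agent.R917.BX.AdExp
import Pool.Agent.R917.BX.PGrp

set_option autoImplicit false
set_option linter.unusedSectionVars false
set_option linter.unusedSimpArgs false

/-!
# The unipotent radical of the Mumford-Tate group
-/

open Module Function TensorProduct Matrix

noncomputable section

namespace Pool.Agent.R917.BX

open Pool.Agent.Y102 Pool.Agent.W516.DR Pool.Agent.H204R3.GP Pool.Agent.W516.KC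
  Pool.Agent.H204R3.SP Pool.Agent.TH119.MX Pool.Agent.R917.OM

section dual

variable {V : Type*} [AddCommGroup V] [Module ℚ V]

theorem mem_of_dual {T : Submodule ℚ V} {t : V}
    (h : ∀ φ : V →ₗ[ℚ] ℚ, (∀ x ∈ T, φ x = 0) → φ t = 0) : t ∈ T := by
  by_contra hcon
  obtain ⟨φ, hφ2, hφ1⟩ := Submodule.exists_le_ker_of_notMem hcon
  exact hφ2 (h φ fun x hx => LinearMap.mem_ker.1 (hφ1 hx))

end dual

variable {g : ℕ} {A : AbVarG g} {n s : ℕ} {𝔤 : Submodule ℚ (Tup A.toAbVar n s)} {d : Dt g n s}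

namespace UD

variable (u : UD 𝔤 d)

/-- The vector of weight minus two in the adapted frame. -/
theorem exists_t0 (h : Lg 𝔤 d) : ∃ t₀ : Fin n → Fin s → ℚ,
    ∀ φ : (Fin n → Fin s → ℚ) →ₗ[ℚ] ℚ, ∀ ρ : ℚ,
      (∀ L ∈ 𝔤.map (cj u.w), φ L.2.2.2 = 2 * L.2.1 * ρ) → φ t₀ = ρ := by
  obtain ⟨Z, hZ, hc0, -⟩ := exists_central (map_Lg u.w h)
  refine ⟨(2 * Z.2.1)⁻¹ • Z.2.2.2, fun φ ρ hρ => ?_⟩
  rw [map_smul, hρ Z hZ, smul_eq_mul]
  field_simp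

theorem exists_rho (h : Lg 𝔤 d) {φ : (Fin n → Fin s → ℚ) →ₗ[ℚ] ℚ}
    (hφ : ∀ t ∈ tt 𝔤, φ t = 0) : ∃ ρ : ℚ, ∀ L ∈ 𝔤.map (cj u.w), φ L.2.2.2 = 2 * L.2.1 * ρ := by
  have hφ' : ∀ t ∈ tt (𝔤.map (cj u.w)), φ t = 0 := by
    rw [tt_map]
    exact hφ
  exact phi_levi' (map_Lg u.w h) hφ' (u.hBmap h φ hφ')

/-- The unipotent part. -/
theorem unip_mem (h : Lg 𝔤 d) {z : (Fin n ⊕ Fin s) → A.H1} {t : Fin n → Fin s → ℚ} :
    ((0, 0, z, t) : Tup A.toAbVar n s) ∈ 𝔤 ↔ z ∈ uu 𝔤 ∧ t + bb u.w z ∈ tt 𝔤 := by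
  have key : ∀ t', ((0, 0, z, t') : Tup A.toAbVar n s) ∈ 𝔤 → t' + bb u.w z ∈ tt 𝔤 := by
    intro t' ht'
    refine mem_of_dual fun φ hφ => ?_
    have hφ' : ∀ t ∈ tt (𝔤.map (cj u.w)), φ t = 0 := by
      rw [tt_map]
      exact hφ
    have h1 : ((0, 0, z, t' + bb u.w z) : Tup A.toAbVar n s) ∈ 𝔤.map (cj u.w) := by
      refine ⟨_, ht', ?_⟩
      rw [cj_unip]
      refine Prod.ext rfl (Prod.ext rfl (Prod.ext rfl ?_))
      funext i l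
      simp only [bb, Pi.add_apply]
      ring
    exact phi_graded' (map_Lg u.w h) hφ' (u.hBmap h φ hφ') h1
  constructor
  · intro h1
    exact ⟨⟨t, h1⟩, key t h1⟩
  · rintro ⟨⟨t', ht'⟩, h2⟩
    have h3 := key t' ht'
    have h4 : t - t' ∈ tt 𝔤 := by
      have h5 := (tt 𝔤).sub_mem h2 h3
      rwa [add_sub_add_right_eq_sub] at h5
    have h5 := 𝔤.add_mem ht' (mem_tt.1 h4)
    simpa using h5

include u in
/-- Stability under the Lie algebra of the Hodge group. -/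
theorem uu_NA (h : Lg 𝔤 d) {L : Tup A.toAbVar n s} (hL : L.1 ∈ A.NA)
    {z : (Fin n ⊕ Fin s) → A.H1} (hz : z ∈ uu 𝔤) : (fun p => op L (z p)) ∈ uu 𝔤 := by
  rw [← u.π0] at hz ⊢
  funext p
  rw [u.fπ]
  have h1 : ∀ q, u.f p q (L.1 (z q)) = L.1 (u.f p q (z q)) := by
    intro q
    have h2 := h.full.comm (u.f p q) (u.fc p q) L.1 hL
    exact (congrArg (fun T : Module.End ℚ A.H1 => T (z q)) h2).symm
  simp only [op_apply, map_add, map_smul, h1]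
  rw [Finset.sum_add_distrib, ← map_sum, ← Finset.smul_sum]
  have h3 : ∑ q, u.f p q (z q) = 0 := by
    rw [← u.fπ, hz]
    rfl
  rw [h3, map_zero, smul_zero, add_zero]
  rfl

variable (t₀ : Fin n → Fin s → ℚ)

/-- the grading element -/
def Zt : Tup A.toAbVar n s := (0, 1, u.w, (2 : ℚ) • t₀)

theorem op_Zt (x : A.H1) : op (u.Zt t₀) x = x := by
  rw [op_apply]
  change (0 : Module.End ℚ A.H1) x + (1 : ℚ) • x = x
  rw [LinearMap.zero_apply, zero_add, one_smul]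

theorem cj_Zt : cj u.w (u.Zt t₀) = (0, 1, 0, (2 : ℚ) • t₀) := by
  refine Prod.ext rfl (Prod.ext rfl (Prod.ext ?_ ?_))
  · funext p
    rw [cj_z, op_Zt]
    exact sub_self _
  · funext i l
    rw [cj_t, op_Zt, op_Zt]
    change ((2 : ℚ) • t₀) i l + A.om (u.w (Sum.inr l)) (u.w (Sum.inl i)) -
      A.om (u.w (Sum.inr l)) (u.w (Sum.inl i)) + (1 / 2 : ℚ) *
      (A.om (u.w (Sum.inr l)) (u.w (Sum.inl i)) - A.om (u.w (Sum.inr l)) (u.w (Sum.inl i))) = _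
    rw [sub_self, mul_zero, add_zero, add_sub_cancel_right]

/-- The elements of the Lie algebra of the big group. -/
def InP (L : Tup A.toAbVar n s) : Prop := L.1 ∈ A.NA ∧ (cj u.w L).2.2.1 ∈ uu 𝔤 ∧
  (cj u.w L).2.2.2 - (2 * L.2.1) • t₀ ∈ tt 𝔤

theorem mem_of_cj (h : Lg 𝔤 d) {L : Tup A.toAbVar n s} {z : (Fin n ⊕ Fin s) → A.H1}
    {t : Fin n → Fin s → ℚ} (hz : z ∈ uu 𝔤) (ht : t ∈ tt 𝔤)
    (hL : cj u.w L = ((0, 0, z, t) : Tup A.toAbVar n s)) :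
    L ∈ 𝔤 ∧ L.1 = 0 ∧ L.2.1 = 0 := by
  have h1 : L = ((0, 0, z, t - bb u.w z) : Tup A.toAbVar n s) := by
    apply cj_inj u.w
    rw [hL, cj_unip]
    refine Prod.ext rfl (Prod.ext rfl (Prod.ext rfl ?_))
    funext i l
    simp only [bb, Pi.sub_apply]
    ring
  refine ⟨?_, ?_, ?_⟩
  · rw [h1, u.unip_mem h]
    exact ⟨hz, by rwa [sub_add_cancel]⟩
  · rw [h1]
  · rw [h1]

theorem br_unip (h : Lg 𝔤 d) {L : Tup A.toAbVar n s} (hL : u.InP t₀ L)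
    {z : (Fin n ⊕ Fin s) → A.H1} {t : Fin n → Fin s → ℚ}
    (hz : ((0, 0, z, t) : Tup A.toAbVar n s) ∈ 𝔤) :
    br L (0, 0, z, t) ∈ 𝔤 ∧ (br L (0, 0, z, t)).1 = 0 ∧ (br L (0, 0, z, t)).2.1 = 0 := by
  obtain ⟨h1, h2, h3⟩ := hL
  obtain ⟨h4, h5⟩ := (u.unip_mem h).1 hz
  have h0 : ∀ a b, A.om ((0 : Module.End ℚ A.H1) a) b + A.om a ((0 : Module.End ℚ A.H1) b) = 0 := by
    intro a b
    simp
  have h6 : cj u.w (br L (0, 0, z, t)) = ((0, 0, fun p => op L (z p),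
      bb (cj u.w L).2.2.1 z + (2 * L.2.1) • (t + bb u.w z)) : Tup A.toAbVar n s) := by
    rw [cj_br u.w (A.NA_skew h1) (L' := ((0, 0, z, t) : Tup A.toAbVar n s)) h0, cj_unip]
    refine Prod.ext ?_ (Prod.ext rfl (Prod.ext ?_ ?_))
    · simp [OM.br]
    · funext p
      change op (cj u.w L) (z p) - op ((0, 0, z, _) : Tup A.toAbVar n s) ((cj u.w L).2.2.1 p) = _
      rw [op_cj]
      simp [op]
    · funext i l
      simp only [OM.br, bb, Pi.add_apply, Pi.smul_apply, smul_eq_mul]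
      have h7 : (cj u.w L).2.1 = L.2.1 := rfl
      rw [h7]
      ring
  exact u.mem_of_cj h (u.uu_NA h h1 h4) ((tt 𝔤).add_mem (bb_mem h h2 h4)
    ((tt 𝔤).smul_mem _ h5)) h6

theorem br_Zt (h : Lg 𝔤 d) {L : Tup A.toAbVar n s} (hL : u.InP t₀ L) :
    br L (u.Zt t₀) ∈ 𝔤 ∧ (br L (u.Zt t₀)).1 = 0 ∧ (br L (u.Zt t₀)).2.1 = 0 := by
  obtain ⟨h1, h2, h3⟩ := hL
  have h0 : ∀ a b, A.om ((u.Zt t₀).1 a) b + A.om a ((u.Zt t₀).1 b) = 0 := by
    intro a b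
    change A.om ((0 : Module.End ℚ A.H1) a) b + A.om a ((0 : Module.End ℚ A.H1) b) = 0
    simp
  have h6 : cj u.w (br L (u.Zt t₀)) = ((0, 0, -(cj u.w L).2.2.1,
      (-2 : ℚ) • ((cj u.w L).2.2.2 - (2 * L.2.1) • t₀)) : Tup A.toAbVar n s) := by
    rw [cj_br u.w (A.NA_skew h1) h0, cj_Zt]
    refine Prod.ext ?_ (Prod.ext rfl (Prod.ext ?_ ?_))
    · simp [OM.br]
    · funext p
      change op (cj u.w L) (0 : A.H1) - op ((0, 1, 0, (2 : ℚ) • t₀) : Tup A.toAbVar n s)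
        ((cj u.w L).2.2.1 p) = _
      simp [op]
    · funext i l
      simp only [OM.br, Pi.zero_apply, map_zero, LinearMap.zero_apply, Pi.sub_apply,
        Pi.smul_apply, smul_eq_mul]
      have h7 : (cj u.w L).2.1 = L.2.1 := rfl
      rw [h7]
      ring
  exact u.mem_of_cj h ((uu 𝔤).neg_mem h2) ((tt 𝔤).smul_mem _ h3) h6

include u in
theorem phi_tJ {φ : (Fin n → Fin s → ℚ) →ₗ[ℚ] ℚ} (h : Lg 𝔤 d) (hφ : ∀ t ∈ tt 𝔤, φ t = 0)
    (lam : ℂ →ₗ[ℚ] ℚ) : φ (tJ A.toAbVar (fd u.w d) lam).2.2.2 = 0 := by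
  rw [phi_eq]
  have hm : Sym 𝔤 (mC φ) := sym_of_phi h hφ
  have h6 := u.sum_E_I hm u.pt_mem
  have h7 := congrArg lam h6
  rw [map_zero, map_sum] at h7
  rw [← h7]
  refine Finset.sum_congr rfl fun i _ => ?_
  rw [map_sum]
  refine Finset.sum_congr rfl fun l _ => ?_
  unfold mC
  rw [← Rat.smul_def, map_smul, smul_eq_mul]
  rfl

theorem phi_tW {φ : (Fin n → Fin s → ℚ) →ₗ[ℚ] ℚ} (h : Lg 𝔤 d) (hd : Good A d)
    (hφ : ∀ t ∈ tt 𝔤, φ t = 0) {ρ : ℚ}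
    (hρ : ∀ L ∈ 𝔤.map (cj u.w), φ L.2.2.2 = 2 * L.2.1 * ρ) (lam : ℂ →ₗ[ℚ] ℚ) :
    φ (tW A.toAbVar (fd u.w d) lam).2.2.2 = 2 * fr lam 1 * ρ := by
  have hm : Sym 𝔤 (mC φ) := sym_of_phi h hφ
  have hLm := u.Lm_rel h hd hφ hρ
  have h6 := u.sum_W hm hLm
  have h7 := congrArg lam h6
  have h8 : lam (2 * (ρ : ℂ)) = 2 * fr lam 1 * ρ := by
    have h9 : (2 * (ρ : ℂ)) = (2 * ρ) • (((1 : ℝ) : ℂ)) := by
      rw [Rat.smul_def, Complex.ofReal_one, mul_one]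
      push_cast
      ring
    rw [h9, map_smul, smul_eq_mul, fr_apply]
    ring
  rw [phi_eq, ← h8, ← h7, Finset.mul_sum, ← Finset.sum_add_distrib, map_sum]
  refine Finset.sum_congr rfl fun i _ => ?_
  rw [Finset.mul_sum, ← Finset.sum_add_distrib, map_sum]
  refine Finset.sum_congr rfl fun l _ => ?_
  have h9 : mC φ i l * ((A.E ((pt d - Pe u.w) (Sum.inr l)) ((pt d - Pe u.w) (Sum.inl i)) : ℝ) :
      ℂ) + 2 * (mC φ i l * kap A.toAbVar (fd (A := A.toAbVar) u.w d) i l) =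
      (mm φ i l) • ((A.E ((pt d - Pe u.w) (Sum.inr l)) ((pt d - Pe u.w) (Sum.inl i)) : ℝ) :
      ℂ) + (2 * mm φ i l) • kap A.toAbVar (fd (A := A.toAbVar) u.w d) i l := by
    rw [Rat.smul_def, Rat.smul_def]
    unfold mC
    push_cast
    ring
  rw [h9, map_add, map_smul, map_smul, smul_eq_mul, smul_eq_mul]
  change mm φ i l * (fr lam (A.E (pt (fd u.w d) (Sum.inr l)) (pt (fd u.w d) (Sum.inl i))) +
    2 * lam (kap A.toAbVar (fd u.w d) i l)) = _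
  rw [fr_apply]
  have h10 : ∀ p, pt (fd (A := A.toAbVar) u.w d) p = (pt d - Pe u.w) p := fun p => rfl
  rw [h10, h10]
  ring

theorem InP_tJ (h : Lg 𝔤 d) (lam : ℂ →ₗ[ℚ] ℚ) : u.InP t₀ (tJ A.toAbVar d lam) := by
  refine ⟨A.MA_le_NA (A.J_mem (fr lam)), ?_, ?_⟩
  · rw [cj_tJ]
    exact u.cmp_mem (fr lam) (x := Complex.I • (pt d - Pe u.w)) (u.W.smul_mem _ u.pt_mem)
  · have h1 : (tJ A.toAbVar d lam).2.1 = 0 := rfl
    rw [h1, mul_zero, zero_smul, sub_zero, cj_tJ]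
    exact mem_of_dual fun φ hφ => u.phi_tJ h hφ lam

theorem InP_tW (h : Lg 𝔤 d) (hd : Good A d)
    (ht₀ : ∀ φ : (Fin n → Fin s → ℚ) →ₗ[ℚ] ℚ, ∀ ρ : ℚ,
      (∀ L ∈ 𝔤.map (cj u.w), φ L.2.2.2 = 2 * L.2.1 * ρ) → φ t₀ = ρ)
    (lam : ℂ →ₗ[ℚ] ℚ) : u.InP t₀ (tW A.toAbVar d lam) := by
  refine ⟨A.NA.zero_mem, ?_, ?_⟩
  · rw [cj_tW]
    exact u.cmp_mem (fr lam) u.pt_mem
  · have h1 : (tW A.toAbVar d lam).2.1 = fr lam 1 := rfl
    rw [h1, cj_tW]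
    refine mem_of_dual fun φ hφ => ?_
    obtain ⟨ρ, hρ⟩ := u.exists_rho h hφ
    rw [map_sub, u.phi_tW h hd hφ hρ, map_smul, ht₀ φ ρ hρ, smul_eq_mul, sub_self]

/-! ### Matrices -/

/-- The rational matrices of the unipotent part. -/
def uQ (𝔤 : Submodule ℚ (Tup A.toAbVar n s)) :
    Submodule ℚ (Matrix (RI g n s) (RI g n s) ℚ) where
  carrier := {y | ∃ (z : (Fin n ⊕ Fin s) → A.H1) (t : Fin n → Fin s → ℚ),
    ((0, 0, z, t) : Tup A.toAbVar n s) ∈ 𝔤 ∧ y = mtQ ((0, 0, z, t) : Tup A.toAbVar n s)}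
  zero_mem' := ⟨0, 0, 𝔤.zero_mem, mtQ_zero.symm⟩
  add_mem' := by
    rintro _ _ ⟨z, t, h, rfl⟩ ⟨z', t', h', rfl⟩
    refine ⟨z + z', t + t', ?_, ?_⟩
    · have h1 := 𝔤.add_mem h h'
      simpa using h1
    · rw [← mtQ_add]
      simp
  smul_mem' := by
    rintro c _ ⟨z, t, h, rfl⟩
    refine ⟨c • z, c • t, ?_, ?_⟩
    · have h1 := 𝔤.smul_mem c h
      simpa using h1
    · rw [← mtQ_smul]
      simp

theorem mt_mem_cV {z : (Fin n ⊕ Fin s) → A.H1} {t : Fin n → Fin s → ℚ}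
    (h : ((0, 0, z, t) : Tup A.toAbVar n s) ∈ 𝔤) :
    mt ((0, 0, z, t) : Tup A.toAbVar n s) ∈ cV (uQ 𝔤) :=
  Submodule.subset_span ⟨_, ⟨z, t, h, rfl⟩, rfl⟩

/-- the Lie algebra of the big group -/
def PP' (𝔤 : Submodule ℚ (Tup A.toAbVar n s)) (Z : Matrix (RI g n s) (RI g n s) ℂ) :
    Submodule ℂ (Matrix (RI g n s) (RI g n s) ℂ) where
  carrier := {X | (∀ Y ∈ cV (uQ 𝔤), X * Y - Y * X ∈ cV (uQ 𝔤)) ∧ X * Z - Z * X ∈ cV (uQ 𝔤)}
  zero_mem' := by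
    refine ⟨fun Y _ => ?_, ?_⟩
    · rw [Matrix.zero_mul, Matrix.mul_zero, sub_zero]
      exact Submodule.zero_mem _
    · rw [Matrix.zero_mul, Matrix.mul_zero, sub_zero]
      exact Submodule.zero_mem _
  add_mem' := by
    rintro X X' ⟨h1, h2⟩ ⟨h1', h2'⟩
    refine ⟨fun Y hY => ?_, ?_⟩
    · have h3 := Submodule.add_mem _ (h1 Y hY) (h1' Y hY)
      convert h3 using 1
      rw [Matrix.add_mul, Matrix.mul_add]
      abel
    · have h3 := Submodule.add_mem _ h2 h2'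
      convert h3 using 1
      rw [Matrix.add_mul, Matrix.mul_add]
      abel
  smul_mem' := by
    rintro c X ⟨h1, h2⟩
    refine ⟨fun Y hY => ?_, ?_⟩
    · have h3 := Submodule.smul_mem _ c (h1 Y hY)
      convert h3 using 1
      rw [Matrix.smul_mul, Matrix.mul_smul, smul_sub]
    · have h3 := Submodule.smul_mem _ c h2
      convert h3 using 1
      rw [Matrix.smul_mul, Matrix.mul_smul, smul_sub]

theorem skew0 (a b : A.H1) :
    A.om ((0 : Module.End ℚ A.H1) a) b + A.om a ((0 : Module.End ℚ A.H1) b) = 0 := by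
  simp

theorem mt_mem_PP (h : Lg 𝔤 d) {L : Tup A.toAbVar n s} (hL : u.InP t₀ L) :
    mt L ∈ PP' 𝔤 (mt (u.Zt t₀)) := by
  refine ⟨fun Y hY => ?_, ?_⟩
  · unfold cV at hY
    induction hY using Submodule.span_induction with
    | mem Y hY =>
      obtain ⟨y, ⟨z, t, hz, rfl⟩, rfl⟩ := hY
      obtain ⟨h1, h2, h3⟩ := u.br_unip t₀ h hL hz
      have h4 := mt_br (A.NA_skew hL.1) (L' := ((0, 0, z, t) : Tup A.toAbVar n s)) skew0
      have h5 : mt L * mt ((0, 0, z, t) : Tup A.toAbVar n s) -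
          mt ((0, 0, z, t) : Tup A.toAbVar n s) * mt L = -mt (br L (0, 0, z, t)) := by
        rw [h4]
        abel
      have h6 : br L (0, 0, z, t) = ((0, 0, (br L (0, 0, z, t)).2.2.1,
          (br L (0, 0, z, t)).2.2.2) : Tup A.toAbVar n s) :=
        Prod.ext h2 (Prod.ext h3 (Prod.ext rfl rfl))
      change mt L * mt ((0, 0, z, t) : Tup A.toAbVar n s) -
          mt ((0, 0, z, t) : Tup A.toAbVar n s) * mt L ∈ _
      rw [h5]
      refine Submodule.neg_mem _ ?_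
      rw [h6] at h1 ⊢
      exact mt_mem_cV h1
    | zero =>
      rw [Matrix.zero_mul, Matrix.mul_zero, sub_zero]
      exact Submodule.zero_mem _
    | add Y Y' _ _ h1 h2 =>
      have h3 := Submodule.add_mem _ h1 h2
      convert h3 using 1
      rw [Matrix.add_mul, Matrix.mul_add]
      abel
    | smul c Y _ h1 =>
      have h3 := Submodule.smul_mem _ c h1
      convert h3 using 1
      rw [Matrix.smul_mul, Matrix.mul_smul, smul_sub]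
  · obtain ⟨h1, h2, h3⟩ := u.br_Zt t₀ h hL
    have h4 := mt_br (A.NA_skew hL.1) (L' := u.Zt t₀) skew0
    have h5 : mt L * mt (u.Zt t₀) - mt (u.Zt t₀) * mt L = -mt (br L (u.Zt t₀)) := by
      rw [h4]
      abel
    have h6 : br L (u.Zt t₀) = ((0, 0, (br L (u.Zt t₀)).2.2.1,
        (br L (u.Zt t₀)).2.2.2) : Tup A.toAbVar n s) :=
      Prod.ext h2 (Prod.ext h3 (Prod.ext rfl rfl))
    rw [h5]
    refine Submodule.neg_mem _ ?_
    rw [h6] at h1 ⊢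
    exact mt_mem_cV h1

theorem comp_mem {R : Type} [Fintype R] {V : Submodule ℂ (Matrix R R ℂ)} {X : Matrix R R ℂ}
    (h : ∀ lam : ℂ →ₗ[ℚ] ℚ, X.map (lamF lam) ∈ V) : X ∈ V := by
  classical
  obtain ⟨s, hs⟩ := exists_coordsC (fun p : R × R => X p.1 p.2)
  have h1 : X = ∑ b ∈ s, (Basis.ofVectorSpace ℚ ℂ b) •
      X.map (lamF ((Basis.ofVectorSpace ℚ ℂ).coord b)) := by
    ext i j
    rw [Matrix.sum_apply]
    have h2 := hs (i, j)
    simp only at h2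
    rw [h2]
    refine Finset.sum_congr rfl fun b _ => ?_
    rw [Matrix.smul_apply, Matrix.map_apply, smul_eq_mul, mul_comm, lamF_apply]
  rw [h1]
  exact Submodule.sum_mem _ fun b _ => Submodule.smul_mem _ _ (h _)

theorem XJ_mem (h : Lg 𝔤 d) : XJ A.toAbVar d ∈ PP' 𝔤 (mt (u.Zt t₀)) :=
  comp_mem fun lam => by
    rw [← mt_tJ]
    exact u.mt_mem_PP t₀ h (u.InP_tJ t₀ h lam)

theorem XW_mem (h : Lg 𝔤 d) (hd : Good A d)
    (ht₀ : ∀ φ : (Fin n → Fin s → ℚ) →ₗ[ℚ] ℚ, ∀ ρ : ℚ,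
      (∀ L ∈ 𝔤.map (cj u.w), φ L.2.2.2 = 2 * L.2.1 * ρ) → φ t₀ = ρ) :
    XW A.toAbVar d ∈ PP' 𝔤 (mt (u.Zt t₀)) :=
  comp_mem fun lam => by
    rw [← mt_tW]
    exact u.mt_mem_PP t₀ h (u.InP_tW t₀ h hd ht₀ lam)

end UD

/-- Exponentials are in the big group. -/
theorem exp_mem_PG {V : Submodule ℂ (Matrix (RI g n s) (RI g n s) ℂ)}
    {Z X : Matrix (RI g n s) (RI g n s) ℂ} (h1 : ∀ Y ∈ V, X * Y - Y * X ∈ V)
    (h2 : X * Z - Z * X ∈ V) : ∃ x ∈ PG V Z,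
      (x : Matrix (RI g n s) (RI g n s) ℂ) = NormedSpace.exp X := by
  refine ⟨⟨NormedSpace.exp X, NormedSpace.exp (-X), exp_mul_exp_neg X, exp_neg_mul_exp X⟩, ?_, rfl⟩
  have h3 : ∀ Y ∈ V, (-X) * Y - Y * (-X) ∈ V := by
    intro Y hY
    have h4 := V.neg_mem (h1 Y hY)
    convert h4 using 1
    rw [Matrix.neg_mul, Matrix.mul_neg]
    abel
  refine ⟨fun Y hY => ?_, fun Y hY => ?_, ?_⟩
  · change NormedSpace.exp X * Y * NormedSpace.exp (-X) ∈ V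
    have h4 := V.add_mem (exp_conj_mem h1 (h1 Y hY)) hY
    rwa [sub_add_cancel] at h4
  · change NormedSpace.exp (-X) * Y * NormedSpace.exp X ∈ V
    have h4 := V.add_mem (exp_conj_mem h3 (h3 Y hY)) hY
    rwa [sub_add_cancel, neg_neg] at h4
  · change NormedSpace.exp X * Z * NormedSpace.exp (-X) - Z ∈ V
    exact exp_conj_mem h1 h2

end Pool.Agent.R917.BX
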