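import Pool.Agent.R917.BX.Uni

set_option autoImplicit false
set_option linter.unusedSectionVars false
set_option linter.unusedSimpArgs false

/-!
# The unipotent elements of the big group
-/

open Module Function TensorProduct Matrix

noncomputable section

namespace Pool.Agent.R917.BX

open Pool.Agent.Y102 Pool.Agent.W516.DR Pool.Agent.H204R3.GP Pool.Agent.W516.KC
  Pool.Agent.H204R3.SP Pool.Agent.TH119.MX Pool.Agent.R917.OM

section norm

theorem exp_two' {M : Type*} [NormedRing M] [NormedAlgebra ℂ M] [FiniteDimensional ℂ M] {X Y : M}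
    (h : X * (X * Y - Y * X) - (X * Y - Y * X) * X = 0) :
    NormedSpace.exp X * Y * NormedSpace.exp (-X) = Y + (X * Y - Y * X) := by
  have _ : CompleteSpace M := FiniteDimensional.complete ℂ M
  rw [← exp_ad]
  have h1 : ∀ Y, (lm X + rm (-X)) Y = X * Y - Y * X := by
    intro Y
    change X * Y + Y * -X = _
    rw [mul_neg, ← sub_eq_add_neg]
  obtain ⟨T, hT⟩ : ∃ T : M →L[ℂ] M, T = lm X + rm (-X) := ⟨_, rfl⟩
  rw [← hT] at h1 ⊢
  have h2 := (ContinuousLinearMap.apply ℂ M Y).hasSum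
    (NormedSpace.exp_series_hasSum_exp' (𝕂 := ℂ) T)
  have h3 : ∀ k : ℕ, (T ^ (k + 2)) Y = 0 := by
    intro k
    induction k with
    | zero =>
      change (T ^ 2) Y = 0
      rw [pow_two]
      change T (T Y) = 0
      rw [h1, h1, h]
    | succ k ih =>
      rw [show k + 1 + 2 = (k + 2) + 1 from rfl, pow_succ']
      change T ((T ^ (k + 2)) Y) = 0
      rw [ih, map_zero]
  have h4 : HasSum (fun k : ℕ => (ContinuousLinearMap.apply ℂ M Y)
      (((k.factorial : ℂ)⁻¹) • T ^ k)) (∑ k ∈ Finset.range 2,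
        (ContinuousLinearMap.apply ℂ M Y) (((k.factorial : ℂ)⁻¹) • T ^ k)) := by
    refine hasSum_sum_of_ne_finset_zero fun k hk => ?_
    obtain ⟨m, rfl⟩ : ∃ m, k = m + 2 := ⟨k - 2, by
      have := Finset.mem_range.not.1 hk
      omega⟩
    change (((m + 2).factorial : ℂ)⁻¹ • T ^ (m + 2)) Y = 0
    rw [_root_.smul_apply, h3, smul_zero]
  have h5 := h2.unique h4
  change NormedSpace.exp T Y = _ at h5
  rw [h5, Finset.sum_range_succ, Finset.sum_range_one]
  have h6 : (ContinuousLinearMap.apply ℂ M Y) ((((0 : ℕ).factorial : ℂ)⁻¹) • T ^ 0) = Y := by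
    simp
  have h7 : (ContinuousLinearMap.apply ℂ M Y) ((((1 : ℕ).factorial : ℂ)⁻¹) • T ^ 1) = T Y := by
    simp
  rw [h6, h7, h1]

attribute [local instance] Matrix.linftyOpNormedRing Matrix.linftyOpNormedAlgebra

theorem exp_two {B : Type} [Fintype B] [DecidableEq B] {X Y : Matrix B B ℂ}
    (h : X * (X * Y - Y * X) - (X * Y - Y * X) * X = 0) :
    NormedSpace.exp X * Y * NormedSpace.exp (-X) = Y + (X * Y - Y * X) :=
  exp_two' (M := Matrix B B ℂ) h

theorem exp_sub_one_mem' {M : Type*} [NormedRing M] [NormedAlgebra ℂ M] [FiniteDimensional ℂ M]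
    {V : Submodule ℂ M} {X : M} (h : ∀ Y ∈ V, X * Y ∈ V) (hX : X ∈ V) :
    NormedSpace.exp X - 1 ∈ V := by
  have h1 := exp_sub_mem (T := lm X) (V := V) (y := (1 : M)) h (by
    rw [lm_apply, mul_one]
    exact hX)
  rwa [exp_lm, mul_one] at h1

theorem exp_sub_one_mem {B : Type} [Fintype B] [DecidableEq B] {V : Submodule ℂ (Matrix B B ℂ)}
    {X : Matrix B B ℂ} (h : ∀ Y ∈ V, X * Y ∈ V) (hX : X ∈ V) :
    NormedSpace.exp X - 1 ∈ V := exp_sub_one_mem' (M := Matrix B B ℂ) h hX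

end norm

variable {g n s : ℕ}

/-- The strictly triangular matrices. -/
def Ns (g n s : ℕ) : Submodule ℂ (Matrix (RI g n s) (RI g n s) ℂ) where
  carrier := {M | (∀ j j', M (Sum.inl j) (Sum.inl j') = 0) ∧
    (∀ j i, M (Sum.inl j) (Sum.inr (Sum.inr i)) = 0) ∧
    (∀ l r, M (Sum.inr (Sum.inl l)) r = 0) ∧
    ∀ i i', M (Sum.inr (Sum.inr i)) (Sum.inr (Sum.inr i')) = 0}
  zero_mem' := ⟨fun _ _ => rfl, fun _ _ => rfl, fun _ _ => rfl, fun _ _ => rfl⟩
  add_mem' := by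
    rintro M M' ⟨h1, h2, h3, h4⟩ ⟨h1', h2', h3', h4'⟩
    exact ⟨fun _ _ => by rw [Matrix.add_apply, h1, h1', add_zero],
      fun _ _ => by rw [Matrix.add_apply, h2, h2', add_zero],
      fun _ _ => by rw [Matrix.add_apply, h3, h3', add_zero],
      fun _ _ => by rw [Matrix.add_apply, h4, h4', add_zero]⟩
  smul_mem' := by
    rintro c M ⟨h1, h2, h3, h4⟩
    exact ⟨fun _ _ => by rw [Matrix.smul_apply, h1, smul_zero],
      fun _ _ => by rw [Matrix.smul_apply, h2, smul_zero],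
      fun _ _ => by rw [Matrix.smul_apply, h3, smul_zero],
      fun _ _ => by rw [Matrix.smul_apply, h4, smul_zero]⟩

theorem Ns_mul {M M' : Matrix (RI g n s) (RI g n s) ℂ} (h : M ∈ Ns g n s) (h' : M' ∈ Ns g n s) :
    M * M' ∈ Ns g n s := by
  obtain ⟨h1, h2, h3, h4⟩ := h
  obtain ⟨h1', h2', h3', h4'⟩ := h'
  refine ⟨fun j j' => ?_, fun j i => ?_, fun l r => ?_, fun i i' => ?_⟩ <;>
  · rw [Matrix.mul_apply, Fintype.sum_sum_type, Fintype.sum_sum_type]
    simp [h1, h2, h3, h4, h1', h2', h3', h4']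

/-- The matrices of weight minus two. -/
def Nt (g n s : ℕ) : Submodule ℂ (Matrix (RI g n s) (RI g n s) ℂ) where
  carrier := {M | (∀ j r, M (Sum.inl j) r = 0) ∧ (∀ l r, M (Sum.inr (Sum.inl l)) r = 0) ∧
    (∀ r j, M r (Sum.inl j) = 0) ∧ ∀ r i, M r (Sum.inr (Sum.inr i)) = 0}
  zero_mem' := ⟨fun _ _ => rfl, fun _ _ => rfl, fun _ _ => rfl, fun _ _ => rfl⟩
  add_mem' := by
    rintro M M' ⟨h1, h2, h3, h4⟩ ⟨h1', h2', h3', h4'⟩
    exact ⟨fun _ _ => by rw [Matrix.add_apply, h1, h1', add_zero],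
      fun _ _ => by rw [Matrix.add_apply, h2, h2', add_zero],
      fun _ _ => by rw [Matrix.add_apply, h3, h3', add_zero],
      fun _ _ => by rw [Matrix.add_apply, h4, h4', add_zero]⟩
  smul_mem' := by
    rintro c M ⟨h1, h2, h3, h4⟩
    exact ⟨fun _ _ => by rw [Matrix.smul_apply, h1, smul_zero],
      fun _ _ => by rw [Matrix.smul_apply, h2, smul_zero],
      fun _ _ => by rw [Matrix.smul_apply, h3, smul_zero],
      fun _ _ => by rw [Matrix.smul_apply, h4, smul_zero]⟩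

theorem Ns_Nt {M M' : Matrix (RI g n s) (RI g n s) ℂ} (h : M ∈ Ns g n s) (h' : M' ∈ Nt g n s) :
    M * M' = 0 ∧ M' * M = 0 := by
  obtain ⟨h1, h2, h3, h4⟩ := h
  obtain ⟨h1', h2', h3', h4'⟩ := h'
  constructor
  · ext r r'
    rw [Matrix.mul_apply, Fintype.sum_sum_type, Fintype.sum_sum_type]
    rcases r with j | l | i <;> simp [h1, h2, h3, h4, h1', h2', h3', h4']
  · ext r r'
    rw [Matrix.mul_apply, Fintype.sum_sum_type, Fintype.sum_sum_type]
    simp [h1, h2, h3, h4, h1', h2', h3', h4']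

variable {A : AbVarG g} {𝔤 : Submodule ℚ (Tup A.toAbVar n s)} {d : Dt g n s}

theorem mt_Ns (z : (Fin n ⊕ Fin s) → A.H1) (t : Fin n → Fin s → ℚ) :
    mt ((0, 0, z, t) : Tup A.toAbVar n s) ∈ Ns g n s := by
  refine ⟨fun j j' => ?_, fun j i => ?_, fun l r => ?_, fun i i' => ?_⟩
  · simp [OM.mt, OM.mtQ, OM.op]
  · simp [OM.mt, OM.mtQ, OM.op]
  · rcases r with j | l' | i' <;> simp [OM.mt, OM.mtQ, OM.op]
  · simp [OM.mt, OM.mtQ, OM.op]

theorem mt_Nt (t : Fin n → Fin s → ℚ) :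
    mt ((0, 0, 0, t) : Tup A.toAbVar n s) ∈ Nt g n s := by
  refine ⟨fun j r => ?_, fun l r => ?_, fun r j => ?_, fun r i => ?_⟩
  · rcases r with j | l' | i' <;> simp [OM.mt, OM.mtQ, OM.op]
  · rcases r with j | l' | i' <;> simp [OM.mt, OM.mtQ, OM.op]
  · rcases r with j | l' | i' <;> simp [OM.mt, OM.mtQ, OM.op]
  · rcases r with j | l' | i' <;> simp [OM.mt, OM.mtQ, OM.op]

theorem cV_Ns {Y : Matrix (RI g n s) (RI g n s) ℂ} (hY : Y ∈ cV (UD.uQ 𝔤)) : Y ∈ Ns g n s := by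
  unfold cV at hY
  induction hY using Submodule.span_induction with
  | mem Y hY =>
    obtain ⟨y, ⟨z, t, hz, rfl⟩, rfl⟩ := hY
    exact mt_Ns z t
  | zero => exact Submodule.zero_mem _
  | add Y Y' _ _ h h' => exact Submodule.add_mem _ h h'
  | smul c Y _ h => exact Submodule.smul_mem _ c h

namespace UD

variable (u : UD 𝔤 d) (t₀ : Fin n → Fin s → ℚ)

theorem ad_Zt (z : (Fin n ⊕ Fin s) → A.H1) (t : Fin n → Fin s → ℚ) :
    mt ((0, 0, z, t) : Tup A.toAbVar n s) * mt (u.Zt t₀) -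
      mt (u.Zt t₀) * mt ((0, 0, z, t) : Tup A.toAbVar n s) =
      mt ((0, 0, z, (2 : ℚ) • t + bb u.w z) : Tup A.toAbVar n s) := by
  have h4 := mt_br (L := u.Zt t₀) (L' := ((0, 0, z, t) : Tup A.toAbVar n s)) skew0 skew0
  rw [← h4]
  congr 1
  refine Prod.ext ?_ (Prod.ext rfl (Prod.ext ?_ ?_))
  · change (0 : Module.End ℚ A.H1) * 0 - 0 * 0 = 0
    simp
  · funext p
    change op (u.Zt t₀) (z p) - op ((0, 0, z, t) : Tup A.toAbVar n s) (u.w p) = z p
    rw [op_Zt]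
    simp [op]
  · funext i l
    change A.om (u.w (Sum.inr l)) (z (Sum.inl i)) - A.om (z (Sum.inr l)) (u.w (Sum.inl i)) +
      2 * 1 * t i l - 2 * 0 * ((2 : ℚ) • t₀) i l = ((2 : ℚ) • t + bb u.w z) i l
    simp only [bb, Pi.add_apply, Pi.smul_apply, smul_eq_mul]
    ring

theorem ad_sub {Y : Matrix (RI g n s) (RI g n s) ℂ} (hY : Y ∈ cV (uQ 𝔤)) :
    Y * mt (u.Zt t₀) - mt (u.Zt t₀) * Y - Y ∈ Nt g n s := by
  unfold cV at hY
  induction hY using Submodule.span_induction with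
  | mem Y hY =>
    obtain ⟨y, ⟨z, t, hz, rfl⟩, rfl⟩ := hY
    change mt ((0, 0, z, t) : Tup A.toAbVar n s) * mt (u.Zt t₀) -
      mt (u.Zt t₀) * mt ((0, 0, z, t) : Tup A.toAbVar n s) -
      mt ((0, 0, z, t) : Tup A.toAbVar n s) ∈ _
    rw [ad_Zt]
    have h1 : mt ((0, 0, z, (2 : ℚ) • t + bb u.w z) : Tup A.toAbVar n s) =
        mt ((0, 0, 0, t + bb u.w z) : Tup A.toAbVar n s) +
          mt ((0, 0, z, t) : Tup A.toAbVar n s) := by
      rw [← mt_add]
      congr 1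
      refine Prod.ext ?_ (Prod.ext ?_ (Prod.ext ?_ ?_))
      · change (0 : Module.End ℚ A.H1) = 0 + 0
        rw [add_zero]
      · change (0 : ℚ) = 0 + 0
        rw [add_zero]
      · change z = 0 + z
        rw [zero_add]
      · change (2 : ℚ) • t + bb u.w z = t + bb u.w z + t
        rw [two_smul]
        abel
    rw [h1, add_sub_cancel_right]
    exact mt_Nt _
  | zero =>
    rw [Matrix.zero_mul, Matrix.mul_zero, sub_zero, sub_zero]
    exact Submodule.zero_mem _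
  | add Y Y' _ _ h h' =>
    have h3 := Submodule.add_mem _ h h'
    convert h3 using 1
    rw [Matrix.add_mul, Matrix.mul_add]
    abel
  | smul c Y _ h =>
    have h3 := Submodule.smul_mem _ c h
    convert h3 using 1
    rw [Matrix.smul_mul, Matrix.mul_smul, smul_sub, smul_sub]

theorem exists_ad (h : Lg 𝔤 d) {N : Matrix (RI g n s) (RI g n s) ℂ} (hN : N ∈ cV (uQ 𝔤)) :
    ∃ Y ∈ cV (uQ 𝔤), Y * mt (u.Zt t₀) - mt (u.Zt t₀) * Y = N := by
  unfold cV at hN
  induction hN using Submodule.span_induction with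
  | mem N hN =>
    obtain ⟨y, ⟨z, t, hz, rfl⟩, rfl⟩ := hN
    refine ⟨mt ((0, 0, z, (1 / 2 : ℚ) • (t - bb u.w z)) : Tup A.toAbVar n s), ?_, ?_⟩
    · refine mt_mem_cV ?_
      obtain ⟨h1, h2⟩ := (u.unip_mem h).1 hz
      rw [u.unip_mem h]
      refine ⟨h1, ?_⟩
      have h3 := (tt 𝔤).smul_mem (1 / 2 : ℚ) h2
      convert h3 using 1
      module
    · rw [ad_Zt]
      change _ = mt ((0, 0, z, t) : Tup A.toAbVar n s)
      congr 1
      refine Prod.ext rfl (Prod.ext rfl (Prod.ext rfl ?_))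
      change (2 : ℚ) • ((1 / 2 : ℚ) • (t - bb u.w z)) + bb u.w z = t
      module
  | zero =>
    refine ⟨0, Submodule.zero_mem _, ?_⟩
    rw [Matrix.zero_mul, Matrix.mul_zero, sub_zero]
  | add N N' _ _ h h' =>
    obtain ⟨Y, hY, e⟩ := h
    obtain ⟨Y', hY', e'⟩ := h'
    refine ⟨Y + Y', Submodule.add_mem _ hY hY', ?_⟩
    rw [← e, ← e', Matrix.add_mul, Matrix.mul_add]
    abel
  | smul c N _ h =>
    obtain ⟨Y, hY, e⟩ := h
    refine ⟨c • Y, Submodule.smul_mem _ c hY, ?_⟩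
    rw [← e, Matrix.smul_mul, Matrix.mul_smul, smul_sub]

/-- Strictly triangular matrices which commute with the grading are zero. -/
theorem comm_zero {ν : Matrix (RI g n s) (RI g n s) ℂ} (hν : ν ∈ Ns g n s)
    (hc : ν * mt (u.Zt t₀) = mt (u.Zt t₀) * ν) : ν = 0 := by
  obtain ⟨h1, h2, h3, h4⟩ := hν
  have z1 : ∀ j j', mt (u.Zt t₀) (Sum.inl j) (Sum.inl j') = if j = j' then 1 else 0 := by
    intro j j'
    have h5 : mt (u.Zt t₀) (Sum.inl j) (Sum.inl j') =
        ((op (u.Zt t₀) (eb A.toAbVar j) j' : ℚ) : ℂ) := rfl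
    rw [h5, op_Zt]
    unfold eb
    rw [Pi.single_apply]
    by_cases hj : j = j'
    · rw [if_pos hj, if_pos hj.symm, Rat.cast_one]
    · rw [if_neg hj, if_neg (fun h => hj h.symm), Rat.cast_zero]
  have z2 : ∀ l l', mt (u.Zt t₀) (Sum.inr (Sum.inl l)) (Sum.inr (Sum.inl l')) =
      if l = l' then 2 else 0 := by
    intro l l'
    have h5 : mt (u.Zt t₀) (Sum.inr (Sum.inl l)) (Sum.inr (Sum.inl l')) =
        (((if l = l' then 2 * 1 else 0 : ℚ)) : ℂ) := rfl
    rw [h5]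
    split_ifs <;> norm_num
  have z3 : ∀ r i, mt (u.Zt t₀) r (Sum.inr (Sum.inr i)) = 0 := by
    intro r i
    rcases r with j | l | i' <;> simp [OM.mt, OM.mtQ]
  have z4 : ∀ l j, mt (u.Zt t₀) (Sum.inr (Sum.inl l)) (Sum.inl j) = 0 := by
    intro l j
    simp [OM.mt, OM.mtQ]
  have e1 : ∀ j l, ν (Sum.inl j) (Sum.inr (Sum.inl l)) = 0 := by
    intro j l
    have h5 := congrFun (congrFun hc (Sum.inl j)) (Sum.inr (Sum.inl l))
    rw [Matrix.mul_apply, Matrix.mul_apply, Fintype.sum_sum_type, Fintype.sum_sum_type,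
      Fintype.sum_sum_type, Fintype.sum_sum_type] at h5
    simp only [h1, h2, h3, z1, z2, z3, zero_mul, mul_zero, Finset.sum_const_zero, add_zero,
      zero_add, mul_ite, ite_mul, one_mul, Finset.sum_ite_eq, Finset.sum_ite_eq',
      Finset.mem_univ, if_true] at h5
    linear_combination h5
  have e2 : ∀ i j, ν (Sum.inr (Sum.inr i)) (Sum.inl j) = 0 := by
    intro i j
    have h5 := congrFun (congrFun hc (Sum.inr (Sum.inr i))) (Sum.inl j)
    rw [Matrix.mul_apply, Matrix.mul_apply, Fintype.sum_sum_type, Fintype.sum_sum_type,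
      Fintype.sum_sum_type, Fintype.sum_sum_type] at h5
    simp only [h1, h3, h4, z1, z3, z4, zero_mul, mul_zero, Finset.sum_const_zero, add_zero,
      zero_add, mul_ite, mul_one, Finset.sum_ite_eq, Finset.sum_ite_eq',
      Finset.mem_univ, if_true] at h5
    exact h5
  have e3 : ∀ i l, ν (Sum.inr (Sum.inr i)) (Sum.inr (Sum.inl l)) = 0 := by
    intro i l
    have h5 := congrFun (congrFun hc (Sum.inr (Sum.inr i))) (Sum.inr (Sum.inl l))
    rw [Matrix.mul_apply, Matrix.mul_apply, Fintype.sum_sum_type, Fintype.sum_sum_type,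
      Fintype.sum_sum_type, Fintype.sum_sum_type] at h5
    simp only [e1, e2, h3, h4, z2, z3, zero_mul, mul_zero, Finset.sum_const_zero, add_zero,
      zero_add, mul_ite, Finset.sum_ite_eq, Finset.sum_ite_eq',
      Finset.mem_univ, if_true] at h5
    have h6 : (2 : ℂ) ≠ 0 := two_ne_zero
    exact (mul_eq_zero.1 h5).resolve_right h6
  ext r r'
  rcases r with j | l | i
  · rcases r' with j' | l' | i'
    · exact h1 _ _
    · exact e1 _ _
    · exact h2 _ _
  · exact h3 _ _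
  · rcases r' with j' | l' | i'
    · exact e2 _ _
    · exact e3 _ _
    · exact h4 _ _

/-- **The unipotent elements of the big group.** -/
theorem unip_exp (h : Lg 𝔤 d) {x : GL (RI g n s) ℂ}
    (hx : x ∈ PG (cV (uQ 𝔤)) (mt (u.Zt t₀)))
    (hu : (x : Matrix (RI g n s) (RI g n s) ℂ) - 1 ∈ Ns g n s) :
    ∃ Y ∈ cV (uQ 𝔤), (x : Matrix (RI g n s) (RI g n s) ℂ) = NormedSpace.exp Y := by
  obtain ⟨Y, hY, hYN⟩ := u.exists_ad t₀ h hx.2.2
  refine ⟨Y, hY, ?_⟩
  obtain ⟨X, hX⟩ : ∃ X : Matrix (RI g n s) (RI g n s) ℂ, X = x := ⟨_, rfl⟩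
  obtain ⟨X', hX'⟩ : ∃ X' : Matrix (RI g n s) (RI g n s) ℂ, X' = ((x⁻¹ : GL (RI g n s) ℂ) :
    Matrix (RI g n s) (RI g n s) ℂ) := ⟨_, rfl⟩
  have hXX : X' * X = 1 := by
    rw [hX, hX', ← Units.val_mul, inv_mul_cancel, Units.val_one]
  rw [← hX, ← hX'] at hYN
  rw [← hX] at hu ⊢
  have hYs := cV_Ns hY
  have h1 := exp_two (X := Y) (Y := mt (u.Zt t₀)) (by
    obtain ⟨m, hm⟩ : ∃ m, m = Y * mt (u.Zt t₀) - mt (u.Zt t₀) * Y - Y := ⟨_, rfl⟩
    have h2 : Y * mt (u.Zt t₀) - mt (u.Zt t₀) * Y = Y + m := by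
      rw [hm]
      abel
    have h3 : m ∈ Nt g n s := by
      rw [hm]
      exact u.ad_sub t₀ hY
    obtain ⟨h4, h5⟩ := Ns_Nt hYs h3
    rw [h2, Matrix.mul_add, Matrix.add_mul, h4, h5]
    simp)
  rw [hYN, add_sub_cancel] at h1
  -- the quotient commutes with the grading
  have h2 : NormedSpace.exp (-Y) * X * mt (u.Zt t₀) =
      mt (u.Zt t₀) * (NormedSpace.exp (-Y) * X) := by
    calc NormedSpace.exp (-Y) * X * mt (u.Zt t₀) =
          NormedSpace.exp (-Y) * (X * mt (u.Zt t₀) * X') * X := by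
          simp only [Matrix.mul_assoc, hXX, Matrix.mul_one]
      _ = (NormedSpace.exp (-Y) * NormedSpace.exp Y) * mt (u.Zt t₀) *
          (NormedSpace.exp (-Y) * X) := by
          rw [← h1]
          simp only [Matrix.mul_assoc]
      _ = _ := by rw [exp_neg_mul_exp, Matrix.one_mul]
  have h3 : NormedSpace.exp (-Y) - 1 ∈ Ns g n s :=
    exp_sub_one_mem (fun Z hZ => Ns_mul ((Ns g n s).neg_mem hYs) hZ) ((Ns g n s).neg_mem hYs)
  have h4 : NormedSpace.exp (-Y) * X - 1 ∈ Ns g n s := by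
    have h5 : NormedSpace.exp (-Y) * X - 1 = (NormedSpace.exp (-Y) - 1) + (X - 1) +
        (NormedSpace.exp (-Y) - 1) * (X - 1) := by
      rw [Matrix.sub_mul, Matrix.mul_sub, Matrix.one_mul, Matrix.mul_one]
      abel
    rw [h5]
    exact (Ns g n s).add_mem ((Ns g n s).add_mem h3 hu) (Ns_mul h3 hu)
  have h5 := u.comm_zero t₀ h4 (by
    rw [Matrix.sub_mul, Matrix.mul_sub, h2, Matrix.one_mul, Matrix.mul_one])
  have h6 : NormedSpace.exp (-Y) * X = 1 := sub_eq_zero.1 h5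
  calc X = (NormedSpace.exp Y * NormedSpace.exp (-Y)) * X := by
        rw [exp_mul_exp_neg, Matrix.one_mul]
    _ = _ := by rw [Matrix.mul_assoc, h6, Matrix.mul_one]

end UD

end Pool.Agent.R917.BX
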